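import Mathlib
import Pool.Agent.Lib.MP_60829e_nt.ST.StrField

/-! # Theorem ZL: definitions

`Qa` = the algebraic numbers, `Lt` = the `Qa`-span of `1` and all logarithms of algebraic numbers. -/

open Module Finset

namespace MP60829e.ZL

open MP60829e.ST (Qa Lt)

/-- The relations `∑ y i * v i = 0` with `y i ∈ Y`, `v i ∈ Lt` hold modulo `V` in the second factor. -/
def LD (Y V : Submodule Qa ℂ) : Prop :=
  ∀ (ι : Type) [Fintype ι] (y v : ι → ℂ), (∀ i, y i ∈ Y) → (∀ i, v i ∈ Lt) → ∑ i, y i * v i = 0 →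
    ∀ φ : ℂ →ₗ[Qa] Qa, (∀ x ∈ V, φ x = 0) → ∑ i, φ (v i) • y i = 0

/-- No nonlinear polynomial of degree at most `D` over `Y` takes at `z` a value in `Y * Lt`. -/
def Gen (Y : Submodule Qa ℂ) (D : ℕ) (z : ℂ) : Prop :=
  ∀ f : Polynomial ℂ, (∀ i, f.coeff i ∈ Y) → f.natDegree ≤ D → f.eval z ∈ Y * Lt → f.natDegree ≤ 1

/-- A row: a set of elements of `Lt`, with `0`, not contained in a space of dimension `< T`. -/
def Row (T : ℕ) (R : Set ℂ) : Prop :=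
  (0 : ℂ) ∈ R ∧ (∀ x ∈ R, x ∈ Lt) ∧
    ∀ V : Submodule Qa ℂ, FiniteDimensional Qa V → finrank Qa V < T → ∃ x ∈ R, x ∉ V

/-- The span of `1`, `w`, `δ 0`, …, `δ (m - 1)`. -/
noncomputable def P (w : ℂ) (δ : ℕ → ℂ) (m : ℕ) : Submodule Qa ℂ :=
  Submodule.span Qa (insert 1 (insert w (δ '' Set.Iio m)))

/-- The mixed difference of order `S` of `x ^ e` at `w`, with steps `δ t`, `t ∈ S`. -/
noncomputable def om (w : ℂ) (δ : ℕ → ℂ) (e : ℕ) (S : Finset ℕ) : ℂ :=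
  ∑ S' ∈ S.powerset, (-1) ^ (S.card + S'.card) * (w + ∑ t ∈ S', δ t) ^ e

/-- The products `∏ t ∈ S, δ t`, `S ⊆ {0, …, m - 1}`, are linearly independent over `Y`. -/
def MF (Y : Submodule Qa ℂ) (δ : ℕ → ℂ) (m : ℕ) : Prop :=
  ∀ c : Finset ℕ → ℂ, (∀ S, c S ∈ Y) → ∑ S ∈ (range m).powerset, c S * ∏ t ∈ S, δ t = 0 →
    ∀ S ∈ (range m).powerset, c S = 0

/-- The differences `om w δ j S`, `S ⊆ {0, …, m - 1}`, `|S| ≤ j ≤ D`, are linearly independent over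
`A`. -/
def FF (A : Submodule Qa ℂ) (w : ℂ) (δ : ℕ → ℂ) (m D : ℕ) : Prop :=
  ∀ b : ℕ → Finset ℕ → ℂ, (∀ j S, b j S ∈ A) →
    ∑ j ∈ range (D + 1), ∑ S ∈ (range m).powerset, b j S * om w δ j S = 0 →
    ∀ j ≤ D, ∀ S ∈ (range m).powerset, S.card ≤ j → b j S = 0

/-- Every polynomial of degree at most `D` with coefficients in `E * Lt` and root `x` is `X - x` times
a polynomial over `E`. -/
def Good (E : Submodule Qa ℂ) (D : ℕ) (x : ℂ) : Prop :=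
  ∀ F : Polynomial ℂ, (∀ j, F.coeff j ∈ E * Lt) → F.natDegree ≤ D → F.eval x = 0 →
    ∃ G : Polynomial ℂ, (∀ j, G.coeff j ∈ E) ∧ F = (Polynomial.X - Polynomial.C x) * G

end MP60829e.ZL
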