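import Mathlib
import Pool.Agent.Lib.MP_60829e_nt.ZL.Defs
import Pool.Agent.Lib.MP_60829e_nt.ZB.Hyp

/-! # Theorem ZL: the linear disjointness property from Roy's theorem -/

open Module Finset

namespace MP60829e.ZL

open MP60829e.ST (Qa Lt Lsp)

/-- Roy's theorem for `Lt`, weak constant. PROOF: `Lt = Qa ⊕ Lsp`; the vectors with entries in `Lsp`
have dimension `≤ e (e - 1)` by `HS.hps`, the constant parts add at most `e`: precisely
`v ↦` (constant parts) is well defined by Baker, or: the quotient of `V` by `V ∩ Lsp ^ e` embeds in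
`(Lt / Lsp) ^ e`, and `Lt / Lsp` has dimension `≤ 1`. -/
theorem hpt {ι : Type} [Fintype ι] (a : ι → ℂ) (ha : LinearIndependent Qa a)
    (V : Submodule Qa (ι → ℂ)) (hV : ∀ v ∈ V, ∀ i, v i ∈ Lt) (hs : ∀ v ∈ V, ∑ i, a i * v i = 0) :
    FiniteDimensional Qa V ∧ finrank Qa V ≤ Fintype.card ι * Fintype.card ι := by
  classical
  let e := Fintype.equivFin ι
  let E : (ι → ℂ) ≃ₗ[Qa] (Fin (Fintype.card ι) → ℂ) := LinearEquiv.funCongrLeft Qa ℂ e.symm
  have hE : ∀ v i, E v i = v (e.symm i) := fun v i => rfl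
  have h1 := ZB.kerM (fun i => a (e.symm i)) (ha.comp _ e.symm.injective)
    (V.map (E : (ι → ℂ) →ₗ[Qa] (Fin (Fintype.card ι) → ℂ))) (by
      rintro _ ⟨v, hv, rfl⟩ i
      exact hV v hv _) (by
      rintro _ ⟨v, hv, rfl⟩
      rw [← hs v hv]
      exact Equiv.sum_comp e.symm fun i => a i * v i)
  have e1 : V ≃ₗ[Qa] V.map (E : (ι → ℂ) →ₗ[Qa] (Fin (Fintype.card ι) → ℂ)) :=
    Submodule.equivMapOfInjective _ E.injective V
  obtain ⟨h2, h3⟩ := h1
  exact ⟨LinearEquiv.finiteDimensional e1.symm, by rw [LinearEquiv.finrank_eq e1]; exact h3⟩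

/-- PROOF: a basis `y` of `Y`, `K` = the space of the `v ∈ Lt ^ d` with `∑ y i * v i = 0`, of dimension
`≤ d ^ 2` (`hpt`); `V` = the span of `1` and of the coordinates of a basis of `K`. A relation
`∑ y' j * v' j = 0`, `y' j = ∑ c j i • y i`, gives `u i := ∑ j, c j i • v' j` in `V`, and
`∑ j, φ (v' j) • y' j = ∑ i, φ (u i) • y i`. -/
theorem exists_LD (Y : Submodule Qa ℂ) [FiniteDimensional Qa Y] :
    ∃ V : Submodule Qa ℂ, V ≤ Lt ∧ (1 : ℂ) ∈ V ∧ FiniteDimensional Qa V ∧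
      finrank Qa V ≤ finrank Qa Y ^ 3 + 1 ∧ LD Y V := by
  classical
  obtain ⟨d, hd⟩ : ∃ d : ℕ, finrank Qa Y = d := ⟨_, rfl⟩
  let b := finBasisOfFinrankEq Qa Y hd
  have hb : LinearIndependent Qa fun i => (b i : ℂ) :=
    b.linearIndependent.map' Y.subtype (LinearMap.ker_eq_bot.2 Y.subtype_injective)
  -- the kernel
  obtain ⟨K, hK⟩ : ∃ K : Submodule Qa (Fin d → ℂ),
      ∀ v, v ∈ K ↔ (∀ i, v i ∈ Lt) ∧ ∑ i, (b i : ℂ) * v i = 0 := by
    refine ⟨{ carrier := {v | (∀ i, v i ∈ Lt) ∧ ∑ i, (b i : ℂ) * v i = 0}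
              add_mem' := ?_, zero_mem' := ?_, smul_mem' := ?_ }, fun v => Iff.rfl⟩
    · rintro v w ⟨hv, hv'⟩ ⟨hw, hw'⟩
      refine ⟨fun i => Lt.add_mem (hv i) (hw i), ?_⟩
      simp only [Pi.add_apply, mul_add]
      rw [Finset.sum_add_distrib, hv', hw', add_zero]
    · refine ⟨fun i => Lt.zero_mem, ?_⟩
      simp
    · rintro c v ⟨hv, hv'⟩
      refine ⟨fun i => Lt.smul_mem c (hv i), ?_⟩
      simp only [Pi.smul_apply, mul_smul_comm]
      rw [← Finset.smul_sum, hv', smul_zero]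
  obtain ⟨hKf, hKd⟩ := ZB.kerM (fun i => (b i : ℂ)) hb K (fun v hv => ((hK v).1 hv).1)
    fun v hv => ((hK v).1 hv).2
  -- the coordinates
  let Ψ : (Fin d → K) →ₗ[Qa] ℂ :=
    ∑ j, (LinearMap.proj j).comp (K.subtype.comp (LinearMap.proj j))
  have hΨ : ∀ w : Fin d → K, Ψ w = ∑ j, (w j : Fin d → ℂ) j := by
    intro w
    simp only [Ψ, LinearMap.sum_apply]
    rfl
  refine ⟨Submodule.span Qa {1} ⊔ LinearMap.range Ψ, ?_, ?_, ?_, ?_, ?_⟩
  · refine sup_le ?_ ?_
    · rw [Submodule.span_singleton_le_iff_mem]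
      exact SL.one_mem_Lt
    · rintro _ ⟨w, rfl⟩
      rw [hΨ]
      exact Submodule.sum_mem _ fun j _ => ((hK _).1 (w j).2).1 j
  · exact Submodule.mem_sup_left (Submodule.mem_span_singleton_self 1)
  · infer_instance
  · refine (Submodule.finrank_add_le_finrank_add_finrank _ _).trans ?_
    have h1 : finrank Qa (Submodule.span Qa {(1 : ℂ)}) ≤ 1 := by
      refine (finrank_span_le_card _).trans ?_
      simp
    have h2 : finrank Qa (LinearMap.range Ψ) ≤ d * (d * d) := by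
      refine (LinearMap.finrank_range_le Ψ).trans ?_
      rw [Module.finrank_pi_fintype]
      simp only [Finset.sum_const, Finset.card_univ, Fintype.card_fin, smul_eq_mul]
      exact Nat.mul_le_mul_left _ hKd
    rw [hd]
    calc finrank Qa (Submodule.span Qa {(1 : ℂ)}) + finrank Qa (LinearMap.range Ψ)
        ≤ 1 + d * (d * d) := add_le_add h1 h2
      _ = d ^ 3 + 1 := by ring
  · intro ι _ y v hy hv h0 φ hφ
    have hc : ∀ i, ∃ c : Fin d → Qa, y i = ∑ j, c j • (b j : ℂ) := by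
      intro i
      refine ⟨fun j => b.repr ⟨y i, hy i⟩ j, ?_⟩
      have h1 := congrArg Subtype.val (b.sum_repr ⟨y i, hy i⟩)
      rw [Submodule.coe_sum] at h1
      exact h1.symm
    choose c hc using hc
    obtain ⟨w, hw⟩ : ∃ w : Fin d → ℂ, w = fun j => ∑ i, c i j • v i := ⟨_, rfl⟩
    have hwK : w ∈ K := by
      rw [hK]
      refine ⟨fun j => ?_, ?_⟩
      · rw [hw]
        exact Submodule.sum_mem _ fun i _ => Lt.smul_mem _ (hv i)
      · rw [← h0, hw]
        simp only [Finset.mul_sum]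
        rw [Finset.sum_comm]
        refine Finset.sum_congr rfl fun i _ => ?_
        rw [hc i, Finset.sum_mul]
        refine Finset.sum_congr rfl fun j _ => ?_
        rw [mul_smul_comm, smul_mul_assoc]
    have hφw : ∀ j, φ (w j) = 0 := by
      intro j
      refine hφ _ (Submodule.mem_sup_right ⟨Pi.single j ⟨w, hwK⟩, ?_⟩)
      rw [hΨ, Finset.sum_eq_single j]
      · rw [Pi.single_eq_same]
      · intro j' _ hj'
        rw [Pi.single_eq_of_ne hj']
        rfl
      · intro h1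
        exact absurd (Finset.mem_univ _) h1
    have h1 : ∑ i, φ (v i) • y i = ∑ j, φ (w j) • (b j : ℂ) := by
      have h2 : ∀ j, φ (w j) • (b j : ℂ) = ∑ i, φ (v i) • (c i j • (b j : ℂ)) := by
        intro j
        rw [hw]
        dsimp only
        rw [map_sum, Finset.sum_smul]
        refine Finset.sum_congr rfl fun i _ => ?_
        rw [map_smul, smul_eq_mul, mul_comm, mul_smul]
      simp only [h2]
      rw [Finset.sum_comm]
      refine Finset.sum_congr rfl fun i _ => ?_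
      rw [← Finset.smul_sum, ← hc i]
    rw [h1]
    exact Finset.sum_eq_zero fun j _ => by rw [hφw, zero_smul]

theorem LD.mono {Y Y' V V' : Submodule Qa ℂ} (h : LD Y V) (hY : Y' ≤ Y) (hV : V ≤ V') :
    LD Y' V' := by
  intro ι _ y v hy hv h0 φ hφ
  exact h ι y v (fun i => hY (hy i)) hv h0 φ fun x hx => hφ x (hV hx)

/-- For `z ∉ V` there is a functional which is `0` on `V` and `1` at `z`. -/
theorem exists_functional {V : Submodule Qa ℂ} {z : ℂ} (hz : z ∉ V) :
    ∃ φ : ℂ →ₗ[Qa] Qa, (∀ x ∈ V, φ x = 0) ∧ φ z = 1 := by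
  have h1 : V.mkQ z ≠ 0 := by
    intro h
    exact hz ((Submodule.Quotient.mk_eq_zero V).1 h)
  obtain ⟨ψ, hψ⟩ : ∃ ψ : Module.Dual Qa (ℂ ⧸ V), ψ (V.mkQ z) ≠ 0 := by
    by_contra hcon
    push Not at hcon
    exact h1 ((Module.forall_dual_apply_eq_zero_iff Qa (V.mkQ z)).1 hcon)
  refine ⟨(ψ (V.mkQ z))⁻¹ • ψ.comp V.mkQ, fun x hx => ?_, ?_⟩
  · have h2 : V.mkQ x = 0 := (Submodule.Quotient.mk_eq_zero V).2 hx
    rw [LinearMap.smul_apply, LinearMap.comp_apply, h2, map_zero, smul_zero]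
  · rw [LinearMap.smul_apply, LinearMap.comp_apply, smul_eq_mul, inv_mul_cancel₀ hψ]

/-- Elements of a product of submodules are finite sums. -/
theorem exists_sum_of_mem_mul {A B : Submodule Qa ℂ} {b : ℂ} (hb : b ∈ A * B) :
    ∃ (n : ℕ) (α β : Fin n → ℂ), (∀ i, α i ∈ A) ∧ (∀ i, β i ∈ B) ∧ b = ∑ i, α i * β i := by
  induction hb using Submodule.mul_induction_on' with
  | mem_mul_mem m hm n hn =>
    refine ⟨1, fun _ => m, fun _ => n, fun _ => hm, fun _ => hn, ?_⟩
    rw [Fin.sum_univ_one]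
  | add x _ y _ hx hy =>
    obtain ⟨n, α, β, h1, h2, rfl⟩ := hx
    obtain ⟨n', α', β', h1', h2', rfl⟩ := hy
    refine ⟨n + n', Fin.append α α', Fin.append β β', fun i => ?_, fun i => ?_, ?_⟩
    · refine Fin.addCases (fun i => ?_) (fun i => ?_) i
      · rw [Fin.append_left]
        exact h1 i
      · rw [Fin.append_right]
        exact h1' i
    · refine Fin.addCases (fun i => ?_) (fun i => ?_) i
      · rw [Fin.append_left]
        exact h2 i
      · rw [Fin.append_right]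
        exact h2' i
    · rw [Fin.sum_univ_add]
      congr 1
      · exact Finset.sum_congr rfl fun i _ => by rw [Fin.append_left, Fin.append_left]
      · exact Finset.sum_congr rfl fun i _ => by rw [Fin.append_right, Fin.append_right]

/-- PROOF: `LD` with the functional of `exists_functional`; `b` is a finite sum of `a i * v i`. -/
theorem LD.coeff {Y V A : Submodule Qa ℂ} (h : LD Y V) (h1 : (1 : ℂ) ∈ V) (hA : A ≤ Y) {z a0 a1 b : ℂ}
    (hz : z ∈ Lt) (hzV : z ∉ V) (ha0 : a0 ∈ Y) (ha1 : a1 ∈ Y) (hb : b ∈ A * Lt)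
    (h0 : a0 + a1 * z = b) : a1 ∈ A := by
  obtain ⟨n, α, β, hα, hβ, rfl⟩ := exists_sum_of_mem_mul hb
  obtain ⟨φ, hφV, hφz⟩ := exists_functional hzV
  have h2 := h (Fin 2 ⊕ Fin n) (Sum.elim ![a0, a1] fun i => -α i) (Sum.elim ![1, z] β)
    (by
      rintro (i | i)
      · fin_cases i
        · exact ha0
        · exact ha1
      · exact Y.neg_mem (hA (hα i)))
    (by
      rintro (i | i)
      · fin_cases i
        · exact SL.one_mem_Lt
        · exact hz
      · exact hβ i)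
    (by
      rw [Fintype.sum_sum_type, Fin.sum_univ_two]
      simp only [Sum.elim_inl, Sum.elim_inr, Matrix.cons_val_zero, Matrix.cons_val_one, mul_one,
        neg_mul, Finset.sum_neg_distrib]
      rw [h0, add_neg_cancel]) φ hφV
  rw [Fintype.sum_sum_type, Fin.sum_univ_two] at h2
  simp only [Sum.elim_inl, Sum.elim_inr, Matrix.cons_val_zero, Matrix.cons_val_one,
    hφV 1 h1, zero_smul, hφz, one_smul, zero_add, smul_neg, Finset.sum_neg_distrib] at h2
  rw [add_neg_eq_zero] at h2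
  rw [h2]
  exact Submodule.sum_mem _ fun i _ => A.smul_mem _ (hα i)

/-- PROOF: `LD.coeff` with `A = ⊥`. -/
theorem LD.zero {Y V : Submodule Qa ℂ} (h : LD Y V) (h1 : (1 : ℂ) ∈ V) {z a0 a1 : ℂ}
    (hz : z ∈ Lt) (hzV : z ∉ V) (ha0 : a0 ∈ Y) (ha1 : a1 ∈ Y) (h0 : a0 + a1 * z = 0) :
    a0 = 0 ∧ a1 = 0 := by
  have h2 : a1 ∈ (⊥ : Submodule Qa ℂ) :=
    h.coeff h1 bot_le hz hzV ha0 ha1 (Submodule.zero_mem _) h0
  rw [Submodule.mem_bot] at h2
  rw [h2, zero_mul, add_zero] at h0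
  exact ⟨h0, h2⟩

/-- PROOF: `Gen` gives degree `≤ 1`, then `LD.zero`. -/
theorem eq_zero_of_gen {Y V : Submodule Qa ℂ} {D : ℕ} {z : ℂ} (h : LD Y V) (h1 : (1 : ℂ) ∈ V)
    (hg : Gen Y D z) (hz : z ∈ Lt) (hzV : z ∉ V) (f : Polynomial ℂ) (hf : ∀ i, f.coeff i ∈ Y)
    (hd : f.natDegree ≤ D) (h0 : f.eval z = 0) : f = 0 := by
  have h2 : f.natDegree ≤ 1 := hg f hf hd (by rw [h0]; exact Submodule.zero_mem _)
  obtain ⟨a, b, rfl⟩ := Polynomial.exists_eq_X_add_C_of_natDegree_le_one h2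
  rw [Polynomial.eval_add, Polynomial.eval_mul, Polynomial.eval_C, Polynomial.eval_X,
    Polynomial.eval_C, add_comm] at h0
  have ha : a ∈ Y := by
    have := hf 1
    simpa using this
  have hb : b ∈ Y := by
    have := hf 0
    simpa using this
  obtain ⟨h3, h4⟩ := h.zero h1 hz hzV hb ha h0
  rw [h3, h4, map_zero, zero_mul, add_zero]

theorem Gen.mono {Y Y' : Submodule Qa ℂ} {D D' : ℕ} {z : ℂ} (h : Gen Y D z) (hY : Y' ≤ Y)
    (hD : D' ≤ D) : Gen Y' D' z := by
  intro f hf hd hz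
  exact h f (fun i => hY (hf i)) (hd.trans hD) (mul_le_mul' hY le_rfl hz)

theorem Row.mono {T T' : ℕ} {R : Set ℂ} (h : Row T R) (hT : T' ≤ T) : Row T' R :=
  ⟨h.1, h.2.1, fun V hV hd => h.2.2 V hV (hd.trans_le hT)⟩

end MP60829e.ZL
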