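import Mathlib
import Pool.Agent.Lib.MP_60829e_nt.ZL.Defs
import Pool.Agent.Lib.MP_60829e_nt.ZL.LD

/-! # Theorem ZL, Step 2: the final identity, and the two-space form -/

open Module Finset Polynomial

namespace MP60829e.ZL

open MP60829e.ST (Qa Lt)

theorem final_identity {D : ℕ} {w ξ p0 p1 : ℂ} {F : ℂ[X]} (hF : F.natDegree ≤ D)
    (hx : F.eval (w + ξ) = 0) (T c : ℕ → ℂ)
    (hc : ∀ j, 1 ≤ j → j ≤ D → F.coeff j = T j + c j * ξ)
    (hH : ∑ j ∈ Finset.Icc 1 D, (C (T j) + C (c j) * X) * (C w + X) ^ j = C p0 + C p1 * X) :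
    F = (X - C (w + ξ)) * (C p1 - ∑ j ∈ Finset.Icc 1 D, C (c j) * X ^ j) := by
  -- shift by `w`
  have h1 : ∑ j ∈ Finset.Icc 1 D, (C (T j) + C (c j) * (X - C w)) * X ^ j =
      C p0 + C p1 * (X - C w) := by
    have h2 := congrArg (fun p : ℂ[X] => p.comp (X - C w)) hH
    simp only [Polynomial.add_comp, Polynomial.mul_comp, Polynomial.C_comp, Polynomial.X_comp] at h2
    rw [← h2, Polynomial.sum_comp]
    refine Finset.sum_congr rfl fun j _ => ?_
    simp only [Polynomial.add_comp, Polynomial.mul_comp, Polynomial.C_comp, Polynomial.X_comp,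
      Polynomial.pow_comp]
    ring
  -- the value at `0`
  have h3 : p0 = p1 * w := by
    have h4 := congrArg (Polynomial.eval 0) h1
    rw [Polynomial.eval_finsetSum] at h4
    have h5 : ∑ j ∈ Finset.Icc 1 D, Polynomial.eval 0 ((C (T j) + C (c j) * (X - C w)) * X ^ j) = 0 := by
      refine Finset.sum_eq_zero fun j hj => ?_
      have h6 : j ≠ 0 := by
        have := (Finset.mem_Icc.1 hj).1
        omega
      simp [h6]
    rw [h5] at h4
    simp only [eval_add, eval_C, eval_mul, eval_sub, eval_X] at h4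
    linear_combination (-1 : ℂ) * h4
  have h7 : F = C (F.coeff 0) + ∑ j ∈ Finset.Icc 1 D, C (F.coeff j) * X ^ j := by
    conv_lhs => rw [F.as_sum_range_C_mul_X_pow' (Nat.lt_succ_of_le hF)]
    rw [Finset.range_eq_Ico, Finset.sum_eq_sum_Ico_succ_bot (Nat.succ_pos D)]
    rw [pow_zero, mul_one]
    congr 1
  have h8 : ∑ j ∈ Finset.Icc 1 D, C (F.coeff j) * X ^ j =
      C p1 * X - (X - C (w + ξ)) * ∑ j ∈ Finset.Icc 1 D, C (c j) * X ^ j := by
    have h9 : ∑ j ∈ Finset.Icc 1 D, C (F.coeff j) * X ^ j =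
        ∑ j ∈ Finset.Icc 1 D, (C (T j) + C (c j) * (X - C w)) * X ^ j -
        (X - C (w + ξ)) * ∑ j ∈ Finset.Icc 1 D, C (c j) * X ^ j := by
      rw [Finset.mul_sum, ← Finset.sum_sub_distrib]
      refine Finset.sum_congr rfl fun j hj => ?_
      obtain ⟨hj1, hj2⟩ := Finset.mem_Icc.1 hj
      rw [hc j hj1 hj2]
      simp only [C_add, C_mul]
      ring
    rw [h9, h1, h3]
    simp only [C_mul]
    ring
  have h10 : F.coeff 0 + p1 * (w + ξ) = 0 := by
    rw [h7, h8] at hx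
    simp only [eval_add, eval_C, eval_mul, eval_sub, eval_X] at hx
    linear_combination hx
  have h11 : C (F.coeff 0) = - (C p1 * C (w + ξ)) := by
    rw [← C_mul, ← C_neg]
    congr 1
    linear_combination h10
  conv_lhs => rw [h7, h8, h11]
  ring

theorem two_space {E A V : Submodule Qa ℂ} (hLD : LD E V) (h1V : (1 : ℂ) ∈ V) (hA : A ≤ E)
    {x h : ℂ} {q : Qa} (hq : q ≠ 0) (hx : x ∈ Lt) (hxV : x ∉ V) (G : ℂ[X])
    (hG : ∀ j, G.coeff j ∈ E) (hGh : ∀ j, h * G.coeff j ∈ E)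
    (hF : ∀ j, ((X - C (q • x + h)) * G).coeff j ∈ E ⊔ A * Lt) (j : ℕ) : G.coeff j ∈ A := by
  obtain ⟨e, he, b, hb, heb⟩ := Submodule.mem_sup.1 (hF j)
  obtain ⟨g, hg, hgj⟩ : ∃ g ∈ E, ((X - C (q • x + h)) * G).coeff j =
      g - (q • x + h) * G.coeff j := by
    rw [sub_mul, coeff_sub, coeff_C_mul]
    rcases j with _ | j
    · exact ⟨0, E.zero_mem, by rw [coeff_X_mul_zero]⟩
    · exact ⟨G.coeff j, hG j, by rw [coeff_X_mul]⟩
  have h2 : (g - h * G.coeff j - e) + (-(q • G.coeff j)) * x = b := by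
    have h3 : e + b = g - (q • x + h) * G.coeff j := by rw [heb, hgj]
    have h4 : q • x * G.coeff j = q • G.coeff j * x := by
      rw [smul_mul_assoc, smul_mul_assoc, mul_comm x]
    linear_combination (-1 : ℂ) * h3 + h4
  have h5 := LD.coeff hLD h1V hA hx hxV (E.sub_mem (E.sub_mem hg (hGh j)) he)
    (E.neg_mem (E.smul_mem q (hG j))) hb h2
  have h6 : G.coeff j = (-q⁻¹) • (-(q • G.coeff j)) := by
    rw [neg_smul, smul_neg, neg_neg, smul_smul, inv_mul_cancel₀ hq, one_smul]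
  rw [h6]
  exact A.smul_mem _ h5

end MP60829e.ZL
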