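import Mathlib
import Pool.Agent.Lib.MP_60829e_nt.ZL.Defs

/-! # Theorem ZL: the differences `om` and the spaces `P` -/

open Module Finset

namespace MP60829e.ZL

open MP60829e.ST (Qa Lt)

theorem om_empty (w : ℂ) (δ : ℕ → ℂ) (e : ℕ) : om w δ e ∅ = w ^ e := by
  simp [om]

/-- PROOF: from the definition, `powerset_insert`: the subsets with and without `t`. -/
theorem om_insert_sub (w : ℂ) (δ : ℕ → ℂ) (e : ℕ) {S : Finset ℕ} {t : ℕ} (ht : t ∉ S) :
    om w δ e (insert t S) = om (w + δ t) δ e S - om w δ e S := by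
  have hd : Disjoint S.powerset (S.powerset.image (insert t)) := by
    rw [Finset.disjoint_left]
    intro A hA hA'
    obtain ⟨B, -, hB⟩ := Finset.mem_image.1 hA'
    have h1 : t ∈ A := by rw [← hB]; exact Finset.mem_insert_self _ _
    exact ht (Finset.mem_powerset.1 hA h1)
  have hinj : Set.InjOn (insert t : Finset ℕ → Finset ℕ) S.powerset := by
    intro A hA B hB hAB
    have h1 : t ∉ A := fun h => ht (Finset.mem_powerset.1 hA h)
    have h2 : t ∉ B := fun h => ht (Finset.mem_powerset.1 hB h)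
    rw [← Finset.erase_insert h1, ← Finset.erase_insert h2, hAB]
  unfold om
  rw [Finset.powerset_insert, Finset.sum_union hd, Finset.sum_image hinj,
    Finset.card_insert_of_notMem ht]
  have e1 : ∑ S' ∈ S.powerset, (-1 : ℂ) ^ (S.card + 1 + S'.card) * (w + ∑ t ∈ S', δ t) ^ e =
      - ∑ S' ∈ S.powerset, (-1 : ℂ) ^ (S.card + S'.card) * (w + ∑ t ∈ S', δ t) ^ e := by
    rw [← Finset.sum_neg_distrib]
    refine Finset.sum_congr rfl fun A _ => ?_
    rw [show S.card + 1 + A.card = S.card + A.card + 1 by ring, pow_succ]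
    ring
  have e2 : ∑ S' ∈ S.powerset, (-1 : ℂ) ^ (S.card + 1 + (insert t S').card) *
      (w + ∑ t ∈ insert t S', δ t) ^ e =
      ∑ S' ∈ S.powerset, (-1 : ℂ) ^ (S.card + S'.card) * (w + δ t + ∑ t ∈ S', δ t) ^ e := by
    refine Finset.sum_congr rfl fun A hA => ?_
    have h1 : t ∉ A := fun h => ht (Finset.mem_powerset.1 hA h)
    rw [Finset.card_insert_of_notMem h1, Finset.sum_insert h1,
      show S.card + 1 + (A.card + 1) = S.card + A.card + 2 by ring, pow_add, ← add_assoc]
    norm_num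
  rw [e1, e2]
  ring

/-- PROOF: binomial theorem in the definition (`add_pow`), exchange the sums. -/
theorem om_add (w ξ : ℂ) (δ : ℕ → ℂ) (e : ℕ) (S : Finset ℕ) :
    om (w + ξ) δ e S = ∑ i ∈ range (e + 1), (e.choose i : ℂ) * ξ ^ i * om w δ (e - i) S := by
  unfold om
  simp_rw [Finset.mul_sum]
  rw [Finset.sum_comm]
  refine Finset.sum_congr rfl fun A _ => ?_
  rw [show w + ξ + ∑ t ∈ A, δ t = ξ + (w + ∑ t ∈ A, δ t) by ring, add_pow, Finset.mul_sum]
  refine Finset.sum_congr rfl fun i _ => ?_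
  ring

/-- PROOF: `om_insert_sub` and `om_add`; the term `i = 0` cancels. -/
theorem om_insert (w : ℂ) (δ : ℕ → ℂ) (e : ℕ) {S : Finset ℕ} {t : ℕ} (ht : t ∉ S) :
    om w δ e (insert t S) = ∑ i ∈ Ico 1 (e + 1), (e.choose i : ℂ) * δ t ^ i * om w δ (e - i) S := by
  rw [om_insert_sub w δ e ht, om_add, Finset.range_eq_Ico,
    Finset.sum_eq_sum_Ico_succ_bot (Nat.succ_pos e)]
  simp

/-- PROOF: induction on `S` with `om_insert`. -/
theorem om_eq_zero (w : ℂ) (δ : ℕ → ℂ) {e : ℕ} {S : Finset ℕ} (h : e < S.card) :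
    om w δ e S = 0 := by
  induction S using Finset.induction_on generalizing e with
  | empty => simp at h
  | insert t S ht ih =>
    rw [Finset.card_insert_of_notMem ht] at h
    rw [om_insert w δ e ht]
    refine Finset.sum_eq_zero fun i hi => ?_
    obtain ⟨h1, h2⟩ := Finset.mem_Ico.1 hi
    rw [ih (by omega), mul_zero]

/-- PROOF: induction on `S` with `om_insert`; only `i = 1` survives by `om_eq_zero`. -/
theorem om_card (w : ℂ) (δ : ℕ → ℂ) (S : Finset ℕ) :
    om w δ S.card S = (S.card.factorial : ℂ) * ∏ t ∈ S, δ t := by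
  induction S using Finset.induction_on with
  | empty => simp [om_empty]
  | insert t S ht ih =>
    rw [Finset.card_insert_of_notMem ht, om_insert w δ _ ht, Finset.prod_insert ht,
      Finset.sum_eq_single 1]
    · rw [Nat.choose_one_right, Nat.add_sub_cancel, ih, Nat.factorial_succ]
      push_cast
      ring
    · intro i hi hi1
      obtain ⟨h1, h2⟩ := Finset.mem_Ico.1 hi
      rw [om_eq_zero w δ (by omega), mul_zero]
    · intro h1
      exact absurd (Finset.mem_Ico.2 ⟨le_refl 1, by omega⟩) h1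

/-- PROOF: Moebius inversion; or induction on `q` for all `w`, with `om_insert_sub`:
`∑_{S ⊆ insert t q} om w S = ∑_{S ⊆ q} (om w S + om (w + δ t) S - om w S)`. -/
theorem pow_eq_sum_om (w : ℂ) (δ : ℕ → ℂ) (e : ℕ) (q : Finset ℕ) :
    (w + ∑ t ∈ q, δ t) ^ e = ∑ S ∈ q.powerset, om w δ e S := by
  induction q using Finset.induction_on generalizing w with
  | empty => simp [om_empty]
  | insert t q ht ih =>
    have hd : Disjoint q.powerset (q.powerset.image (insert t)) := by
      rw [Finset.disjoint_left]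
      intro A hA hA'
      obtain ⟨B, -, hB⟩ := Finset.mem_image.1 hA'
      have h1 : t ∈ A := by rw [← hB]; exact Finset.mem_insert_self _ _
      exact ht (Finset.mem_powerset.1 hA h1)
    have hinj : Set.InjOn (insert t : Finset ℕ → Finset ℕ) q.powerset := by
      intro A hA B hB hAB
      have h1 : t ∉ A := fun h => ht (Finset.mem_powerset.1 hA h)
      have h2 : t ∉ B := fun h => ht (Finset.mem_powerset.1 hB h)
      rw [← Finset.erase_insert h1, ← Finset.erase_insert h2, hAB]
    rw [Finset.powerset_insert, Finset.sum_union hd, Finset.sum_image hinj, Finset.sum_insert ht,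
      ← add_assoc, ih (w + δ t), ← Finset.sum_add_distrib]
    refine Finset.sum_congr rfl fun A hA => ?_
    have h1 : t ∉ A := fun h => ht (Finset.mem_powerset.1 hA h)
    rw [om_insert_sub w δ e h1]
    ring

theorem one_mem_P (w : ℂ) (δ : ℕ → ℂ) (m : ℕ) : (1 : ℂ) ∈ P w δ m :=
  Submodule.subset_span (Set.mem_insert _ _)

theorem w_mem_P (w : ℂ) (δ : ℕ → ℂ) (m : ℕ) : w ∈ P w δ m :=
  Submodule.subset_span (Set.mem_insert_of_mem _ (Set.mem_insert _ _))

theorem delta_mem_P (w : ℂ) (δ : ℕ → ℂ) {m t : ℕ} (ht : t < m) : δ t ∈ P w δ m :=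
  Submodule.subset_span (Set.mem_insert_of_mem _ (Set.mem_insert_of_mem _ ⟨t, ht, rfl⟩))

theorem P_mono (w : ℂ) (δ : ℕ → ℂ) {m m' : ℕ} (h : m ≤ m') : P w δ m ≤ P w δ m' := by
  refine Submodule.span_mono (Set.insert_subset_insert (Set.insert_subset_insert
    (Set.image_mono fun t ht => ?_)))
  exact lt_of_lt_of_le ht h

instance P_fd (w : ℂ) (δ : ℕ → ℂ) (m : ℕ) : FiniteDimensional Qa (P w δ m) :=
  FiniteDimensional.span_of_finite Qa
    (((Set.finite_Iio m).image δ).insert w |>.insert 1)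

theorem finrank_P (w : ℂ) (δ : ℕ → ℂ) (m : ℕ) : finrank Qa (P w δ m) ≤ m + 2 := by
  have h1 : P w δ m = Submodule.span Qa (((insert 1 (insert w ((Finset.range m).image δ)) :
      Finset ℂ) : Set ℂ)) := by
    unfold P
    congr 1
    simp [Finset.coe_insert, Finset.coe_image, Finset.coe_range]
  rw [h1]
  refine (finrank_span_finset_le_card _).trans ?_
  refine (Finset.card_insert_le _ _).trans ?_
  have h2 := Finset.card_insert_le w ((Finset.range m).image δ)
  have h3 : ((Finset.range m).image δ).card ≤ m := by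
    refine Finset.card_image_le.trans ?_
    rw [Finset.card_range]
  omega

/-- `P` depends only on `δ 0, …, δ (m - 1)`. -/
theorem P_congr (w : ℂ) {δ δ' : ℕ → ℂ} {m : ℕ} (h : ∀ t < m, δ t = δ' t) : P w δ m = P w δ' m := by
  have h1 : δ '' Set.Iio m = δ' '' Set.Iio m := Set.image_congr fun t ht => h t ht
  unfold P
  rw [h1]

theorem om_congr (w : ℂ) {δ δ' : ℕ → ℂ} (e : ℕ) {S : Finset ℕ} (h : ∀ t ∈ S, δ t = δ' t) :
    om w δ e S = om w δ' e S := by
  unfold om
  refine Finset.sum_congr rfl fun A hA => ?_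
  rw [Finset.sum_congr rfl fun t ht => h t (Finset.mem_powerset.1 hA ht)]

theorem pow_le_pow_of_one_mem {P : Submodule Qa ℂ} (h1 : (1 : ℂ) ∈ P) {i j : ℕ} (h : i ≤ j) :
    P ^ i ≤ P ^ j :=
  pow_le_pow_right₀ (Submodule.one_le.2 h1) h

theorem le_mul_of_one_mem {Y P : Submodule Qa ℂ} (h1 : (1 : ℂ) ∈ P) : Y ≤ Y * P := by
  intro y hy
  have := Submodule.mul_mem_mul hy h1
  rwa [mul_one] at this

theorem one_mem_pow {P : Submodule Qa ℂ} (h1 : (1 : ℂ) ∈ P) (i : ℕ) : (1 : ℂ) ∈ P ^ i :=
  Submodule.one_le.1 (one_le_pow₀ (Submodule.one_le.2 h1))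

instance mul_fd (Y Z : Submodule Qa ℂ) [FiniteDimensional Qa Y] [FiniteDimensional Qa Z] :
    FiniteDimensional Qa (Y * Z : Submodule Qa ℂ) :=
  Module.Finite.of_fg (Submodule.FG.mul (Module.Finite.iff_fg.1 ‹_›) (Module.Finite.iff_fg.1 ‹_›))

theorem finrank_mul_le (Y Z : Submodule Qa ℂ) [FiniteDimensional Qa Y] [FiniteDimensional Qa Z] :
    finrank Qa (Y * Z : Submodule Qa ℂ) ≤ finrank Qa Y * finrank Qa Z := by
  rw [← Submodule.mulMap_range, ← Module.finrank_tensorProduct (R := Qa)]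
  exact LinearMap.finrank_range_le _

instance pow_fd (Y : Submodule Qa ℂ) [FiniteDimensional Qa Y] (d : ℕ) :
    FiniteDimensional Qa (Y ^ d : Submodule Qa ℂ) :=
  Module.Finite.of_fg (Submodule.FG.pow (Module.Finite.iff_fg.1 ‹_›) d)

theorem finrank_pow_le (Y : Submodule Qa ℂ) [FiniteDimensional Qa Y] (d : ℕ) :
    finrank Qa (Y ^ d : Submodule Qa ℂ) ≤ finrank Qa Y ^ d := by
  induction d with
  | zero =>
    rw [pow_zero, pow_zero]
    rw [Submodule.one_eq_span]
    exact (finrank_span_le_card _).trans (by simp)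
  | succ d ih =>
    rw [pow_succ, pow_succ]
    exact (finrank_mul_le _ _).trans (Nat.mul_le_mul_right _ ih)

/-- PROOF: `om w δ e S` is a combination of `e`-th powers of elements of `P w δ m`. -/
theorem om_mem (w : ℂ) (δ : ℕ → ℂ) {m e D : ℕ} {S : Finset ℕ} (hS : S ∈ (range m).powerset)
    (he : e ≤ D) : om w δ e S ∈ P w δ m ^ D := by
  refine pow_le_pow_of_one_mem (one_mem_P w δ m) he ?_
  unfold om
  refine Submodule.sum_mem _ fun A hA => ?_
  have h1 : (w + ∑ t ∈ A, δ t) ∈ P w δ m := by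
    refine Submodule.add_mem _ (w_mem_P w δ m) (Submodule.sum_mem _ fun t ht => ?_)
    exact delta_mem_P w δ (Finset.mem_range.1
      (Finset.mem_powerset.1 hS (Finset.mem_powerset.1 hA ht)))
  have h2 := Submodule.pow_mem_pow (P w δ m) h1 e
  rcases neg_one_pow_eq_or ℂ (S.card + A.card) with h3 | h3
  · rw [h3, one_mul]; exact h2
  · rw [h3, neg_one_mul]; exact Submodule.neg_mem _ h2

/-- Products of at most `D` of the `δ t`. -/
theorem prod_mem (w : ℂ) (δ : ℕ → ℂ) {m D : ℕ} {S : Finset ℕ} (hS : S ∈ (range m).powerset)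
    (hD : S.card ≤ D) : ∏ t ∈ S, δ t ∈ P w δ m ^ D := by
  refine pow_le_pow_of_one_mem (one_mem_P w δ m) hD ?_
  rw [Finset.mem_powerset] at hS
  clear hD
  induction S using Finset.induction_on with
  | empty => simp [Submodule.one_eq_span]
  | insert t S ht ih =>
    rw [Finset.prod_insert ht, Finset.card_insert_of_notMem ht, pow_succ, mul_comm (δ t)]
    refine Submodule.mul_mem_mul (ih fun x hx => hS (Finset.mem_insert_of_mem hx)) ?_
    exact delta_mem_P w δ (Finset.mem_range.1 (hS (Finset.mem_insert_self _ _)))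

end MP60829e.ZL
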