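import Mathlib
import Pool.Agent.Lib.MP_60829e_nt.ZL.LD
import Pool.Agent.Lib.MP_60829e_nt.ZL.Om

/-! # Theorem ZL: the chain of spaces -/

open Module Finset

namespace MP60829e.ZL

open MP60829e.ST (Qa Lt)

private theorem chain_step (Y V : Submodule Qa ℂ) [FiniteDimensional Qa Y]
    (hV : V ≤ Lt ∧ (1 : ℂ) ∈ V ∧ FiniteDimensional Qa V) :
    ∃ V' : Submodule Qa ℂ, (V' ≤ Lt ∧ (1 : ℂ) ∈ V' ∧ FiniteDimensional Qa V') ∧ V ≤ V' ∧
      LD (Y * V) V' ∧ finrank Qa V' ≤ finrank Qa V + ((finrank Qa Y * finrank Qa V) ^ 3 + 1) := by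
  obtain ⟨h1, h2, h3⟩ := hV
  have : FiniteDimensional Qa V := h3
  have : FiniteDimensional Qa (Y * V : Submodule Qa ℂ) := inferInstance
  obtain ⟨W, hW1, hW2, hW3, hW4, hW5⟩ := exists_LD (Y * V)
  have : FiniteDimensional Qa W := hW3
  refine ⟨V ⊔ W, ⟨sup_le h1 hW1, Submodule.mem_sup_left h2, inferInstance⟩, le_sup_left,
    hW5.mono le_rfl le_sup_right, ?_⟩
  refine (Submodule.finrank_add_le_finrank_add_finrank V W).trans ?_
  refine Nat.add_le_add_left (hW4.trans ?_) _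
  exact Nat.add_le_add_right (Nat.pow_le_pow_left (finrank_mul_le Y V) 3) 1

/-- The bound for the dimensions of the chain. -/
private def chainN (κ : ℕ) : ℕ → ℕ
  | 0 => 1
  | i + 1 => chainN κ i + ((κ * chainN κ i) ^ 3 + 1)

private theorem chainN_mono (κ : ℕ) : Monotone (chainN κ) :=
  monotone_nat_of_le_succ fun i => by
    rw [chainN]
    exact Nat.le_add_right _ _

/-- The chain `V 0 = Qa`, `V (i + 1) = V i ⊔ (space of exists_LD for Y * V i)`: dimensions bounded in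
terms of `finrank Y` and `i`. -/
theorem exists_chain (κ c : ℕ) : ∃ N : ℕ, ∀ Y : Submodule Qa ℂ, FiniteDimensional Qa Y →
    finrank Qa Y ≤ κ → ∃ V : ℕ → Submodule Qa ℂ, (∀ i, (1 : ℂ) ∈ V i) ∧ Monotone V ∧
      (∀ i, V i ≤ Lt) ∧ (∀ i, LD (Y * V i) (V (i + 1))) ∧ (∀ i, FiniteDimensional Qa (V i)) ∧
      ∀ i ≤ c + 1, finrank Qa (V i) ≤ N := by
  refine ⟨chainN κ (c + 1), fun Y hY hκ => ?_⟩
  have : FiniteDimensional Qa Y := hY
  choose f hf1 hf2 hf3 hf4 using fun V : {V : Submodule Qa ℂ // V ≤ Lt ∧ (1 : ℂ) ∈ V ∧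
    FiniteDimensional Qa V} => chain_step Y V.1 V.2
  let V0 : {V : Submodule Qa ℂ // V ≤ Lt ∧ (1 : ℂ) ∈ V ∧ FiniteDimensional Qa V} :=
    ⟨Submodule.span Qa {1}, by
      rw [Submodule.span_singleton_le_iff_mem]
      exact SL.one_mem_Lt, Submodule.mem_span_singleton_self 1, inferInstance⟩
  let C : ℕ → {V : Submodule Qa ℂ // V ≤ Lt ∧ (1 : ℂ) ∈ V ∧ FiniteDimensional Qa V} := fun i =>
    Nat.rec V0 (fun _ V => ⟨f V, hf1 V⟩) i
  have hC : ∀ i, (C (i + 1)).1 = f (C i) := fun i => rfl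
  refine ⟨fun i => (C i).1, fun i => (C i).2.2.1, monotone_nat_of_le_succ fun i => ?_,
    fun i => (C i).2.1, fun i => ?_, fun i => (C i).2.2.2, ?_⟩
  · rw [hC]
    exact hf2 _
  · show LD (Y * (C i).1) (C (i + 1)).1
    rw [hC]
    exact hf3 _
  · have hN : ∀ i, finrank Qa (C i).1 ≤ chainN κ i := by
      intro i
      induction i with
      | zero =>
        refine (finrank_span_le_card _).trans ?_
        simp [chainN]
      | succ i ih =>
        rw [hC]
        refine (hf4 _).trans ?_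
        rw [chainN]
        refine Nat.add_le_add ih (Nat.add_le_add_right (Nat.pow_le_pow_left ?_ 3) 1)
        exact Nat.mul_le_mul hκ ih
    exact fun i hi => (hN i).trans (chainN_mono κ hi)

end MP60829e.ZL
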