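import Mathlib
import Pool.Agent.Lib.MP_60829e_nt.ZL.LD
import Pool.Agent.Lib.MP_60829e_nt.ZL.Om

/-! # Theorem ZL: independence of the differences `om` over `A` -/

open Module Finset

namespace MP60829e.ZL

open MP60829e.ST (Qa Lt)

/-- The coefficient form of `eq_zero_of_gen`. -/
theorem coeff_zero_of_gen {Y V : Submodule Qa ℂ} {D : ℕ} {z : ℂ} (h : LD Y V) (h1 : (1 : ℂ) ∈ V)
    (hg : Gen Y D z) (hz : z ∈ Lt) (hzV : z ∉ V) (c : ℕ → ℂ) (hc : ∀ i, c i ∈ Y)
    (h0 : ∑ i ∈ range (D + 1), c i * z ^ i = 0) : ∀ i ≤ D, c i = 0 := by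
  obtain ⟨f, hf⟩ : ∃ f : Polynomial ℂ,
      f = ∑ i ∈ range (D + 1), Polynomial.C (c i) * Polynomial.X ^ i := ⟨_, rfl⟩
  have hcf : ∀ n, f.coeff n = if n < D + 1 then c n else 0 := by
    intro n
    rw [hf, Polynomial.finset_sum_coeff]
    simp only [Polynomial.coeff_C_mul_X_pow]
    rw [Finset.sum_ite_eq]
    simp only [Finset.mem_range]
  have h2 : f = 0 := by
    refine eq_zero_of_gen h h1 hg hz hzV f (fun i => ?_) ?_ ?_
    · rw [hcf]
      split_ifs
      · exact hc i
      · exact Y.zero_mem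
    · rw [hf]
      refine Polynomial.natDegree_sum_le_of_forall_le _ _ fun i hi => ?_
      refine (Polynomial.natDegree_C_mul_X_pow_le _ _).trans ?_
      have := Finset.mem_range.1 hi
      omega
    · rw [hf, Polynomial.eval_finset_sum, ← h0]
      refine Finset.sum_congr rfl fun i _ => ?_
      rw [Polynomial.eval_mul, Polynomial.eval_C, Polynomial.eval_pow, Polynomial.eval_X]
  intro i hi
  have h3 := hcf i
  rw [h2, Polynomial.coeff_zero, if_pos (Nat.lt_succ_of_le hi)] at h3
  exact h3.symm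

theorem natCast_mul_mem {A : Submodule Qa ℂ} {x : ℂ} (hx : x ∈ A) (n : ℕ) : (n : ℂ) * x ∈ A := by
  rw [← nsmul_eq_mul]
  exact nsmul_mem hx n

/-- `om_add` with a sum over a fixed range. -/
theorem om_add_range (w ξ : ℂ) (δ : ℕ → ℂ) {e D : ℕ} (he : e ≤ D) (S : Finset ℕ) :
    om (w + ξ) δ e S =
      ∑ i ∈ range (D + 1), (e.choose i : ℂ) * ξ ^ i * om w δ (e - i) S := by
  rw [om_add]
  refine Finset.sum_subset (Finset.range_mono (by omega)) fun i _ hi => ?_
  rw [Finset.mem_range, not_lt] at hi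
  rw [Nat.choose_eq_zero_of_lt (by omega), Nat.cast_zero, zero_mul, zero_mul]

/-- `om_insert` with a sum over a fixed range. -/
theorem om_insert_range (w : ℂ) (δ : ℕ → ℂ) {e D : ℕ} (he : e ≤ D) {S : Finset ℕ} {t : ℕ}
    (ht : t ∉ S) :
    om w δ e (insert t S) =
      ∑ i ∈ Ico 1 (D + 1), (e.choose i : ℂ) * δ t ^ i * om w δ (e - i) S := by
  rw [om_insert w δ e ht]
  refine Finset.sum_subset (Finset.Ico_subset_Ico le_rfl (by omega)) fun i hi hi' => ?_
  have h1 := (Finset.mem_Ico.1 hi).1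
  have h2 : e < i := by
    by_contra hcon
    exact hi' (Finset.mem_Ico.2 ⟨h1, by omega⟩)
  rw [Nat.choose_eq_zero_of_lt h2, Nat.cast_zero, zero_mul, zero_mul]

/-- PROOF: `om w δ j ∅ = w ^ j`: the polynomial `∑ b j ∅ X ^ j` vanishes at `w`: `eq_zero_of_gen`. -/
theorem FF.zero {A V : Submodule Qa ℂ} {w : ℂ} {D : ℕ} (δ : ℕ → ℂ) (hLD : LD A V)
    (h1 : (1 : ℂ) ∈ V) (hg : Gen A D w) (hw : w ∈ Lt) (hwV : w ∉ V) : FF A w δ 0 D := by
  intro b hb h0 j hj S hS _
  have hS' : S = ∅ := by simpa using hS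
  rw [hS']
  refine coeff_zero_of_gen hLD h1 hg hw hwV (fun j => b j ∅) (fun i => hb i ∅) ?_ j hj
  rw [← h0]
  refine Finset.sum_congr rfl fun i _ => ?_
  rw [Finset.range_zero, Finset.powerset_empty, Finset.sum_singleton, om_empty]

/-- PROOF: split `S = S'` and `S = insert m S'`, expand with `om_insert`: a polynomial of degree `≤ D`
in `δ m` with coefficients in `A * P w δ m ^ D` (`om_mem`), which is `0` by `eq_zero_of_gen`. Its
constant coefficient gives `b j S' = 0` (`FF A w δ m D`), its coefficient of degree `1` is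
`∑ j ≥ 1, ∑ S', j * b j (insert m S') * om w δ (j - 1) S'`: again `FF A w δ m D`, applied to
`b' j S' = (j + 1) * b (j + 1) (insert m S')` for `j < D`, `b' D = 0`. -/
theorem FF.succ {A V : Submodule Qa ℂ} {w : ℂ} {δ : ℕ → ℂ} {m D : ℕ} (h : FF A w δ m D)
    (hLD : LD (A * P w δ m ^ D) V) (h1 : (1 : ℂ) ∈ V) (hg : Gen (A * P w δ m ^ D) D (δ m))
    (hδ : δ m ∈ Lt) (hδV : δ m ∉ V) : FF A w δ (m + 1) D := by
  intro b hb h0
  have hd : Disjoint (range m).powerset ((range m).powerset.image (insert m)) := by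
    rw [Finset.disjoint_left]
    intro X hX hX'
    obtain ⟨B, -, hB⟩ := Finset.mem_image.1 hX'
    have h1 : m ∈ X := by rw [← hB]; exact Finset.mem_insert_self _ _
    exact Finset.notMem_range_self (Finset.mem_powerset.1 hX h1)
  have hinj : Set.InjOn (insert m : Finset ℕ → Finset ℕ) (range m).powerset := by
    intro X hX B hB hAB
    have h1 : m ∉ X := fun h => Finset.notMem_range_self (Finset.mem_powerset.1 hX h)
    have h2 : m ∉ B := fun h => Finset.notMem_range_self (Finset.mem_powerset.1 hB h)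
    rw [← Finset.erase_insert h1, ← Finset.erase_insert h2, hAB]
  have hnm : ∀ S ∈ (range m).powerset, m ∉ S := fun S hS h =>
    Finset.notMem_range_self (Finset.mem_powerset.1 hS h)
  -- the coefficients of the polynomial in `δ m`
  obtain ⟨c, hcdef⟩ : ∃ c : ℕ → ℂ, c = fun i => ∑ j ∈ range (D + 1), ∑ S ∈ (range m).powerset,
      (if i = 0 then b j S * om w δ j S
        else b j (insert m S) * ((j.choose i : ℂ) * om w δ (j - i) S)) := ⟨_, rfl⟩
  have hc : ∀ i, c i ∈ A * P w δ m ^ D := by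
    intro i
    rw [hcdef]
    refine Submodule.sum_mem _ fun j hj => Submodule.sum_mem _ fun S hS => ?_
    have hj' : j ≤ D := by
      have := Finset.mem_range.1 hj
      omega
    split_ifs
    · exact Submodule.mul_mem_mul (hb _ _) (om_mem w δ hS hj')
    · exact Submodule.mul_mem_mul (hb _ _)
        (natCast_mul_mem (om_mem w δ hS (by omega)) _)
  have h2 : ∑ i ∈ range (D + 1), c i * δ m ^ i = 0 := by
    rw [← h0, hcdef]
    simp only [Finset.sum_mul]
    rw [Finset.sum_comm]
    refine Finset.sum_congr rfl fun j hj => ?_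
    have hj' : j ≤ D := by
      have := Finset.mem_range.1 hj
      omega
    rw [Finset.sum_comm, Finset.range_add_one (n := m), Finset.powerset_insert,
      Finset.sum_union hd, Finset.sum_image hinj, ← Finset.sum_add_distrib]
    refine Finset.sum_congr rfl fun S hS => ?_
    rw [Finset.range_eq_Ico, Finset.sum_eq_sum_Ico_succ_bot (Nat.succ_pos D), if_pos rfl, pow_zero,
      mul_one, om_insert_range w δ hj' (hnm S hS), Finset.mul_sum]
    congr 1
    refine Finset.sum_congr rfl fun i hi => ?_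
    have h3 : i ≠ 0 := by
      have := (Finset.mem_Ico.1 hi).1
      omega
    rw [if_neg h3]
    ring
  have h3 := coeff_zero_of_gen hLD h1 hg hδ hδV c hc h2
  -- the constant coefficient
  have h4 : ∀ j ≤ D, ∀ S ∈ (range m).powerset, S.card ≤ j → b j S = 0 := by
    refine h b hb ?_
    have h5 := h3 0 (Nat.zero_le _)
    rw [hcdef] at h5
    simpa using h5
  -- the coefficient of degree `1`
  have h5 : ∀ j < D, ∀ S ∈ (range m).powerset, S.card ≤ j → b (j + 1) (insert m S) = 0 := by
    intro j hj S hS hSj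
    obtain ⟨b', hb'⟩ : ∃ b' : ℕ → Finset ℕ → ℂ, b' = fun j S =>
        if j < D then ((j + 1 : ℕ) : ℂ) * b (j + 1) (insert m S) else 0 := ⟨_, rfl⟩
    have h6 := h b' (by
      intro j S
      rw [hb']
      dsimp only
      split_ifs
      · exact natCast_mul_mem (hb _ _) _
      · exact A.zero_mem) (by
      have h7 := h3 1 (by omega)
      rw [hcdef] at h7
      simp only [one_ne_zero, if_false, Nat.choose_one_right] at h7
      rw [Finset.sum_range_succ] 
      rw [Finset.sum_range_succ'] at h7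
      have h8 : ∑ S ∈ (range m).powerset, b' D S * om w δ D S = 0 := by
        refine Finset.sum_eq_zero fun S _ => ?_
        rw [hb']
        dsimp only
        rw [if_neg (lt_irrefl D), zero_mul]
      have h9 : ∑ S ∈ (range m).powerset,
          b 0 (insert m S) * (((0 : ℕ) : ℂ) * om w δ (0 - 1) S) = 0 := by
        refine Finset.sum_eq_zero fun S _ => ?_
        rw [Nat.cast_zero, zero_mul, mul_zero]
      rw [h8, add_zero]
      rw [h9, add_zero] at h7
      rw [← h7]
      refine Finset.sum_congr rfl fun i hi => Finset.sum_congr rfl fun S _ => ?_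
      rw [hb']
      dsimp only
      rw [if_pos (Finset.mem_range.1 hi), Nat.add_sub_cancel]
      ring) j hj.le S hS hSj
    rw [hb'] at h6
    dsimp only at h6
    rw [if_pos hj, mul_eq_zero] at h6
    rcases h6 with h6 | h6
    · exact absurd h6 (Nat.cast_ne_zero.2 (Nat.succ_ne_zero j))
    · exact h6
  intro j hj S hS hSj
  rw [Finset.range_add_one (n := m), Finset.powerset_insert, Finset.mem_union,
    Finset.mem_image] at hS
  rcases hS with hS | ⟨S', hS', rfl⟩
  · exact h4 j hj S hS hSj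
  · rw [Finset.card_insert_of_notMem (hnm S' hS')] at hSj
    obtain ⟨j, rfl⟩ : ∃ j', j = j' + 1 := ⟨j - 1, by omega⟩
    exact h5 j (by omega) S' hS' (by omega)

/-- PROOF: expand with `om_add`: a polynomial of degree `≤ D` in `ξ` with coefficients in
`A * P w δ m ^ D`; it is `0` by `eq_zero_of_gen`; its constant coefficient is the relation for `w`. -/
theorem FF.add {A V : Submodule Qa ℂ} {w ξ : ℂ} {δ : ℕ → ℂ} {m D : ℕ} (h : FF A w δ m D)
    (hLD : LD (A * P w δ m ^ D) V) (h1 : (1 : ℂ) ∈ V) (hg : Gen (A * P w δ m ^ D) D ξ)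
    (hξ : ξ ∈ Lt) (hξV : ξ ∉ V) : FF A (w + ξ) δ m D := by
  intro b hb h0
  refine h b hb ?_
  obtain ⟨c, hcdef⟩ : ∃ c : ℕ → ℂ, c = fun i => ∑ j ∈ range (D + 1), ∑ S ∈ (range m).powerset,
      b j S * ((j.choose i : ℂ) * om w δ (j - i) S) := ⟨_, rfl⟩
  have hc : ∀ i, c i ∈ A * P w δ m ^ D := by
    intro i
    rw [hcdef]
    refine Submodule.sum_mem _ fun j hj => Submodule.sum_mem _ fun S hS => ?_
    have hj' : j ≤ D := by
      have := Finset.mem_range.1 hj
      omega
    exact Submodule.mul_mem_mul (hb _ _) (natCast_mul_mem (om_mem w δ hS (by omega)) _)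
  have h2 : ∑ i ∈ range (D + 1), c i * ξ ^ i = 0 := by
    rw [← h0, hcdef]
    simp only [Finset.sum_mul]
    rw [Finset.sum_comm]
    refine Finset.sum_congr rfl fun j hj => ?_
    have hj' : j ≤ D := by
      have := Finset.mem_range.1 hj
      omega
    rw [Finset.sum_comm]
    refine Finset.sum_congr rfl fun S hS => ?_
    rw [om_add_range w ξ δ hj' S, Finset.mul_sum]
    refine Finset.sum_congr rfl fun i _ => ?_
    ring
  have h3 := coeff_zero_of_gen hLD h1 hg hξ hξV c hc h2 0 (Nat.zero_le _)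
  rw [hcdef] at h3
  simpa using h3

theorem FF.congr {A : Submodule Qa ℂ} {w : ℂ} {δ δ' : ℕ → ℂ} {m D : ℕ} (h : FF A w δ m D)
    (hδ : ∀ t < m, δ t = δ' t) : FF A w δ' m D := by
  intro b hb h0
  refine h b hb ?_
  rw [← h0]
  refine Finset.sum_congr rfl fun j _ => Finset.sum_congr rfl fun S hS => ?_
  rw [om_congr w j fun t ht => hδ t (Finset.mem_range.1 (Finset.mem_powerset.1 hS ht))]

end MP60829e.ZL
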