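import Mathlib
import Pool.Agent.Lib.MP_60829e_nt.ZL.Defs

/-! # Theorem ZL: spaces of functions on a cube -/

open Module Finset

namespace MP60829e.ZL

open MP60829e.ST (Qa Lt)

/-- The cube: the subsets of `{0, …, m - 1}`. -/
abbrev Cb (m : ℕ) : Type := ((range m).powerset : Finset (Finset ℕ))

/-- The function `q ↦ 1` if `S ⊆ q`, else `0`. -/
noncomputable def zt (m : ℕ) (S : Finset ℕ) : Cb m → Qa := fun q => if S ⊆ q.1 then 1 else 0

theorem zt_mul (m : ℕ) (S S' : Finset ℕ) (q : Cb m) : zt m S q * zt m S' q = zt m (S ∪ S') q := by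
  unfold zt
  by_cases h : S ⊆ q.1
  · by_cases h' : S' ⊆ q.1
    · rw [if_pos h, if_pos h', if_pos (Finset.union_subset h h'), mul_one]
    · rw [if_neg h', if_neg fun h2 => h' (Finset.union_subset_right h2), mul_zero]
  · rw [if_neg h, if_neg fun h2 => h (Finset.union_subset_left h2), zero_mul]

/-- PROOF: if `h ∉ W` there is a functional on `Q → Qa` which is `0` on `W` and not at `h`
(`Submodule.exists_dual_map_eq_bot_of_notMem` or so); functionals on `Q → Qa` are `g ↦ ∑ a q * g q`. -/
theorem mem_of_ann {Q : Type} [Fintype Q] (W : Submodule Qa (Q → Qa)) (h : Q → Qa)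
    (H : ∀ a : Q → Qa, (∀ g ∈ W, ∑ q, a q * g q = 0) → ∑ q, a q * h q = 0) : h ∈ W := by
  classical
  by_contra hh
  have h1 : W.mkQ h ≠ 0 := by
    intro h0
    exact hh ((Submodule.Quotient.mk_eq_zero W).1 h0)
  obtain ⟨ψ, hψ⟩ : ∃ ψ : Module.Dual Qa ((Q → Qa) ⧸ W), ψ (W.mkQ h) ≠ 0 := by
    by_contra hcon
    push Not at hcon
    exact h1 ((Module.forall_dual_apply_eq_zero_iff Qa (W.mkQ h)).1 hcon)
  have h2 : ∀ g : Q → Qa, ∑ q, (ψ.comp W.mkQ) (Pi.single q 1) * g q = (ψ.comp W.mkQ) g := by
    intro g
    conv_rhs => rw [LinearMap.pi_apply_eq_sum_univ (ψ.comp W.mkQ) g]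
    refine Finset.sum_congr rfl fun q _ => ?_
    rw [smul_eq_mul, mul_comm]
    congr 2
    funext j
    rw [Pi.single_apply]
    simp only [eq_comm]
  apply hψ
  have h3 := H (fun q => (ψ.comp W.mkQ) (Pi.single q 1)) fun g hg => by
    rw [h2, LinearMap.comp_apply]
    have h4 : W.mkQ g = 0 := (Submodule.Quotient.mk_eq_zero W).2 hg
    rw [h4, map_zero]
  rw [h2] at h3
  exact h3

/-- PROOF: `Qa` is infinite; a space is not a finite union of proper subspaces
(`Submodule.iUnion_ssubset_of_forall_ne_top_of_card_lt`, or `Subspace.biUnion_ne_univ_of_top_notMem`),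
applied in `W` to the kernels of the evaluations at `q`. -/
theorem exists_generic {Q : Type} [Fintype Q] (W : Submodule Qa (Q → Qa))
    (H : ∀ q, ∃ h ∈ W, h q ≠ 0) : ∃ h ∈ W, ∀ q, h q ≠ 0 := by
  classical
  have key : ∀ s : Finset Q, ∃ h ∈ W, ∀ q ∈ s, h q ≠ 0 := by
    intro s
    induction s using Finset.induction_on with
    | empty => exact ⟨0, W.zero_mem, fun q hq => absurd hq (Finset.notMem_empty q)⟩
    | insert q s hq ih =>
      obtain ⟨h, hW, hs⟩ := ih
      by_cases h0 : h q = 0
      · obtain ⟨g, hg, hgq⟩ := H q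
        obtain ⟨c, hc⟩ := Infinite.exists_notMem_finset
          (insert (0 : Qa) (s.image fun q' => -(h q' / g q')))
        rw [Finset.mem_insert, not_or, Finset.mem_image] at hc
        refine ⟨h + c • g, W.add_mem hW (W.smul_mem c hg), fun q' hq' => ?_⟩
        rw [Pi.add_apply, Pi.smul_apply, smul_eq_mul]
        rcases Finset.mem_insert.1 hq' with h1 | h1
        · rw [h1, h0, zero_add]
          exact mul_ne_zero hc.1 hgq
        · intro h2
          by_cases h3 : g q' = 0
          · rw [h3, mul_zero, add_zero] at h2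
            exact hs q' h1 h2
          · apply hc.2
            refine ⟨q', h1, ?_⟩
            have h4 : h q' = -(c * g q') := eq_neg_of_add_eq_zero_left h2
            rw [h4, neg_div, mul_div_assoc, div_self h3, mul_one, neg_neg]
      · refine ⟨h, hW, fun q' hq' => ?_⟩
        rcases Finset.mem_insert.1 hq' with h1 | h1
        · rw [h1]
          exact h0
        · exact hs q' h1
  obtain ⟨h, hW, hh⟩ := key Finset.univ
  exact ⟨h, hW, fun q => hh q (Finset.mem_univ q)⟩

/-- PROOF: the functions `zt m S`, `S ⊆ {0, …, m - 1}`, are linearly independent (evaluate at `q = S`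
for a minimal `S` with nonzero coefficient), hence so are the `h * zt m S`. -/
theorem card_le_of_zeta {m : ℕ} (W : Submodule Qa (Cb m → Qa)) (h : Cb m → Qa) (hh : ∀ q, h q ≠ 0)
    (X : Finset (Finset ℕ)) (hX : X ⊆ (range m).powerset)
    (H : ∀ S ∈ X, (fun q => h q * zt m S q) ∈ W) : X.card ≤ finrank Qa W := by
  classical
  have hli : LinearIndependent Qa fun S : {S // S ∈ X} =>
      (⟨fun q => h q * zt m S.1 q, H S.1 S.2⟩ : W) := by
    rw [Fintype.linearIndependent_iff]
    intro c hc
    have h1 : ∀ q : Cb m, ∑ S : {S // S ∈ X}, c S * zt m S.1 q = 0 := by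
      intro q
      have h2 := congrFun (congrArg Subtype.val hc) q
      rw [Submodule.coe_sum, Finset.sum_apply] at h2
      have h3 : h q * ∑ S : {S // S ∈ X}, c S * zt m S.1 q = 0 := by
        rw [Finset.mul_sum]
        refine Eq.trans (Finset.sum_congr rfl fun S _ => ?_) h2
        show h q * (c S * zt m S.1 q) = c S * (h q * zt m S.1 q)
        ring
      exact (mul_eq_zero.1 h3).resolve_left (hh q)
    have h2 : ∀ (n : ℕ) (S : {S // S ∈ X}), S.1.card = n → c S = 0 := by
      intro n
      induction n using Nat.strong_induction_on with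
      | _ n ih =>
        intro S hS
        have h3 := h1 ⟨S.1, hX S.2⟩
        rw [Finset.sum_eq_single S] at h3
        · unfold zt at h3
          rw [if_pos (Finset.Subset.refl _), mul_one] at h3
          exact h3
        · intro S' _ hne
          unfold zt
          by_cases h4 : S'.1 ⊆ S.1
          · have h5 : S'.1 ⊂ S.1 := by
              refine h4.ssubset_of_ne fun h6 => hne (Subtype.ext h6)
            rw [ih _ (by rw [← hS]; exact Finset.card_lt_card h5) S' rfl, zero_mul]
          · rw [if_neg h4, mul_zero]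
        · intro h4
          exact absurd (Finset.mem_univ _) h4
    exact fun S => h2 _ S rfl
  have h1 := hli.fintype_card_le_finrank
  rwa [Fintype.card_coe] at h1

/-- The number of subsets with at most `D` elements. -/
theorem card_small_le (m D : ℕ) :
    ((range m).powerset.filter (fun S => S.card ≤ D)).card ≤ (m + 1) ^ D := by
  classical
  induction D with
  | zero =>
    rw [pow_zero, Finset.card_le_one]
    intro a ha b hb
    have h1 := (Finset.mem_filter.1 ha).2
    have h2 := (Finset.mem_filter.1 hb).2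
    rw [Finset.card_eq_zero.1 (Nat.le_zero.1 h1), Finset.card_eq_zero.1 (Nat.le_zero.1 h2)]
  | succ D ih =>
    have h1 : (range m).powerset.filter (fun S => S.card ≤ D + 1) ⊆
        (range (m + 1) ×ˢ (range m).powerset.filter (fun S => S.card ≤ D)).image
          (fun p => if p.1 < m then insert p.1 p.2 else p.2) := by
      intro S hS
      rw [Finset.mem_filter, Finset.mem_powerset] at hS
      rw [Finset.mem_image]
      rcases Finset.eq_empty_or_nonempty S with h0 | ⟨t, ht⟩
      · refine ⟨(m, ∅), ?_, ?_⟩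
        · rw [Finset.mem_product, Finset.mem_range, Finset.mem_filter, Finset.mem_powerset]
          refine ⟨Nat.lt_succ_self m, Finset.empty_subset _, ?_⟩
          simp
        · rw [if_neg (lt_irrefl m), h0]
      · refine ⟨(t, S.erase t), ?_, ?_⟩
        · rw [Finset.mem_product, Finset.mem_range, Finset.mem_filter, Finset.mem_powerset]
          refine ⟨(Finset.mem_range.1 (hS.1 ht)).trans (Nat.lt_succ_self m),
            (Finset.erase_subset _ _).trans hS.1, ?_⟩
          rw [Finset.card_erase_of_mem ht]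
          omega
        · rw [if_pos (Finset.mem_range.1 (hS.1 ht))]
          exact Finset.insert_erase ht
    calc ((range m).powerset.filter (fun S => S.card ≤ D + 1)).card
        ≤ (range (m + 1) ×ˢ (range m).powerset.filter (fun S => S.card ≤ D)).card :=
          (Finset.card_le_card h1).trans Finset.card_image_le
      _ = (m + 1) * ((range m).powerset.filter (fun S => S.card ≤ D)).card := by
          rw [Finset.card_product, Finset.card_range]
      _ ≤ (m + 1) * (m + 1) ^ D := Nat.mul_le_mul_left _ ih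
      _ = (m + 1) ^ (D + 1) := (pow_succ' _ _).symm

/-- PROOF: `∑ i ≤ c` of `powersetCard i`. -/
theorem card_small_eq (m c : ℕ) :
    ((range m).powerset.filter (fun S => S.card ≤ c)).card = ∑ i ∈ range (c + 1), m.choose i := by
  classical
  rw [Finset.card_eq_sum_card_fiberwise (f := fun S : Finset ℕ => S.card) (t := range (c + 1))]
  · refine Finset.sum_congr rfl fun i hi => ?_
    have h1 : ((range m).powerset.filter (fun S => S.card ≤ c)).filter (fun S => S.card = i) =
        (range m).powersetCard i := by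
      ext S
      rw [Finset.mem_filter, Finset.mem_filter, Finset.mem_powerset, Finset.mem_powersetCard]
      have := Finset.mem_range.1 hi
      constructor
      · rintro ⟨⟨h1, -⟩, h2⟩
        exact ⟨h1, h2⟩
      · rintro ⟨h1, h2⟩
        exact ⟨⟨h1, by omega⟩, h2⟩
    rw [h1, Finset.card_powersetCard, Finset.card_range]
  · intro S hS
    rw [Finset.mem_coe, Finset.mem_filter] at hS
    rw [Finset.mem_coe, Finset.mem_range]
    exact Nat.lt_succ_of_le hS.2

/-- A family of functions `q ↦ ψ (v q)`, `ψ` linear functionals, `v q` in a space `Y` of dimension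
`≤ κ`, multiplied by the functions of a finite set `Z`: the span has dimension `≤ κ * |Z|`. -/
theorem finrank_span_le {Q : Type} [Fintype Q] {Y : Submodule Qa ℂ} [FiniteDimensional Qa Y]
    (v : Q → ℂ) (hv : ∀ q, v q ∈ Y) (z : Q → Qa) :
    finrank Qa (Submodule.span Qa {g : Q → Qa | ∃ ψ : ℂ →ₗ[Qa] Qa, g = fun q => ψ (v q) * z q}) ≤
      finrank Qa Y := by
  classical
  let L : Module.Dual Qa Y →ₗ[Qa] (Q → Qa) :=
    { toFun := fun ψ q => ψ ⟨v q, hv q⟩ * z q
      map_add' := fun a b => by
        funext q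
        rw [LinearMap.add_apply, Pi.add_apply, add_mul]
      map_smul' := fun c a => by
        funext q
        rw [LinearMap.smul_apply, Pi.smul_apply, smul_eq_mul, smul_eq_mul, RingHom.id_apply,
          mul_assoc] }
  have h1 : Submodule.span Qa {g : Q → Qa | ∃ ψ : ℂ →ₗ[Qa] Qa, g = fun q => ψ (v q) * z q} ≤
      LinearMap.range L := by
    refine Submodule.span_le.2 ?_
    rintro _ ⟨ψ, rfl⟩
    exact ⟨ψ.comp Y.subtype, rfl⟩
  refine (Submodule.finrank_mono h1).trans ((LinearMap.finrank_range_le L).trans (le_of_eq ?_))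
  exact Subspace.dual_finrank_eq

/-- There are numbers `m` with `a (m + 1) ^ b < ∑ i ≤ b + 1, binom m i`. -/
theorem exists_num2 (a b : ℕ) : ∃ m : ℕ, a * (m + 1) ^ b < ∑ i ∈ range (b + 2), m.choose i := by
  obtain ⟨c, hc⟩ : ∃ c : ℕ, c = a * 2 ^ b * (b + 1).factorial := ⟨_, rfl⟩
  obtain ⟨m, hm⟩ : ∃ m : ℕ, m = 2 * b + 1 + c := ⟨_, rfl⟩
  refine ⟨m, ?_⟩
  have h1 : (m + 1 - (b + 1)) ^ (b + 1) ≤ m.descFactorial (b + 1) :=
    Nat.pow_sub_le_descFactorial m (b + 1)
  rw [Nat.descFactorial_eq_factorial_mul_choose] at h1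
  have h2 : m + 1 ≤ 2 * (m + 1 - (b + 1)) := by omega
  have h3 : c < m + 1 - (b + 1) := by omega
  obtain ⟨n, hn⟩ : ∃ n : ℕ, n = m + 1 - (b + 1) := ⟨_, rfl⟩
  rw [← hn] at h1 h2 h3
  have h4 : (b + 1).factorial * (a * (m + 1) ^ b) < (b + 1).factorial * m.choose (b + 1) := by
    refine lt_of_lt_of_le ?_ h1
    calc (b + 1).factorial * (a * (m + 1) ^ b) ≤ (b + 1).factorial * (a * (2 * n) ^ b) :=
          Nat.mul_le_mul_left _ (Nat.mul_le_mul_left _ (Nat.pow_le_pow_left h2 b))
      _ = c * n ^ b := by
          rw [hc, mul_pow]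
          ring
      _ < n * n ^ b := Nat.mul_lt_mul_of_pos_right h3 (pow_pos (by omega) b)
      _ = n ^ (b + 1) := (pow_succ' n b).symm
  refine (Nat.lt_of_mul_lt_mul_left h4).trans_le ?_
  exact Finset.single_le_sum (f := fun i => m.choose i) (fun i _ => Nat.zero_le _)
    (Finset.mem_range.2 (Nat.lt_succ_self (b + 1)))

/-- There are numbers `m` with `a (m + 1) ^ b < 2 ^ m`. -/
theorem exists_num1 (a b : ℕ) : ∃ m : ℕ, a * (m + 1) ^ b < 2 ^ m := by
  obtain ⟨m, hm⟩ := exists_num2 a b
  refine ⟨m, hm.trans_le ?_⟩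
  rw [← card_small_eq m (b + 1)]
  refine (Finset.card_filter_le _ _).trans (le_of_eq ?_)
  rw [Finset.card_powerset, Finset.card_range]

end MP60829e.ZL
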