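import Mathlib
import Pool.Agent.Lib.MP_60829e_nt.ZL.LD
import Pool.Agent.Lib.MP_60829e_nt.ZL.Om
import Pool.Agent.Lib.MP_60829e_nt.ZL.Fun

/-! # Theorem ZL, Step 1: generic elements in sums of rows -/

open Module Finset

namespace MP60829e.ZL

open MP60829e.ST (Qa Lt)

/-- PROOF: `∑_{S ⊆ range 0}` is `c ∅ * 1`. -/
theorem MF.zero (Y : Submodule Qa ℂ) (δ : ℕ → ℂ) : MF Y δ 0 := by
  intro c _ h S hS
  rw [Finset.range_zero, Finset.powerset_empty, Finset.mem_singleton] at hS
  rw [Finset.range_zero, Finset.powerset_empty, Finset.sum_singleton, Finset.prod_empty,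
    mul_one] at h
  rw [hS, h]

/-- `MF` depends only on `δ 0, …, δ (m - 1)`. -/
theorem MF.congr {Y : Submodule Qa ℂ} {δ δ' : ℕ → ℂ} {m : ℕ} (h : MF Y δ m)
    (hδ : ∀ t < m, δ t = δ' t) : MF Y δ' m := by
  intro c hc h0
  refine h c hc ?_
  rw [← h0]
  refine Finset.sum_congr rfl fun S hS => ?_
  congr 1
  refine Finset.prod_congr rfl fun t ht => ?_
  exact hδ t (Finset.mem_range.1 (Finset.mem_powerset.1 hS ht))

/-- PROOF: split `S = S'` and `S = insert m S'`: `a0 + a1 * δ m = 0` with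
`a0 = ∑ c S' * ∏ δ`, `a1 = ∑ c (insert m S') * ∏ δ` in `Y * P w δ m ^ m` (`prod_mem`); `LD.zero`, then
`MF Y δ m` twice. -/
theorem MF.succ {Y V : Submodule Qa ℂ} {w : ℂ} {δ : ℕ → ℂ} {m : ℕ} (h : MF Y δ m)
    (hLD : LD (Y * P w δ m ^ m) V) (h1 : (1 : ℂ) ∈ V) (hδ : δ m ∈ Lt) (hδV : δ m ∉ V) :
    MF Y δ (m + 1) := by
  classical
  intro c hc h0
  rw [Finset.range_add_one, Finset.sum_powerset_insert Finset.notMem_range_self] at h0
  have hmem : ∀ c : Finset ℕ → ℂ, (∀ S, c S ∈ Y) →
      ∑ S ∈ (range m).powerset, c S * ∏ t ∈ S, δ t ∈ Y * P w δ m ^ m := by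
    intro c hc
    refine Submodule.sum_mem _ fun S hS => Submodule.mul_mem_mul (hc S) (prod_mem w δ hS ?_)
    have := Finset.card_le_card (Finset.mem_powerset.1 hS)
    rwa [Finset.card_range] at this
  have h2 : ∑ S ∈ (range m).powerset, c (insert m S) * ∏ t ∈ insert m S, δ t =
      (∑ S ∈ (range m).powerset, c (insert m S) * ∏ t ∈ S, δ t) * δ m := by
    rw [Finset.sum_mul]
    refine Finset.sum_congr rfl fun S hS => ?_
    rw [Finset.prod_insert fun hm => Finset.notMem_range_self (Finset.mem_powerset.1 hS hm)]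
    ring
  rw [h2] at h0
  obtain ⟨h3, h4⟩ := hLD.zero h1 hδ hδV (hmem c hc)
    (hmem (fun S => c (insert m S)) fun S => hc _) h0
  have h5 := h c hc h3
  have h6 := h (fun S => c (insert m S)) (fun S => hc _) h4
  intro S hS
  rw [Finset.mem_powerset, Finset.range_add_one] at hS
  by_cases hm : m ∈ S
  · have h7 := h6 (S.erase m) (Finset.mem_powerset.2 fun t ht => by
      rw [Finset.mem_erase] at ht
      exact (Finset.mem_insert.1 (hS ht.2)).resolve_left ht.1)
    simp only [Finset.insert_erase hm] at h7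
    exact h7
  · refine h5 S (Finset.mem_powerset.2 fun t ht => ?_)
    refine (Finset.mem_insert.1 (hS ht)).resolve_left fun h7 => hm (h7 ▸ ht)

/-- The dimension of a finite sum of subspaces. -/
theorem finrank_finset_sup_le {M ι : Type} [AddCommGroup M] [Module Qa M] [FiniteDimensional Qa M]
    (J : Finset ι) (W : ι → Submodule Qa M) :
    finrank Qa (J.sup W : Submodule Qa M) ≤ ∑ i ∈ J, finrank Qa (W i) := by
  classical
  induction J using Finset.induction_on with
  | empty =>
    rw [Finset.sup_empty, finrank_bot, Finset.sum_empty]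
  | insert i J hi ih =>
    rw [Finset.sup_insert, Finset.sum_insert hi]
    exact (Submodule.finrank_add_le_finrank_add_finrank _ _).trans (Nat.add_le_add_left ih _)

/-- Only the terms with `ξ ^ 0` and `ξ ^ 1` survive. -/
theorem om_mul_eq (w ξ : ℂ) (δ : ℕ → ℂ) (j : ℕ) (S : Finset ℕ) (U : ℂ)
    (hU : S.card + 2 ≤ j → U = 0) :
    om (w + ξ) δ j S * U = om w δ j S * U + (j * om w δ (j - 1) S * U) * ξ := by
  rw [om_add]
  rcases Nat.eq_zero_or_pos j with h0 | h0
  · subst h0
    rw [zero_add, Finset.sum_range_one]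
    simp
  · obtain ⟨k, rfl⟩ : ∃ k, j = k + 1 := ⟨j - 1, by omega⟩
    rw [Finset.sum_range_succ', Finset.sum_range_succ']
    have h1 : (∑ i ∈ range k, ((k + 1).choose (i + 1 + 1) : ℂ) * ξ ^ (i + 1 + 1) *
        om w δ (k + 1 - (i + 1 + 1)) S) * U = 0 := by
      rw [Finset.sum_mul]
      refine Finset.sum_eq_zero fun i hi => ?_
      have hi' := Finset.mem_range.1 hi
      rcases Nat.lt_or_ge (k + 1 - (i + 1 + 1)) S.card with h2 | h2
      · rw [om_eq_zero w δ h2, mul_zero, zero_mul]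
      · rw [hU (by omega), mul_zero]
    rw [add_mul, add_mul, h1]
    simp only [zero_add, Nat.choose_one_right, pow_one, Nat.choose_zero_right, Nat.cast_one,
      pow_zero, one_mul, Nat.sub_zero, Nat.add_sub_cancel]
    ring

/-- **Step 1.** PROOF. Otherwise take for each `q ⊆ range m` a polynomial `f q` over `Y` of degree in
`[2, D]` with `(f q).eval (w + ∑ t ∈ q, δ t + ξ) ∈ Y * Lt`. Let `H` be the span of the functions
`q ↦ ψ ((f q).coeff j) * zt m S q`, `ψ : ℂ →ₗ Qa`, `2 ≤ j ≤ D`, `|S| + 2 ≤ j`; by `finrank_span_le`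
(with `Y`) and `card_small_le`, `finrank H ≤ κ * ((D + 1) * (m + 1) ^ D)`.
Claim: for `t < m` the functions of `H` times `zt m {t}` are in `H`; more precisely
`q ↦ ψ ((f q).coeff j) * zt m S q` is in `H` for `2 ≤ j ≤ D`, `|S| + 1 ≤ j`. By `mem_of_ann` let
`a : Cb m → Qa` kill `H`. Put `U j S := ∑ q, (a q * zt m S q) • (f q).coeff j ∈ Y`; `U j S = 0` for
`j ≥ 2`, `|S| + 2 ≤ j` (all functionals vanish). Then
`∑ q, a q • (f q).eval (w_q + ξ) = ∑ j, ∑ i ≤ j, choose j i * ξ ^ i * ∑_S om w δ (j - i) S * U j S`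
(binomial theorem, `pow_eq_sum_om`). For `i ≥ 2` all terms vanish (`om_eq_zero` for `|S| > j - i`).
For `i = 1` the coefficient is `al1 = U 1 ∅ + ∑_{j ≥ 2} ∑_{|S| = j - 1} j! * ∏_{t ∈ S} δ t * U j S`
(`om_card`). The left side is in `Y * Lt`, so `al1 ∈ Y` by `LD.coeff` (with `A = Y`, the space
`Y * P w δ m ^ D`). By `MF` all `U j S` with `|S| = j - 1 ≥ 1` vanish.
`H` contains a nowhere vanishing function (`exists_generic`: some coefficient of `f q` of index `≥ 2` is
not `0`, and there is a functional not vanishing at it), so all `h * zt m S` are in `H`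
(induction on `S`) and `2 ^ m ≤ finrank H` by `card_le_of_zeta`. -/
theorem step1 {κ D m : ℕ} (Y V : Submodule Qa ℂ) [FiniteDimensional Qa Y]
    (hκ : finrank Qa Y ≤ κ) (w ξ : ℂ) (δ : ℕ → ℂ) (hmf : MF Y δ m)
    (hLD : LD (Y * P w δ m ^ D) V) (h1 : (1 : ℂ) ∈ V) (hξ : ξ ∈ Lt) (hξV : ξ ∉ V)
    (hnum : κ * ((D + 1) * (m + 1) ^ D) < 2 ^ m) :
    ∃ q ∈ (range m).powerset, Gen Y D (w + ∑ t ∈ q, δ t + ξ) := by
  classical
  by_contra hcon
  push Not at hcon
  have hf : ∀ q : Cb m, ∃ f : Polynomial ℂ, (∀ i, f.coeff i ∈ Y) ∧ f.natDegree ≤ D ∧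
      f.eval (w + ∑ t ∈ q.1, δ t + ξ) ∈ Y * Lt ∧ 2 ≤ f.natDegree := by
    intro q
    have h2 := hcon q.1 q.2
    unfold Gen at h2
    push Not at h2
    obtain ⟨f, h3, h4, h5, h6⟩ := h2
    exact ⟨f, h3, h4, h5, h6⟩
  choose f hfY hfD hfL hf2 using hf
  -- the space of functions
  obtain ⟨H, hH⟩ : ∃ H : Submodule Qa (Cb m → Qa), H = Submodule.span Qa
      {g | ∃ (ψ : ℂ →ₗ[Qa] Qa) (j : ℕ) (S : Finset ℕ), 2 ≤ j ∧ j ≤ D ∧ S ∈ (range m).powerset ∧
        S.card + 2 ≤ j ∧ g = fun q => ψ ((f q).coeff j) * zt m S q} := ⟨_, rfl⟩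
  have hHmem : ∀ (ψ : ℂ →ₗ[Qa] Qa) (j : ℕ) (S : Finset ℕ), 2 ≤ j → j ≤ D →
      S ∈ (range m).powerset → S.card + 2 ≤ j →
      (fun q : Cb m => ψ ((f q).coeff j) * zt m S q) ∈ H := by
    intro ψ j S h2 h3 h4 h5
    rw [hH]
    exact Submodule.subset_span ⟨ψ, j, S, h2, h3, h4, h5, rfl⟩
  have hHrank : finrank Qa H < 2 ^ m := by
    obtain ⟨J, hJ⟩ : ∃ J : Finset (ℕ × Finset ℕ), J = range (D + 1) ×ˢ
        (range m).powerset.filter (fun S => S.card ≤ D) := ⟨_, rfl⟩
    obtain ⟨W, hW⟩ : ∃ W : ℕ × Finset ℕ → Submodule Qa (Cb m → Qa), W = fun p =>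
        Submodule.span Qa {g : Cb m → Qa | ∃ ψ : ℂ →ₗ[Qa] Qa,
          g = fun q => ψ ((f q).coeff p.1) * zt m p.2 q} := ⟨_, rfl⟩
    have h2 : H ≤ J.sup W := by
      rw [hH, Submodule.span_le]
      rintro _ ⟨ψ, j, S, h3, h4, h5, h6, rfl⟩
      have h7 : (j, S) ∈ J := by
        rw [hJ, Finset.mem_product, Finset.mem_range, Finset.mem_filter]
        exact ⟨Nat.lt_succ_of_le h4, h5, (by omega : S.card ≤ D)⟩
      refine Finset.le_sup (f := W) h7 ?_
      rw [hW]
      exact Submodule.subset_span ⟨ψ, rfl⟩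
    have h3 : ∀ p ∈ J, finrank Qa (W p) ≤ κ := by
      intro p _
      rw [hW]
      exact (finrank_span_le (fun q => (f q).coeff p.1) (fun q => hfY q _) (zt m p.2)).trans hκ
    calc finrank Qa H ≤ finrank Qa (J.sup W : Submodule Qa (Cb m → Qa)) :=
          Submodule.finrank_mono h2
      _ ≤ ∑ p ∈ J, finrank Qa (W p) := finrank_finset_sup_le J W
      _ ≤ ∑ _p ∈ J, κ := Finset.sum_le_sum h3
      _ = J.card * κ := by rw [Finset.sum_const, smul_eq_mul]
      _ ≤ ((D + 1) * (m + 1) ^ D) * κ := by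
          refine Nat.mul_le_mul_right _ ?_
          rw [hJ, Finset.card_product, Finset.card_range]
          exact Nat.mul_le_mul_left _ (card_small_le m D)
      _ = κ * ((D + 1) * (m + 1) ^ D) := Nat.mul_comm _ _
      _ < 2 ^ m := hnum
  -- the claim
  have hclaim : ∀ (ψ : ℂ →ₗ[Qa] Qa) (j : ℕ) (S : Finset ℕ), 2 ≤ j → j ≤ D →
      S ∈ (range m).powerset → S.card + 1 ≤ j →
      (fun q : Cb m => ψ ((f q).coeff j) * zt m S q) ∈ H := by
    intro ψ j S h2 h3 h4 h5
    rcases Nat.lt_or_ge (S.card + 1) j with h6 | h6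
    · exact hHmem ψ j S h2 h3 h4 h6
    apply mem_of_ann
    intro a ha
    obtain ⟨U, hU⟩ : ∃ U : ℕ → Finset ℕ → ℂ,
        U = fun j S => ∑ q : Cb m, (a q * zt m S q) • (f q).coeff j := ⟨_, rfl⟩
    have hUψ : ∀ (ψ : ℂ →ₗ[Qa] Qa) (j : ℕ) (S : Finset ℕ),
        ψ (U j S) = ∑ q : Cb m, a q * (ψ ((f q).coeff j) * zt m S q) := by
      intro ψ j S
      rw [hU]
      dsimp only
      rw [map_sum]
      refine Finset.sum_congr rfl fun q _ => ?_
      rw [map_smul, smul_eq_mul]
      ring
    have hUY : ∀ j S, U j S ∈ Y := by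
      intro j S
      rw [hU]
      exact Submodule.sum_mem _ fun q _ => Y.smul_mem _ (hfY q j)
    have hU0 : ∀ j S, j ≤ D → S ∈ (range m).powerset → S.card + 2 ≤ j → U j S = 0 := by
      intro j S h7 h8 h9
      refine (Module.forall_dual_apply_eq_zero_iff Qa (U j S)).1 fun ψ => ?_
      rw [hUψ]
      exact ha _ (hHmem ψ j S (by omega) h7 h8 h9)
    -- the value
    obtain ⟨b, hb⟩ : ∃ b : ℂ, b = ∑ q : Cb m, a q • (f q).eval (w + ∑ t ∈ q.1, δ t + ξ) :=
      ⟨_, rfl⟩
    have hbL : b ∈ Y * Lt := by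
      rw [hb]
      exact Submodule.sum_mem _ fun q _ => Submodule.smul_mem _ _ (hfL q)
    have hpow : ∀ (q : Cb m) (j : ℕ), (w + ∑ t ∈ q.1, δ t + ξ) ^ j =
        ∑ S ∈ (range m).powerset, (zt m S q : ℂ) * om (w + ξ) δ j S := by
      intro q j
      rw [show w + ∑ t ∈ q.1, δ t + ξ = w + ξ + ∑ t ∈ q.1, δ t by ring, pow_eq_sum_om]
      refine Finset.sum_subset_zero_on_sdiff (Finset.powerset_mono.2
        (Finset.mem_powerset.1 q.2)) (fun S hS => ?_) fun S hS => ?_
      · rw [Finset.mem_sdiff, Finset.mem_powerset, Finset.mem_powerset] at hS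
        unfold zt
        rw [if_neg hS.2]
        simp
      · rw [Finset.mem_powerset] at hS
        unfold zt
        rw [if_pos hS]
        simp
    have hexp : b = ∑ j ∈ range (D + 1), ∑ S ∈ (range m).powerset,
        om (w + ξ) δ j S * U j S := by
      have h7 : ∀ q : Cb m, a q • (f q).eval (w + ∑ t ∈ q.1, δ t + ξ) =
          ∑ j ∈ range (D + 1), ∑ S ∈ (range m).powerset,
            om (w + ξ) δ j S * ((a q * zt m S q) • (f q).coeff j) := by
        intro q
        rw [Polynomial.eval_eq_sum_range' (Nat.lt_succ_of_le (hfD q)), Finset.smul_sum]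
        refine Finset.sum_congr rfl fun j _ => ?_
        rw [hpow, Finset.mul_sum, Finset.smul_sum]
        refine Finset.sum_congr rfl fun S _ => ?_
        rw [mul_smul, Algebra.smul_def, Algebra.smul_def, Algebra.smul_def]
        change ((a q : Qa) : ℂ) * ((f q).coeff j * ((zt m S q : ℂ) * om (w + ξ) δ j S)) =
          om (w + ξ) δ j S * (((a q : Qa) : ℂ) * ((zt m S q : ℂ) * (f q).coeff j))
        ring
      rw [hb]
      simp only [h7]
      rw [Finset.sum_comm]
      refine Finset.sum_congr rfl fun j _ => ?_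
      rw [Finset.sum_comm]
      refine Finset.sum_congr rfl fun S _ => ?_
      rw [← Finset.mul_sum, hU]
    obtain ⟨α0, hα0⟩ : ∃ α0 : ℂ, α0 = ∑ j ∈ range (D + 1), ∑ S ∈ (range m).powerset,
        om w δ j S * U j S := ⟨_, rfl⟩
    obtain ⟨α1, hα1⟩ : ∃ α1 : ℂ, α1 = ∑ j ∈ range (D + 1), ∑ S ∈ (range m).powerset,
        j * om w δ (j - 1) S * U j S := ⟨_, rfl⟩
    have hlin : α0 + α1 * ξ = b := by
      rw [hexp, hα0, hα1, Finset.sum_mul, ← Finset.sum_add_distrib]
      refine Finset.sum_congr rfl fun j hj => ?_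
      rw [Finset.sum_mul, ← Finset.sum_add_distrib]
      refine Finset.sum_congr rfl fun S hS => ?_
      exact (om_mul_eq w ξ δ j S (U j S) fun h7 =>
        hU0 j S (Nat.lt_succ_iff.1 (Finset.mem_range.1 hj)) hS h7).symm
    have hα0Y : α0 ∈ Y * P w δ m ^ D := by
      rw [hα0]
      refine Submodule.sum_mem _ fun j hj => Submodule.sum_mem _ fun S hS => ?_
      rw [mul_comm (om w δ j S) (U j S)]
      exact Submodule.mul_mem_mul (hUY j S)
        (om_mem w δ hS (Nat.lt_succ_iff.1 (Finset.mem_range.1 hj)))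
    have hα1Y : α1 ∈ Y * P w δ m ^ D := by
      rw [hα1]
      refine Submodule.sum_mem _ fun j hj => Submodule.sum_mem _ fun S hS => ?_
      have h7 : (j : ℂ) * om w δ (j - 1) S * U j S = ((j : ℕ) : Qa) • (U j S * om w δ (j - 1) S) := by
        rw [Algebra.smul_def, map_natCast]
        ring
      rw [h7]
      refine Submodule.smul_mem _ _ (Submodule.mul_mem_mul (hUY j S) (om_mem w δ hS ?_))
      have := Finset.mem_range.1 hj
      omega
    have hα1 : α1 ∈ Y := hLD.coeff h1 (le_mul_of_one_mem (one_mem_pow (one_mem_P w δ m) D))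
      hξ hξV hα0Y hα1Y hbL hlin
    -- the coefficient
    have hα1' : α1 = ∑ S ∈ (range m).powerset, (if S.card + 1 ≤ D then
        ((S.card + 1).factorial : Qa) • U (S.card + 1) S else 0) * ∏ t ∈ S, δ t := by
      rename_i hα1def
      rw [hα1def, Finset.sum_comm]
      refine Finset.sum_congr rfl fun S hS => ?_
      have h7 : ∀ j ∈ range (D + 1), j ≠ S.card + 1 →
          (j : ℂ) * om w δ (j - 1) S * U j S = 0 := by
        intro j hj hne
        rcases Nat.eq_zero_or_pos j with h0 | h0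
        · rw [h0]
          simp
        rcases Nat.lt_or_ge (j - 1) S.card with h8 | h8
        · rw [om_eq_zero w δ h8, mul_zero, zero_mul]
        · rw [hU0 j S (Nat.lt_succ_iff.1 (Finset.mem_range.1 hj)) hS (by omega), mul_zero]
      by_cases h8 : S.card + 1 ≤ D
      · rw [if_pos h8, Finset.sum_eq_single (S.card + 1) (fun j hj hne => h7 j hj hne)
          (fun h9 => absurd (Finset.mem_range.2 (Nat.lt_succ_of_le h8)) h9)]
        rw [Nat.add_sub_cancel, om_card, Algebra.smul_def, map_natCast, Nat.factorial_succ]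
        push_cast
        ring
      · rw [if_neg h8, zero_mul]
        refine Finset.sum_eq_zero fun j hj => h7 j hj fun h9 => ?_
        have := Finset.mem_range.1 hj
        omega
    obtain ⟨c, hc⟩ : ∃ c : Finset ℕ → ℂ, c = fun S => (if S.card + 1 ≤ D then
        ((S.card + 1).factorial : Qa) • U (S.card + 1) S else 0) - if S = ∅ then α1 else 0 :=
      ⟨_, rfl⟩
    have hcY : ∀ S, c S ∈ Y := by
      intro S
      rw [hc]
      dsimp only
      refine Y.sub_mem ?_ ?_
      · split_ifs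
        · exact Y.smul_mem _ (hUY _ _)
        · exact Y.zero_mem
      · split_ifs
        · exact hα1
        · exact Y.zero_mem
    have hc0 : ∑ S ∈ (range m).powerset, c S * ∏ t ∈ S, δ t = 0 := by
      rw [hc]
      simp only [sub_mul]
      rw [Finset.sum_sub_distrib, ← hα1', sub_eq_zero]
      symm
      rw [Finset.sum_eq_single ∅]
      · rw [if_pos rfl, Finset.prod_empty, mul_one]
      · intro S _ hS
        rw [if_neg hS, zero_mul]
      · intro h7
        exact absurd (Finset.empty_mem_powerset _) h7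
    have hfin := hmf c hcY hc0 S h4
    have hSne : S ≠ ∅ := by
      intro h7
      rw [h7, Finset.card_empty] at h6
      omega
    have hj : j = S.card + 1 := by omega
    rw [hc] at hfin
    dsimp only at hfin
    rw [if_pos (by omega), if_neg hSne, sub_zero, smul_eq_zero] at hfin
    have hUS : U j S = 0 := by
      rw [hj]
      refine hfin.resolve_left ?_
      exact Nat.cast_ne_zero.2 (Nat.factorial_ne_zero _)
    rw [← hUψ ψ j S, hUS, map_zero]
  -- the ideal
  have hone : ∀ t < m, ∀ h ∈ H, (fun q : Cb m => h q * zt m {t} q) ∈ H := by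
    intro t ht h hh
    rw [hH] at hh
    induction hh using Submodule.span_induction with
    | mem g hg =>
      obtain ⟨ψ, j, S, h3, h4, h5, h6, rfl⟩ := hg
      have h7 : (fun q : Cb m => ψ ((f q).coeff j) * zt m S q * zt m {t} q) =
          fun q : Cb m => ψ ((f q).coeff j) * zt m (S ∪ {t}) q := by
        funext q
        rw [mul_assoc, zt_mul]
      dsimp only
      rw [h7]
      refine hclaim ψ j (S ∪ {t}) h3 h4 ?_ ?_
      · rw [Finset.mem_powerset] at h5 ⊢
        refine Finset.union_subset h5 ?_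
        rw [Finset.singleton_subset_iff, Finset.mem_range]
        exact ht
      · have h8 := Finset.card_union_le S {t}
        rw [Finset.card_singleton] at h8
        omega
    | zero =>
      have h7 : (fun q : Cb m => (0 : Cb m → Qa) q * zt m {t} q) = 0 := by
        funext q
        rw [Pi.zero_apply, zero_mul]
      rw [h7]
      exact H.zero_mem
    | add x y _ _ hx hy =>
      have h7 : (fun q : Cb m => (x + y) q * zt m {t} q) =
          (fun q : Cb m => x q * zt m {t} q) + fun q : Cb m => y q * zt m {t} q := by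
        funext q
        rw [Pi.add_apply, Pi.add_apply, add_mul]
      rw [h7]
      exact H.add_mem hx hy
    | smul c x _ hx =>
      have h7 : (fun q : Cb m => (c • x) q * zt m {t} q) =
          c • fun q : Cb m => x q * zt m {t} q := by
        funext q
        rw [Pi.smul_apply, Pi.smul_apply, smul_eq_mul, smul_eq_mul, mul_assoc]
      rw [h7]
      exact H.smul_mem c hx
  have hall : ∀ h ∈ H, ∀ S : Finset ℕ, S ⊆ range m → (fun q : Cb m => h q * zt m S q) ∈ H := by
    intro h hh S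
    induction S using Finset.induction_on with
    | empty =>
      intro _
      have h7 : (fun q : Cb m => h q * zt m ∅ q) = h := by
        funext q
        unfold zt
        rw [if_pos (Finset.empty_subset _), mul_one]
      rw [h7]
      exact hh
    | insert t S ht ih =>
      intro hS
      have h8 := hone t (Finset.mem_range.1 (hS (Finset.mem_insert_self t S))) _
        (ih ((Finset.subset_insert t S).trans hS))
      have h7 : (fun q : Cb m => h q * zt m (insert t S) q) =
          fun q : Cb m => h q * zt m S q * zt m {t} q := by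
        funext q
        rw [mul_assoc, zt_mul, Finset.insert_eq, Finset.union_comm]
      rw [h7]
      exact h8
  obtain ⟨h, hh, hne⟩ := exists_generic H (by
    intro q
    obtain ⟨ψ, hψ⟩ : ∃ ψ : Module.Dual Qa ℂ, ψ ((f q).coeff (f q).natDegree) ≠ 0 := by
      by_contra hcon2
      push Not at hcon2
      have h7 := (Module.forall_dual_apply_eq_zero_iff Qa _).1 hcon2
      rw [Polynomial.coeff_natDegree, Polynomial.leadingCoeff_eq_zero] at h7
      have h8 := hf2 q
      rw [h7, Polynomial.natDegree_zero] at h8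
      omega
    refine ⟨_, hHmem ψ (f q).natDegree ∅ (hf2 q) (hfD q) (Finset.empty_mem_powerset _) ?_, ?_⟩
    · rw [Finset.card_empty, zero_add]
      exact hf2 q
    · unfold zt
      rw [if_pos (Finset.empty_subset _), mul_one]
      exact hψ)
  have hfinal := card_le_of_zeta H h hne (range m).powerset (Finset.Subset.refl _)
    fun S hS => hall h hh S (Finset.mem_powerset.1 hS)
  rw [Finset.card_powerset, Finset.card_range] at hfinal
  omega

/-- PROOF. `m` from `exists_num1`, `M = m + 1`. Choose `δ 0, …, δ (m - 1)` successively, `δ i ∈ R i`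
outside the space `V_i` of `exists_LD (Y * P u δ i ^ i)` (of dimension bounded in terms of `κ`, `i`);
then `MF Y δ m` by `MF.succ` (`P_congr`); then `ξ ∈ R m` outside
`V ⊔ P u δ m ⊔ V'`, `V'` the space of `exists_LD (Y * P u δ m ^ D)`. Take `q` from `step1` (with
`w = u`); `s i = δ i` if `i ∈ q`, `0` if `i < m` is not in `q`, `s m = ξ`. -/
theorem exists_gen (κ D ν : ℕ) : ∃ M T : ℕ, ∀ Y V : Submodule Qa ℂ, FiniteDimensional Qa Y →
    FiniteDimensional Qa V → finrank Qa Y ≤ κ → finrank Qa V ≤ ν → ∀ u : ℂ, ∀ R : ℕ → Set ℂ,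
    (∀ i < M, Row T (R i)) → ∃ s : ℕ → ℂ, (∀ i < M, s i ∈ R i) ∧
      Gen Y D (u + ∑ i ∈ range M, s i) ∧ u + ∑ i ∈ range M, s i ∉ V := by
  classical
  obtain ⟨m, hm⟩ := exists_num1 (κ * (D + 1)) D
  refine ⟨m + 1, (κ * (m + 2) ^ m) ^ 3 + 1 + (ν + (m + 2) + ((κ * (m + 2) ^ D) ^ 3 + 1)) + 1, ?_⟩
  intro Y V hYf hVf hY hV u R hR
  have hdim : ∀ (δ : ℕ → ℂ) (i e : ℕ), i ≤ m →
      finrank Qa (Y * P u δ i ^ e : Submodule Qa ℂ) ≤ κ * (m + 2) ^ e := by
    intro δ i e hi
    refine (finrank_mul_le _ _).trans (Nat.mul_le_mul hY ?_)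
    refine (finrank_pow_le _ _).trans (Nat.pow_le_pow_left ?_ e)
    exact (finrank_P u δ i).trans (by omega)
  -- the steps
  have hδ : ∀ i ≤ m, ∃ δ : ℕ → ℂ, (∀ t < i, δ t ∈ R t) ∧ MF Y δ i := by
    intro i
    induction i with
    | zero => exact fun _ => ⟨0, fun t ht => absurd ht (Nat.not_lt_zero t), MF.zero Y 0⟩
    | succ i ih =>
      intro hi
      obtain ⟨δ, h1, h2⟩ := ih (by omega)
      obtain ⟨V', -, hV1, hV'f, hV'd, hLD⟩ := exists_LD (Y * P u δ i ^ i)
      have h3 : finrank Qa V' < (κ * (m + 2) ^ m) ^ 3 + 1 +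
          (ν + (m + 2) + ((κ * (m + 2) ^ D) ^ 3 + 1)) + 1 := by
        have h4 : finrank Qa (Y * P u δ i ^ i : Submodule Qa ℂ) ≤ κ * (m + 2) ^ m :=
          (hdim δ i i (by omega)).trans
            (Nat.mul_le_mul_left _ (Nat.pow_le_pow_right (by omega) (by omega)))
        have h5 := Nat.pow_le_pow_left h4 3
        omega
      obtain ⟨x, hx, hxV⟩ := (hR i (by omega)).2.2 V' hV'f h3
      have hcongr : ∀ t < i, δ t = Function.update δ i x t := by
        intro t ht
        rw [Function.update_of_ne (by omega)]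
      refine ⟨Function.update δ i x, fun t ht => ?_, ?_⟩
      · rcases Nat.lt_or_ge t i with h4 | h4
        · rw [← hcongr t h4]
          exact h1 t h4
        · have : t = i := by omega
          rw [this, Function.update_self]
          exact hx
      · rw [P_congr u hcongr] at hLD
        refine (h2.congr hcongr).succ hLD hV1 ?_ ?_
        · rw [Function.update_self]
          exact (hR i (by omega)).2.1 x hx
        · rw [Function.update_self]
          exact hxV
  obtain ⟨δ, hδR, hmf⟩ := hδ m le_rfl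
  obtain ⟨V', -, hV1, hV'f, hV'd, hLD⟩ := exists_LD (Y * P u δ m ^ D)
  have h3 : finrank Qa (V ⊔ P u δ m ⊔ V' : Submodule Qa ℂ) < (κ * (m + 2) ^ m) ^ 3 + 1 +
      (ν + (m + 2) + ((κ * (m + 2) ^ D) ^ 3 + 1)) + 1 := by
    have h4 := Submodule.finrank_add_le_finrank_add_finrank (V ⊔ P u δ m) V'
    have h5 := Submodule.finrank_add_le_finrank_add_finrank V (P u δ m)
    have h6 := finrank_P u δ m
    have h7 := Nat.pow_le_pow_left (hdim δ m D le_rfl) 3
    omega
  obtain ⟨ξ, hξR, hξ⟩ := (hR m (by omega)).2.2 (V ⊔ P u δ m ⊔ V') inferInstance h3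
  obtain ⟨q, hq, hgen⟩ := step1 Y V' hY u ξ δ hmf hLD hV1 ((hR m (by omega)).2.1 ξ hξR)
    (fun h4 => hξ (Submodule.mem_sup_right h4)) (by rw [← mul_assoc]; exact hm)
  have hqm : ∀ t ∈ q, t < m := fun t ht => Finset.mem_range.1 (Finset.mem_powerset.1 hq ht)
  obtain ⟨s, hs⟩ : ∃ s : ℕ → ℂ, s = fun i => if i = m then ξ else if i ∈ q then δ i else 0 :=
    ⟨_, rfl⟩
  have hsum : u + ∑ i ∈ range (m + 1), s i = u + ∑ t ∈ q, δ t + ξ := by
    rw [Finset.sum_range_succ, ← add_assoc]
    congr 1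
    · congr 1
      have h4 : ∀ i ∈ range m, s i = if i ∈ q then δ i else 0 := by
        intro i hi
        rw [hs]
        dsimp only
        rw [if_neg (Finset.mem_range.1 hi).ne]
      rw [Finset.sum_congr rfl h4, ← Finset.sum_filter]
      congr 1
      ext t
      rw [Finset.mem_filter, Finset.mem_range]
      exact ⟨fun h5 => h5.2, fun h5 => ⟨hqm t h5, h5⟩⟩
    · rw [hs]
      dsimp only
      rw [if_pos rfl]
  refine ⟨s, fun i hi => ?_, ?_, ?_⟩
  · rw [hs]
    dsimp only
    split_ifs with h4 h5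
    · rw [h4]
      exact hξR
    · exact hδR i (hqm i h5)
    · exact (hR i hi).1
  · rw [hsum]
    exact hgen
  · rw [hsum]
    intro h4
    apply hξ
    refine Submodule.mem_sup_left ?_
    have h5 : ξ = (u + ∑ t ∈ q, δ t + ξ) + -(u + ∑ t ∈ q, δ t) := by ring
    rw [h5]
    refine Submodule.add_mem_sup h4 (Submodule.neg_mem _ (Submodule.add_mem _ (w_mem_P u δ m) ?_))
    exact Submodule.sum_mem _ fun t ht => delta_mem_P u δ (hqm t ht)

end MP60829e.ZL
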