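import Mathlib
import Pool.Agent.Lib.MP_60829e_nt.ZL.GenA
import Pool.Agent.Lib.MP_60829e_nt.ZL.Free

/-! # Theorem ZL: the first elements of the cube -/

open Module Finset

namespace MP60829e.ZL

open MP60829e.ST (Qa Lt)

private theorem sum_two_groups {M M' : ℕ} (s s' : ℕ → ℂ) :
    ∑ i ∈ range (M + M'), (if i < M then s i else s' (i - M)) =
      ∑ i ∈ range M, s i + ∑ i ∈ range M', s' i := by
  rw [Finset.sum_range_add]
  congr 1
  · refine Finset.sum_congr rfl fun i hi => ?_
    rw [if_pos (Finset.mem_range.1 hi)]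
  · refine Finset.sum_congr rfl fun i _ => ?_
    rw [if_neg (by omega), Nat.add_sub_cancel_left]

private theorem row_sum_mem {T M : ℕ} {R : ℕ → Set ℂ} (hR : ∀ i < M, Row T (R i)) {s : ℕ → ℂ}
    (hs : ∀ i < M, s i ∈ R i) : ∑ i ∈ range M, s i ∈ Lt :=
  Submodule.sum_mem _ fun i hi =>
    (hR i (Finset.mem_range.1 hi)).2.1 _ (hs i (Finset.mem_range.1 hi))

/-- The first elements `w`, `δ 0, …, δ (m - 1)`, from sums of rows. PROOF: induction on `m` (with `m`
more groups of rows), with `exists_gen` (`u = 0` for `δ m`) and `exists_LD`, `FF.zero`, `FF.succ`,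
`FF.congr`. The group of rows of `δ t` is `R (o t + i)`, `i < M t`. -/
theorem exists_cube (κ D m : ℕ) : ∃ M T : ℕ, ∀ A : Submodule Qa ℂ, FiniteDimensional Qa A →
    finrank Qa A ≤ κ → ∀ u ∈ Lt, ∀ R : ℕ → Set ℂ, (∀ i < M, Row T (R i)) →
    ∃ (w : ℂ) (δ : ℕ → ℂ), FF A w δ m D ∧ w ∈ Lt ∧ (∀ t, δ t ∈ Lt) ∧
      ∀ q ∈ (range m).powerset, ∃ s : ℕ → ℂ, (∀ i < M, s i ∈ R i) ∧
        w + ∑ t ∈ q, δ t = u + ∑ i ∈ range M, s i := by
  induction m with
  | zero =>
    obtain ⟨M, T, h⟩ := exists_gen κ D (κ ^ 3 + 1)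
    refine ⟨M, T, fun A hA hκ u hu R hR => ?_⟩
    have : FiniteDimensional Qa A := hA
    obtain ⟨V, -, hV1, hV2, hV3, hV4⟩ := exists_LD A
    obtain ⟨s, hs, hg, hsV⟩ := h A V hA hV2 hκ
      (hV3.trans (Nat.add_le_add_right (Nat.pow_le_pow_left hκ 3) 1)) u R hR
    have hw : u + ∑ i ∈ range M, s i ∈ Lt := Lt.add_mem hu (row_sum_mem hR hs)
    refine ⟨u + ∑ i ∈ range M, s i, fun _ => 0, FF.zero _ hV4 hV1 hg hw hsV, hw,
      fun _ => Lt.zero_mem, fun q hq => ⟨s, hs, ?_⟩⟩
    rw [Finset.sum_const_zero, add_zero]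
  | succ m ih =>
    obtain ⟨M0, T0, h0⟩ := ih
    obtain ⟨M1, T1, h1⟩ := exists_gen (κ * (m + 2) ^ D) D ((κ * (m + 2) ^ D) ^ 3 + 1)
    refine ⟨M0 + M1, max T0 T1, fun A hA hκ u hu R hR => ?_⟩
    have : FiniteDimensional Qa A := hA
    have hR0 : ∀ i < M0, Row T0 (R i) := fun i hi => (hR i (by omega)).mono (le_max_left _ _)
    have hR1 : ∀ i < M1, Row T1 (R (M0 + i)) := fun i hi =>
      (hR (M0 + i) (by omega)).mono (le_max_right _ _)
    obtain ⟨w, δ, hFF, hw, hδ, hq⟩ := h0 A hA hκ u hu R hR0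
    have hPfd : FiniteDimensional Qa (P w δ m) := inferInstance
    have hY : finrank Qa (A * P w δ m ^ D : Submodule Qa ℂ) ≤ κ * (m + 2) ^ D := by
      refine (finrank_mul_le _ _).trans (Nat.mul_le_mul hκ ?_)
      exact (finrank_pow_le _ _).trans (Nat.pow_le_pow_left (finrank_P w δ m) D)
    obtain ⟨V, -, hV1, hV2, hV3, hV4⟩ := exists_LD (A * P w δ m ^ D)
    obtain ⟨s', hs', hg, hsV⟩ := h1 (A * P w δ m ^ D) V inferInstance hV2 hY
      (hV3.trans (Nat.add_le_add_right (Nat.pow_le_pow_left hY 3) 1)) 0 (fun i => R (M0 + i)) hR1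
    rw [zero_add] at hg hsV
    have hz : ∑ i ∈ range M1, s' i ∈ Lt := row_sum_mem hR1 hs'
    obtain ⟨z, hzdef⟩ : ∃ z, z = ∑ i ∈ range M1, s' i := ⟨_, rfl⟩
    rw [← hzdef] at hg hsV hz
    have hag : ∀ t < m, δ t = Function.update δ m z t := fun t ht => by
      rw [Function.update_of_ne (by omega)]
    have hFF' : FF A w (Function.update δ m z) m D := hFF.congr hag
    have hP : P w δ m = P w (Function.update δ m z) m := P_congr w hag
    have hzm : Function.update δ m z m = z := Function.update_self _ _ _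
    refine ⟨w, Function.update δ m z, ?_, hw, fun t => ?_, fun q hqm => ?_⟩
    · refine hFF'.succ (V := V) ?_ hV1 ?_ ?_ ?_
      · rw [← hP]
        exact hV4
      · rw [← hP, hzm]
        exact hg
      · rw [hzm]
        exact hz
      · rw [hzm]
        exact hsV
    · by_cases ht : t = m
      · subst ht
        rw [hzm]
        exact hz
      · rw [Function.update_of_ne ht]
        exact hδ t
    · rw [Finset.mem_powerset] at hqm
      have hq' : q.erase m ∈ (range m).powerset := by
        rw [Finset.mem_powerset]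
        intro t ht
        have h2 := Finset.mem_range.1 (hqm (Finset.mem_of_mem_erase ht))
        have h3 := Finset.ne_of_mem_erase ht
        rw [Finset.mem_range]
        omega
      obtain ⟨s, hs, hsum⟩ := hq _ hq'
      have hsum' : w + ∑ t ∈ q.erase m, Function.update δ m z t = u + ∑ i ∈ range M0, s i := by
        rw [← hsum]
        congr 1
        refine Finset.sum_congr rfl fun t ht => ?_
        rw [Function.update_of_ne (Finset.ne_of_mem_erase ht)]
      by_cases hmq : m ∈ q
      · refine ⟨fun i => if i < M0 then s i else s' (i - M0), fun i hi => ?_, ?_⟩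
        · dsimp only
          split_ifs with h2
          · exact hs i h2
          · have h3 := hs' (i - M0) (by omega)
            rwa [Nat.add_sub_cancel' (by omega)] at h3
        · rw [sum_two_groups, ← add_assoc, ← hsum', ← hzdef, ← Finset.sum_erase_add _ _ hmq, hzm,
            add_assoc]
      · rw [Finset.erase_eq_of_notMem hmq] at hsum'
        have h5 : ∑ i ∈ range (M0 + M1), (if i < M0 then s i else (0 : ℂ)) =
            ∑ i ∈ range M0, s i := by
          have h6 := sum_two_groups (M := M0) (M' := M1) s fun _ => 0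
          rwa [Finset.sum_const_zero, add_zero] at h6
        refine ⟨fun i => if i < M0 then s i else 0, fun i hi => ?_, ?_⟩
        · dsimp only
          split_ifs with h2
          · exact hs i h2
          · exact (hR i hi).1
        · rw [hsum', h5]

end MP60829e.ZL
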