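import Mathlib
import Pool.Agent.Lib.MP_60829e_nt.ZL.LD
import Pool.Agent.Lib.MP_60829e_nt.ZL.Om
import Pool.Agent.Lib.MP_60829e_nt.ZL.Fun

/-! # Theorem ZL, Step 2: definitions -/

open Module Finset

namespace MP60829e.ZL

open MP60829e.ST (Qa Lt)

variable {m D c : ℕ} {ι : Type} [Fintype ι]

/-- The functions `q ↦ φ (l q j α) * zt m S q` with `φ = 0` on `V` and at `ξ`, `|S| < j ≤ D`. -/
noncomputable def HH (m D : ℕ) (V : Submodule Qa ℂ) (ξ : ℂ) (l : Cb m → ℕ → ι → ℂ) :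
    Submodule Qa (Cb m → Qa) :=
  Submodule.span Qa {g | ∃ φ : ℂ →ₗ[Qa] Qa, (∀ x ∈ V, φ x = 0) ∧ φ ξ = 0 ∧ ∃ j α S,
    j ≤ D ∧ S ∈ (range m).powerset ∧ S.card < j ∧ g = fun q => φ (l q j α) * zt m S q}

/-- The relations at the points `w + ∑ t ∈ q, δ t + ξ`. -/
def Rl (m D : ℕ) (a : ι → ℂ) (w ξ : ℂ) (δ : ℕ → ℂ) (l : Cb m → ℕ → ι → ℂ) : Prop :=
  (∀ q j α, l q j α ∈ Lt) ∧
    ∀ q : Cb m, ∑ j ∈ range (D + 1), ∑ α, a α * l q j α * (w + ∑ t ∈ q.1, δ t + ξ) ^ j = 0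

end MP60829e.ZL
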