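import Mathlib
import Pool.Agent.Lib.MP_60829e_nt.ZL.StepD

/-! # Theorem ZL, Step 2: the claim -/

open Module Finset

namespace MP60829e.ZL

open MP60829e.ST (Qa Lt)

variable {m D c : ℕ} {ι : Type} [Fintype ι]

/-- A linear retraction onto a subspace. -/
theorem exists_retr (W : Submodule Qa ℂ) : ∃ g : ℂ →ₗ[Qa] ℂ, (∀ x, g x ∈ W) ∧ ∀ x ∈ W, g x = x := by
  obtain ⟨g, hg⟩ := LinearMap.exists_leftInverse_of_injective W.subtype
    (LinearMap.ker_eq_bot.2 W.subtype_injective)
  refine ⟨W.subtype ∘ₗ g, fun x => (g x).2, fun x hx => ?_⟩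
  have h := LinearMap.congr_fun hg ⟨x, hx⟩
  have h2 : g x = ⟨x, hx⟩ := h
  rw [LinearMap.comp_apply, h2]
  rfl

/-- The powers of the points, with a function on the cube. -/
theorem pow_eq_sum_zt (w : ℂ) (δ : ℕ → ℂ) (j : ℕ) (q : Cb m) :
    (w + ∑ t ∈ q.1, δ t) ^ j = ∑ S ∈ (range m).powerset, zt m S q • om w δ j S := by
  classical
  rw [pow_eq_sum_om]
  have hq : q.1 ⊆ range m := mem_powerset.1 q.2
  have h1 : q.1.powerset = ((range m).powerset).filter (fun S => S ⊆ q.1) := by
    ext S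
    rw [mem_filter, mem_powerset, mem_powerset]
    exact ⟨fun h => ⟨h.trans hq, h⟩, fun h => h.2⟩
  rw [h1, sum_filter]
  refine sum_congr rfl fun S _ => ?_
  unfold zt
  split_ifs with h
  · rw [one_smul]
  · rw [zero_smul]

/-- The sum over the cube, with weights killing the lower moments. -/
theorem sum_cube (w ξ : ℂ) (δ : ℕ → ℂ) (j : ℕ) (b : Cb m → Qa) (p : Cb m → ℂ)
    (h : ∀ S ∈ (range m).powerset, S.card < j → ∑ q, (b q * zt m S q) • p q = 0) :
    ∑ q : Cb m, b q • (p q * (w + ∑ t ∈ q.1, δ t + ξ) ^ j) =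
      ∑ S ∈ (range m).powerset, om w δ j S * ∑ q, (b q * zt m S q) • p q := by
  have h1 : ∀ q : Cb m, (w + ∑ t ∈ q.1, δ t + ξ) ^ j =
      ∑ S ∈ (range m).powerset, zt m S q • om (w + ξ) δ j S := by
    intro q
    rw [← pow_eq_sum_zt]
    congr 1
    ring
  calc ∑ q : Cb m, b q • (p q * (w + ∑ t ∈ q.1, δ t + ξ) ^ j)
      = ∑ S ∈ (range m).powerset, om (w + ξ) δ j S * ∑ q, (b q * zt m S q) • p q := by
        simp_rw [h1, mul_sum, smul_sum]
        rw [sum_comm]
        refine sum_congr rfl fun S _ => sum_congr rfl fun q _ => ?_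
        rw [mul_smul_comm, smul_smul, mul_smul_comm, mul_comm (p q)]
    _ = _ := by
        refine sum_congr rfl fun S hS => ?_
        rcases lt_trichotomy S.card j with h2 | h2 | h2
        · rw [h S hS h2, mul_zero, mul_zero]
        · subst h2
          rw [om_card, om_card]
        · rw [om_eq_zero _ _ h2, om_eq_zero _ _ h2]

theorem coeff_mem_poly {Y : Submodule Qa ℂ} {x : ℂ} {P : Submodule Qa ℂ} {a t c : ℂ} {j D : ℕ}
    (hx : x ∈ P) (h1 : (1 : ℂ) ∈ P) (hj : j ≤ D) (ht : a * t ∈ Y) (hc : a * c ∈ Y) (i : ℕ) :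
    (Polynomial.C a * ((Polynomial.C t + Polynomial.C c * Polynomial.X) *
      (Polynomial.C x + Polynomial.X) ^ j)).coeff i ∈ Y * P ^ D := by
  have h2 : ∀ n, ((Polynomial.C x + Polynomial.X) ^ j).coeff n ∈ P ^ D := by
    intro n
    rw [add_comm, Polynomial.coeff_X_add_C_pow]
    have h3 : x ^ (j - n) ∈ P ^ D :=
      pow_le_pow_of_one_mem h1 (by omega) (Submodule.pow_mem_pow P hx (j - n))
    have h4 : x ^ (j - n) * ((j.choose n : ℕ) : ℂ) = ((j.choose n : ℕ) : Qa) • x ^ (j - n) := by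
      rw [mul_comm, Algebra.smul_def, map_natCast]
    rw [h4]
    exact Submodule.smul_mem _ _ h3
  have h5 : (Polynomial.C a * ((Polynomial.C t + Polynomial.C c * Polynomial.X) *
      (Polynomial.C x + Polynomial.X) ^ j)) = Polynomial.C (a * t) * (Polynomial.C x + Polynomial.X) ^ j +
      Polynomial.X * (Polynomial.C (a * c) * (Polynomial.C x + Polynomial.X) ^ j) := by
    rw [Polynomial.C_mul, Polynomial.C_mul]
    ring
  rw [h5, Polynomial.coeff_add, Polynomial.coeff_C_mul]
  refine Submodule.add_mem _ (Submodule.mul_mem_mul ht (h2 i)) ?_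
  cases i with
  | zero => rw [Polynomial.coeff_X_mul_zero]; exact Submodule.zero_mem _
  | succ i =>
    rw [Polynomial.coeff_X_mul, Polynomial.coeff_C_mul]
    exact Submodule.mul_mem_mul hc (h2 i)

theorem natDegree_poly {x a t c : ℂ} {j D : ℕ} (hj : j ≤ D) :
    (Polynomial.C a * ((Polynomial.C t + Polynomial.C c * Polynomial.X) *
      (Polynomial.C x + Polynomial.X) ^ j)).natDegree ≤ D + 1 := by
  refine (Polynomial.natDegree_C_mul_le _ _).trans (Polynomial.natDegree_mul_le.trans ?_)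
  have h1 : (Polynomial.C t + Polynomial.C c * Polynomial.X).natDegree ≤ 1 := by
    refine (Polynomial.natDegree_add_le _ _).trans (max_le (by simp) ?_)
    exact (Polynomial.natDegree_C_mul_le _ _).trans Polynomial.natDegree_X_le
  have h2 : ((Polynomial.C x + Polynomial.X) ^ j).natDegree ≤ j := by
    refine Polynomial.natDegree_pow_le.trans ?_
    have h3 : (Polynomial.C x + Polynomial.X : Polynomial ℂ).natDegree ≤ 1 := by
      refine (Polynomial.natDegree_add_le _ _).trans (max_le (by simp) Polynomial.natDegree_X_le)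
    calc j * _ ≤ j * 1 := Nat.mul_le_mul_left _ h3
      _ = j := mul_one _
  omega

/-- **The claim of Step 2.** PROOF. By `mem_of_ann` let `b : Cb m → Qa` kill `HH m D V ξ l`. Let
`W = V ⊔ span {ξ}`, `g` a retraction onto `W`, `pr x = x - g x`. Put
`u j α S := ∑ q, (b q * zt m S q) • pr (l q j α) ∈ Lt`. For `|S| < j` it is `0`
(all functionals vanish: `ψ ∘ pr` is `0` on `W`). Now
`0 = ∑ q, b q • (relation at q) = f.eval ξ + ∑ j, ∑ α, ∑_S a α * om w δ j S * u j α S`,
`f = ∑ q, ∑ j, ∑ α, b q • a α (t + c X) (w_q + X) ^ j`, of degree `≤ D + 1`, with coefficients in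
`A * P w δ m ^ D * V`. By `Gen` the degree of `f` is `≤ 1`; by `LD`
`∑ j, ∑ α, ∑_S φ (u j α S) • a α * om w δ j S = 0`, so `∑ α, φ (u j α S) • a α = 0` by `FF`
and `φ (u j α S) = 0`. Finally `φ (u j α S) = ∑ q, b q * (φ (l q j α) * zt m S q)` because
`φ ∘ pr = φ` on `Lt` (`φ = 0` on `W`). -/
theorem claimB {A V V' : Submodule Qa ℂ} (hV1 : (1 : ℂ) ∈ V) (hVV : V ≤ V') (hVL : V' ≤ Lt)
    {a : ι → ℂ} (ha : LinearIndependent Qa a) (haA : ∀ α, a α ∈ A) {w ξ : ℂ} {δ : ℕ → ℂ}
    {l : Cb m → ℕ → ι → ℂ} (hl : Rl m D a w ξ δ l) (hFF : FF A w δ m D)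
    (hLD : LD (A * P w δ m ^ D * V) V') (hg : Gen (A * P w δ m ^ D * V) (D + 1) ξ) (hξ : ξ ∈ Lt)
    (φ : ℂ →ₗ[Qa] Qa) (hφ : ∀ x ∈ V', φ x = 0) (hφξ : φ ξ = 0) {j : ℕ} (hj : j ≤ D) (α : ι)
    {S : Finset ℕ} (hS : S ∈ (range m).powerset) (hSj : S.card ≤ j) :
    (fun q => φ (l q j α) * zt m S q) ∈ HH m D V ξ l := by
  classical
  apply mem_of_ann
  intro b hb
  obtain ⟨g, hgW, hgid⟩ := exists_retr (V ⊔ Submodule.span Qa {ξ})
  have hWL : V ⊔ Submodule.span Qa {ξ} ≤ Lt :=
    sup_le (hVV.trans hVL) (Submodule.span_le.2 (Set.singleton_subset_iff.2 hξ))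
  have hξW : ξ ∈ V ⊔ Submodule.span Qa {ξ} :=
    Submodule.mem_sup_right (Submodule.mem_span_singleton_self ξ)
  -- the two parts of `l`
  have hdec : ∀ q : Cb m, ∀ j α, ∃ (t : ℂ) (c : Qa), t ∈ V ∧ g (l q j α) = t + (c : ℂ) * ξ := by
    intro q j α
    obtain ⟨t, ht, z, hz, h⟩ := Submodule.mem_sup.1 (hgW (l q j α))
    obtain ⟨c, rfl⟩ := Submodule.mem_span_singleton.1 hz
    exact ⟨t, c, ht, h.symm⟩
  choose t c htV htc using hdec
  set pr : Cb m → ℕ → ι → ℂ := fun q j α => l q j α - g (l q j α) with hpr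
  have hprL : ∀ q j α, pr q j α ∈ Lt := fun q j α => Lt.sub_mem (hl.1 q j α) (hWL (hgW _))
  have hdecl : ∀ q j α, l q j α = (t q j α + (c q j α : ℂ) * ξ) + pr q j α := by
    intro q j α
    rw [← htc, hpr]
    ring
  set u : ℕ → ι → Finset ℕ → ℂ := fun j α S => ∑ q, (b q * zt m S q) • pr q j α with hu
  have huL : ∀ j α S, u j α S ∈ Lt := fun j α S =>
    Submodule.sum_mem _ fun q _ => Submodule.smul_mem _ _ (hprL q j α)
  -- the lower moments vanish
  have hu0 : ∀ j ≤ D, ∀ α, ∀ S ∈ (range m).powerset, S.card < j → u j α S = 0 := by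
    intro j hj α S hS hSj
    by_contra hne
    obtain ⟨ψ, _, hψ⟩ := exists_functional (V := ⊥) (z := u j α S) (by rwa [Submodule.mem_bot])
    have h1 := hb (fun q => (ψ ∘ₗ (LinearMap.id - g)) (l q j α) * zt m S q)
      (Submodule.subset_span ⟨ψ ∘ₗ (LinearMap.id - g), ?_, ?_, j, α, S, hj, hS, hSj, rfl⟩)
    · have h2 : ψ (u j α S) = 0 := by
        rw [← h1, hu]
        simp only [map_sum, map_smul, smul_eq_mul]
        refine sum_congr rfl fun q _ => ?_
        simp only [LinearMap.comp_apply, LinearMap.sub_apply, LinearMap.id_apply]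
        ring
      rw [h2] at hψ
      exact zero_ne_one hψ
    · intro x hx
      rw [LinearMap.comp_apply, LinearMap.sub_apply, LinearMap.id_apply,
        hgid x (Submodule.mem_sup_left hx), sub_self, map_zero]
    · rw [LinearMap.comp_apply, LinearMap.sub_apply, LinearMap.id_apply, hgid ξ hξW, sub_self,
        map_zero]
  -- the polynomial
  set fq : Cb m → ℕ → ι → Polynomial ℂ := fun q j α =>
    Polynomial.C (a α) * ((Polynomial.C (t q j α) + Polynomial.C (c q j α : ℂ) * Polynomial.X) *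
      (Polynomial.C (w + ∑ t ∈ q.1, δ t) + Polynomial.X) ^ j) with hfq
  set f : Polynomial ℂ := ∑ q, ∑ j ∈ range (D + 1), ∑ α, b q • fq q j α with hf
  have hP1 := one_mem_P w δ m
  have hwq : ∀ q : Cb m, w + ∑ t ∈ q.1, δ t ∈ P w δ m := fun q =>
    Submodule.add_mem _ (w_mem_P w δ m) (Submodule.sum_mem _ fun t ht =>
      delta_mem_P w δ (mem_range.1 (mem_powerset.1 q.2 ht)))
  have hcomm : A * V * P w δ m ^ D = A * P w δ m ^ D * V := mul_right_comm _ _ _
  have hfc : ∀ i, f.coeff i ∈ A * P w δ m ^ D * V := by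
    intro i
    rw [hf, Polynomial.finsetSum_coeff]
    refine Submodule.sum_mem _ fun q _ => ?_
    rw [Polynomial.finsetSum_coeff]
    refine Submodule.sum_mem _ fun j hj => ?_
    rw [Polynomial.finsetSum_coeff]
    refine Submodule.sum_mem _ fun α _ => ?_
    rw [Polynomial.coeff_smul, ← hcomm]
    refine Submodule.smul_mem _ _ ?_
    refine coeff_mem_poly (hwq q) hP1 (by have := mem_range.1 hj; omega)
      (Submodule.mul_mem_mul (haA α) (htV q j α)) (Submodule.mul_mem_mul (haA α) ?_) i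
    have h3 : ((c q j α : Qa) : ℂ) = (c q j α) • (1 : ℂ) := by
      rw [Algebra.smul_def, mul_one]; rfl
    rw [h3]
    exact V.smul_mem _ hV1
  have hfd : f.natDegree ≤ D + 1 := by
    rw [hf]
    refine Polynomial.natDegree_sum_le_of_forall_le _ _ fun q _ => ?_
    refine Polynomial.natDegree_sum_le_of_forall_le _ _ fun j hj => ?_
    refine Polynomial.natDegree_sum_le_of_forall_le _ _ fun α _ => ?_
    exact (Polynomial.natDegree_smul_le _ _).trans
      (natDegree_poly (by have := mem_range.1 hj; omega))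
  have hfe : f.eval ξ = ∑ q, ∑ j ∈ range (D + 1), ∑ α, b q • (a α * (g (l q j α)) *
      (w + ∑ t ∈ q.1, δ t + ξ) ^ j) := by
    rw [hf, Polynomial.eval_finsetSum]
    refine sum_congr rfl fun q _ => ?_
    rw [Polynomial.eval_finsetSum]
    refine sum_congr rfl fun j _ => ?_
    rw [Polynomial.eval_finsetSum]
    refine sum_congr rfl fun α _ => ?_
    rw [Polynomial.eval_smul, hfq, htc]
    simp only [Polynomial.eval_mul, Polynomial.eval_C, Polynomial.eval_add, Polynomial.eval_X,
      Polynomial.eval_pow]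
    rw [mul_assoc]
  -- the relation
  have hrel : f.eval ξ + ∑ j ∈ range (D + 1), ∑ α, ∑ S ∈ (range m).powerset,
      a α * om w δ j S * u j α S = 0 := by
    have h1 : ∑ q, ∑ j ∈ range (D + 1), ∑ α, b q • (a α * pr q j α *
          (w + ∑ t ∈ q.1, δ t + ξ) ^ j) =
        ∑ j ∈ range (D + 1), ∑ α, ∑ S ∈ (range m).powerset, a α * om w δ j S * u j α S := by
      rw [sum_comm]
      refine sum_congr rfl fun j hj => ?_
      rw [sum_comm]
      refine sum_congr rfl fun α _ => ?_
      have h2 := sum_cube w ξ δ j b (fun q => pr q j α)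
        (fun S hS hSj => hu0 j (by have := mem_range.1 hj; omega) α S hS hSj)
      calc ∑ q : Cb m, b q • (a α * pr q j α * (w + ∑ t ∈ q.1, δ t + ξ) ^ j)
          = a α * ∑ q : Cb m, b q • (pr q j α * (w + ∑ t ∈ q.1, δ t + ξ) ^ j) := by
            rw [mul_sum]
            refine sum_congr rfl fun q _ => ?_
            rw [mul_smul_comm, mul_assoc]
        _ = a α * ∑ S ∈ (range m).powerset, om w δ j S * u j α S := by rw [h2]
        _ = _ := by
            rw [mul_sum]
            exact sum_congr rfl fun S _ => (mul_assoc _ _ _).symm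
    rw [← h1, hfe, ← sum_add_distrib]
    refine sum_eq_zero fun q _ => ?_
    rw [← sum_add_distrib]
    have h3 := hl.2 q
    have h4 : b q • (∑ j ∈ range (D + 1), ∑ α, a α * l q j α *
        (w + ∑ t ∈ q.1, δ t + ξ) ^ j) = 0 := by rw [h3, smul_zero]
    rw [← h4, smul_sum]
    refine sum_congr rfl fun j _ => ?_
    rw [← sum_add_distrib, smul_sum]
    refine sum_congr rfl fun α _ => ?_
    rw [← smul_add]
    congr 1
    rw [hpr]
    ring
  have hYle : A * P w δ m ^ D ≤ A * P w δ m ^ D * V := le_mul_of_one_mem hV1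
  have haom : ∀ j ≤ D, ∀ α, ∀ S ∈ (range m).powerset,
      a α * om w δ j S ∈ A * P w δ m ^ D := fun j hj α S hS =>
    Submodule.mul_mem_mul (haA α) (om_mem w δ hS hj)
  have hdeg : f.natDegree ≤ 1 := by
    apply hg f hfc hfd
    rw [eq_neg_of_add_eq_zero_left hrel]
    refine Submodule.neg_mem _ (Submodule.sum_mem _ fun j hj => Submodule.sum_mem _ fun α _ =>
      Submodule.sum_mem _ fun S hS => ?_)
    exact Submodule.mul_mem_mul (hYle (haom j (by have := mem_range.1 hj; omega) α S hS))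
      (huL j α S)
  have hfe2 : f.eval ξ = f.coeff 0 * 1 + f.coeff 1 * ξ := by
    rw [Polynomial.eval_eq_sum_range' (Nat.lt_succ_of_le hdeg), sum_range_succ, sum_range_one,
      pow_zero, pow_one]
  -- the linear disjointness
  have h5 := hLD (Option (Option (Fin (D + 1) × ι × Cb m)))
    (fun o => o.elim (f.coeff 0) fun o => o.elim (f.coeff 1) fun p =>
      a p.2.1 * om w δ p.1 p.2.2.1)
    (fun o => o.elim 1 fun o => o.elim ξ fun p => u p.1 p.2.1 p.2.2.1)
    (by
      rintro (_ | _ | p)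
      · exact hfc 0
      · exact hfc 1
      · exact hYle (haom p.1 (by have := p.1.2; omega) p.2.1 p.2.2.1 p.2.2.2))
    (by
      rintro (_ | _ | p)
      · exact hVL (hVV hV1)
      · exact hξ
      · exact huL _ _ _)
    (by
      rw [Fintype.sum_option, Fintype.sum_option]
      simp only [Option.elim]
      rw [← add_assoc, ← hfe2, ← hrel]
      congr 1
      rw [Fintype.sum_prod_type, ← Fin.sum_univ_eq_sum_range (fun j : ℕ => (∑ α, ∑ S ∈
        (range m).powerset, a α * om w δ j S * u j α S : ℂ)) (D + 1)]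
      refine sum_congr rfl fun j _ => ?_
      rw [Fintype.sum_prod_type]
      refine sum_congr rfl fun α _ => ?_
      exact Finset.sum_coe_sort (range m).powerset (fun S => (a α * om w δ j S * u j α S : ℂ)))
    φ hφ
  rw [Fintype.sum_option, Fintype.sum_option] at h5
  simp only [Option.elim] at h5
  rw [hφ 1 (hVV hV1), hφξ, zero_smul, zero_smul, zero_add, zero_add] at h5
  have h6 : ∑ j ∈ range (D + 1), ∑ S ∈ (range m).powerset,
      (∑ α, φ (u j α S) • a α) * om w δ j S = 0 := by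
    rw [← h5, Fintype.sum_prod_type, ← Fin.sum_univ_eq_sum_range (fun j => ∑ S ∈
        (range m).powerset, (∑ α, φ (u j α S) • a α) * om w δ j S)]
    refine sum_congr rfl fun j _ => ?_
    rw [Fintype.sum_prod_type, sum_comm]
    rw [← Finset.sum_coe_sort (range m).powerset
      (fun S => (∑ α, φ (u j α S) • a α) * om w δ j S)]
    refine sum_congr rfl fun S _ => ?_
    rw [sum_mul]
    exact sum_congr rfl fun α _ => smul_mul_assoc _ _ _
  have h7 := hFF (fun j S => ∑ α, φ (u j α S) • a α)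
    (fun j S => Submodule.sum_mem _ fun α _ => Submodule.smul_mem _ _ (haA α)) h6 j hj S hS hSj
  have h8 := Fintype.linearIndependent_iff.1 ha (fun α => φ (u j α S)) h7 α
  -- conclusion
  have h9 : ∀ x ∈ V ⊔ Submodule.span Qa {ξ}, φ x = 0 := by
    intro x hx
    obtain ⟨y, hy, z, hz, rfl⟩ := Submodule.mem_sup.1 hx
    obtain ⟨c, rfl⟩ := Submodule.mem_span_singleton.1 hz
    rw [map_add, map_smul, hφ y (hVV hy), hφξ, smul_zero, add_zero]
  rw [← h8, hu]
  simp only [map_sum, map_smul, smul_eq_mul]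
  refine sum_congr rfl fun q _ => ?_
  have h10 : φ (pr q j α) = φ (l q j α) := by
    rw [hpr]
    simp only [map_sub]
    rw [h9 _ (hgW _), sub_zero]
  rw [h10]
  ring

end MP60829e.ZL
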