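import Mathlib
import Pool.Agent.Lib.MP_60829e_nt.ZL.StepD

/-! # Theorem ZL, Step 2: the dimension of the space of functions -/

open Module Finset

namespace MP60829e.ZL

open MP60829e.ST (Qa Lt)

variable {m D c : ℕ} {ι : Type} [Fintype ι]

/-- The pairs `(j, S)`, `j ≤ D`, `S ⊆ {0, …, m - 1}`, `|S| ≤ j`. -/
private def PS (m D : ℕ) : Finset (ℕ × Finset ℕ) :=
  (range (D + 1) ×ˢ (range m).powerset.filter (fun S => S.card ≤ D)).filter
    (fun p => p.2.card ≤ p.1)

private theorem mem_PS {m D : ℕ} {p : ℕ × Finset ℕ} :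
    p ∈ PS m D ↔ p.1 ≤ D ∧ p.2 ∈ (range m).powerset ∧ p.2.card ≤ p.1 := by
  unfold PS
  rw [Finset.mem_filter, Finset.mem_product, Finset.mem_filter, Finset.mem_range]
  constructor
  · rintro ⟨⟨h1, h2, h3⟩, h4⟩
    exact ⟨by omega, h2, h4⟩
  · rintro ⟨h1, h2, h3⟩
    exact ⟨⟨by omega, h2, by omega⟩, h3⟩

private theorem card_PS (m D : ℕ) : (PS m D).card ≤ (D + 1) * (m + 1) ^ D := by
  unfold PS
  refine (Finset.card_filter_le _ _).trans ?_
  rw [Finset.card_product, Finset.card_range]
  exact Nat.mul_le_mul_left _ (card_small_le m D)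

/-- PROOF. `(w + ∑ t ∈ q, δ t + ξ) ^ j = ∑_{S ⊆ q} om (w + ξ) δ j S` (`pow_eq_sum_om`,
`om_eq_zero`), so for each `q` the vector `(zt m S q • l q j α)` indexed by the
`(α, j, S)`, `j ≤ D`, `S ⊆ range m`, `|S| ≤ j`, of entries in `Lt`, is orthogonal to the vector
`(a α * om (w + ξ) δ j S)`, whose entries are linearly independent over `Qa` by `FF` (and since `a` is
linearly independent). By `hpt` these vectors span a space `K` of dimension `≤ N * N`,
`N ≤ card ι * ((D + 1) * (m + 1) ^ D)` (`card_small_le`). All functions of `HH m D V ξ l` are of the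
form `q ↦ Φ (vector of q)` with `Φ` in the dual of `K`. -/
theorem finrank_HH {A : Submodule Qa ℂ} {a : ι → ℂ} (ha : LinearIndependent Qa a)
    (haA : ∀ α, a α ∈ A) {w ξ : ℂ} {δ : ℕ → ℂ} {l : Cb m → ℕ → ι → ℂ} (hl : Rl m D a w ξ δ l)
    (hFF : FF A (w + ξ) δ m D) (V : Submodule Qa ℂ) :
    finrank Qa (HH m D V ξ l) ≤ (Fintype.card ι * ((D + 1) * (m + 1) ^ D)) ^ 2 := by
  classical
  -- the vectors
  obtain ⟨av, hav⟩ : ∃ av : ι × {p // p ∈ PS m D} → ℂ,
      av = fun i => a i.1 * om (w + ξ) δ i.2.1.1 i.2.1.2 := ⟨_, rfl⟩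
  obtain ⟨vec, hvec⟩ : ∃ vec : Cb m → ι × {p // p ∈ PS m D} → ℂ,
      vec = fun q i => zt m i.2.1.2 q • l q i.2.1.1 i.1 := ⟨_, rfl⟩
  have havi : LinearIndependent Qa av := by
    rw [Fintype.linearIndependent_iff]
    intro g hg
    have h1 := hFF (fun j S => if h : (j, S) ∈ PS m D then ∑ α, g (α, ⟨(j, S), h⟩) • a α else 0)
      (fun j S => by
        split_ifs with h
        · exact Submodule.sum_mem _ fun α _ => A.smul_mem _ (haA α)
        · exact A.zero_mem) (by
        have h2 : ∀ p : ℕ × Finset ℕ, p ∉ PS m D →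
            (if h : (p.1, p.2) ∈ PS m D then ∑ α, g (α, ⟨(p.1, p.2), h⟩) • a α else 0) *
              om (w + ξ) δ p.1 p.2 = 0 := by
          intro p hp
          rw [dif_neg hp, zero_mul]
        have h3 : ∀ p : {p // p ∈ PS m D},
            (if h : (p.1.1, p.1.2) ∈ PS m D then ∑ α, g (α, ⟨(p.1.1, p.1.2), h⟩) • a α else 0) *
              om (w + ξ) δ p.1.1 p.1.2 = ∑ α, g (α, p) • av (α, p) := by
          intro p
          rw [dif_pos p.2, Finset.sum_mul, hav]
          refine Finset.sum_congr rfl fun α _ => ?_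
          rw [smul_mul_assoc]
        rw [← Finset.sum_product']
        rw [← Finset.sum_subset (s₁ := PS m D) (by
          intro p hp
          rw [mem_PS] at hp
          rw [Finset.mem_product, Finset.mem_range]
          exact ⟨by omega, hp.2.1⟩) (fun p _ hp => h2 p hp)]
        rw [← Finset.sum_coe_sort (PS m D), Finset.sum_congr rfl fun p _ => h3 p,
          Finset.sum_comm, ← Fintype.sum_prod_type', hg])
    rintro ⟨α, ⟨⟨j, S⟩, hp⟩⟩
    have hp' := mem_PS.1 hp
    have h2 := h1 j hp'.1 S hp'.2.1 hp'.2.2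
    rw [dif_pos hp] at h2
    exact Fintype.linearIndependent_iff.1 ha (fun α => g (α, ⟨(j, S), hp⟩)) h2 α
  have horth : ∀ q, ∑ i, av i * vec q i = 0 := by
    intro q
    rw [← hl.2 q, Finset.sum_comm (s := range (D + 1)), hav, hvec, Fintype.sum_prod_type]
    refine Finset.sum_congr rfl fun α _ => ?_
    have h1 : ∀ j, (w + ∑ t ∈ q.1, δ t + ξ) ^ j =
        ∑ S ∈ (range m).powerset, (zt m S q : ℂ) * om (w + ξ) δ j S := by
      intro j
      rw [show w + ∑ t ∈ q.1, δ t + ξ = w + ξ + ∑ t ∈ q.1, δ t by ring, pow_eq_sum_om]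
      have h2 : q.1.powerset ⊆ (range m).powerset :=
        Finset.powerset_mono.2 (Finset.mem_powerset.1 q.2)
      rw [← Finset.sum_subset h2 (fun S _ hS => by
        rw [Finset.mem_powerset] at hS
        unfold zt
        rw [if_neg hS]
        simp)]
      refine Finset.sum_congr rfl fun S hS => ?_
      unfold zt
      rw [if_pos (Finset.mem_powerset.1 hS)]
      simp
    symm
    calc ∑ j ∈ range (D + 1), a α * l q j α * (w + ∑ t ∈ q.1, δ t + ξ) ^ j
        = ∑ j ∈ range (D + 1), ∑ S ∈ (range m).powerset,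
            a α * om (w + ξ) δ j S * ((zt m S q : ℂ) * l q j α) := by
          refine Finset.sum_congr rfl fun j _ => ?_
          rw [h1 j, Finset.mul_sum]
          exact Finset.sum_congr rfl fun S _ => by ring
      _ = ∑ p ∈ range (D + 1) ×ˢ (range m).powerset,
            a α * om (w + ξ) δ p.1 p.2 * ((zt m p.2 q : ℂ) * l q p.1 α) := by
          rw [Finset.sum_product]
      _ = ∑ p ∈ PS m D, a α * om (w + ξ) δ p.1 p.2 * ((zt m p.2 q : ℂ) * l q p.1 α) := by
          refine (Finset.sum_subset ?_ ?_).symm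
          · intro p hp
            rw [mem_PS] at hp
            rw [Finset.mem_product, Finset.mem_range]
            exact ⟨by omega, hp.2.1⟩
          · intro p hp hp'
            rw [Finset.mem_product, Finset.mem_range] at hp
            have h3 : p.1 < p.2.card := by
              by_contra h4
              exact hp' (mem_PS.2 ⟨by omega, hp.2, by omega⟩)
            rw [om_eq_zero _ _ h3]
            ring
      _ = _ := by
          rw [← Finset.sum_coe_sort (PS m D)]
          rfl
  -- the space of the vectors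
  obtain ⟨K, hK⟩ : ∃ K : Submodule Qa (ι × {p // p ∈ PS m D} → ℂ),
      K = Submodule.span Qa (Set.range vec) := ⟨_, rfl⟩
  have hKp : ∀ v ∈ K, (∀ i, v i ∈ Lt) ∧ ∑ i, av i * v i = 0 := by
    intro v hv
    rw [hK] at hv
    induction hv using Submodule.span_induction with
    | mem v hv =>
      obtain ⟨q, rfl⟩ := hv
      refine ⟨fun i => ?_, horth q⟩
      rw [hvec]
      exact Lt.smul_mem _ (hl.1 _ _ _)
    | zero => exact ⟨fun i => Lt.zero_mem, by simp⟩
    | add v v' _ _ h1 h2 =>
      refine ⟨fun i => Lt.add_mem (h1.1 i) (h2.1 i), ?_⟩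
      simp only [Pi.add_apply, mul_add]
      rw [Finset.sum_add_distrib, h1.2, h2.2, add_zero]
    | smul k v _ h1 =>
      refine ⟨fun i => Lt.smul_mem _ (h1.1 i), ?_⟩
      simp only [Pi.smul_apply, mul_smul_comm]
      rw [← Finset.smul_sum, h1.2, smul_zero]
  obtain ⟨hKf, hKr⟩ := hpt av havi K (fun v hv => (hKp v hv).1) fun v hv => (hKp v hv).2
  have hcard : Fintype.card (ι × {p // p ∈ PS m D}) ≤
      Fintype.card ι * ((D + 1) * (m + 1) ^ D) := by
    rw [Fintype.card_prod, Fintype.card_coe]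
    exact Nat.mul_le_mul_left _ (card_PS m D)
  have hvK : ∀ q, vec q ∈ K := fun q => by
    rw [hK]
    exact Submodule.subset_span ⟨q, rfl⟩
  -- the functions
  let Λ : Module.Dual Qa K →ₗ[Qa] (Cb m → Qa) :=
    { toFun := fun Φ q => Φ ⟨vec q, hvK q⟩
      map_add' := fun Φ Ψ => rfl
      map_smul' := fun k Φ => rfl }
  have hle : HH m D V ξ l ≤ LinearMap.range Λ := by
    unfold HH
    rw [Submodule.span_le]
    rintro _ ⟨φ, -, -, j, α, S, hj, hS, hSj, rfl⟩
    have hp : (j, S) ∈ PS m D := mem_PS.2 ⟨hj, hS, hSj.le⟩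
    refine ⟨(φ ∘ₗ LinearMap.proj (α, (⟨(j, S), hp⟩ : {p // p ∈ PS m D}))) ∘ₗ K.subtype, ?_⟩
    funext q
    show φ (vec q (α, ⟨(j, S), hp⟩)) = _
    rw [hvec]
    simp only
    rw [map_smul, smul_eq_mul, mul_comm]
  have hdf : FiniteDimensional Qa (Module.Dual Qa K) := Subspace.instModuleDualFiniteDimensional
  have hrf : FiniteDimensional Qa (LinearMap.range Λ) := LinearMap.finiteDimensional_range Λ
  calc finrank Qa (HH m D V ξ l) ≤ finrank Qa (LinearMap.range Λ) := Submodule.finrank_mono hle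
    _ ≤ finrank Qa (Module.Dual Qa K) := LinearMap.finrank_range_le Λ
    _ = finrank Qa K := Subspace.dual_finrank_eq
    _ ≤ Fintype.card (ι × {p // p ∈ PS m D}) * Fintype.card (ι × {p // p ∈ PS m D}) := hKr
    _ ≤ _ := by
        rw [pow_two]
        exact Nat.mul_le_mul hcard hcard

end MP60829e.ZL
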