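import Mathlib
import Pool.Agent.Lib.MP_60829e_nt.ZL.StepD
import Pool.Agent.Lib.MP_60829e_nt.ZL.Fin
import Pool.Agent.Lib.MP_60829e_nt.ZL.StepQ

/-! # Theorem ZL, Step 2 -/

open Module Finset

namespace MP60829e.ZL

open MP60829e.ST (Qa Lt)

variable {m D c : ℕ}

/-- The coefficients of a product of polynomials. -/
theorem coeff_mul_mem {Y Z : Submodule Qa ℂ} {f g : Polynomial ℂ} (hf : ∀ i, f.coeff i ∈ Y)
    (hg : ∀ i, g.coeff i ∈ Z) (i : ℕ) : (f * g).coeff i ∈ Y * Z := by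
  rw [Polynomial.coeff_mul]
  exact Submodule.sum_mem _ fun x _ => Submodule.mul_mem_mul (hf _) (hg _)

/-- The coefficients of a sum of polynomials. -/
theorem coeff_sum_mem {κ : Type} {Y : Submodule Qa ℂ} (s : Finset κ) {f : κ → Polynomial ℂ}
    (hf : ∀ x ∈ s, ∀ i, (f x).coeff i ∈ Y) (i : ℕ) : (∑ x ∈ s, f x).coeff i ∈ Y := by
  rw [Polynomial.finsetSum_coeff]
  exact Submodule.sum_mem _ fun x hx => hf x hx i

/-- The coefficients of `(u + X) ^ j`, `u ∈ P`, `1 ∈ P`. -/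
theorem coeff_pow_mem {P : Submodule Qa ℂ} (h1 : (1 : ℂ) ∈ P) {u : ℂ} (hu : u ∈ P) {j D : ℕ}
    (hj : j ≤ D) (i : ℕ) : ((Polynomial.C u + Polynomial.X) ^ j).coeff i ∈ P ^ D := by
  rw [add_comm, Polynomial.coeff_X_add_C_pow]
  have h2 : u ^ (j - i) ∈ P ^ D :=
    pow_le_pow_of_one_mem h1 (show j - i ≤ D by omega) (Submodule.pow_mem_pow P hu _)
  rw [mul_comm, ← nsmul_eq_mul]
  exact Submodule.smul_of_tower_mem _ _ h2

theorem coeff_lin_mem {Y : Submodule Qa ℂ} {u v : ℂ} (hu : u ∈ Y) (hv : v ∈ Y) (i : ℕ) :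
    (Polynomial.C u + Polynomial.C v * Polynomial.X).coeff i ∈ Y := by
  rcases i with _ | _ | i
  · simpa using hu
  · simpa [Polynomial.coeff_C] using hv
  · have h1 : (Polynomial.C u + Polynomial.C v * Polynomial.X).coeff (i + 1 + 1) = 0 := by
      rw [Polynomial.coeff_add, Polynomial.coeff_C_mul, Polynomial.coeff_C, Polynomial.coeff_X]
      simp
    rw [h1]
    exact Y.zero_mem

/-- **Step 2.** PROOF. Write `(F q).coeff j = ∑ α, a α * l q j α` with a basis `a` of `A`, `l q j α ∈ Lt`,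
take `q` from `exists_q`, `l q j α = t j α + k j α • ξ` for `j ≥ 1`, `t j α ∈ V c`. With
`w_q = w + ∑ t ∈ q, δ t`, `x = w_q + ξ`,
`H = ∑ j ≥ 1, ∑ α, a α * (t j α + k j α X) * (w_q + X) ^ j`: coefficients in `A * P w δ m ^ D * V c`,
degree `≤ D + 1`, `H.eval ξ = - (F q).coeff 0 ∈ A * Lt`; by `hg` `H = p0 + p1 X`; `p1 ∈ A` by `LD.coeff`.
Then `F q = (X - x) * G` with `G = p1 - ∑ j ≥ 1, ∑ α, k j α • a α * X ^ j`: indeed
`F q - H.comp (X - w_q) = (F q).coeff 0 + ∑ j ≥ 1, ∑ α, a α * k j α * (x - X) * X ^ j`. -/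
theorem step2 {A : Submodule Qa ℂ} [FiniteDimensional Qa A] (V : ℕ → Submodule Qa ℂ)
    (hV1 : ∀ i, (1 : ℂ) ∈ V i) (hVm : Monotone V) (hVL : ∀ i, V i ≤ Lt) {w ξ : ℂ} {δ : ℕ → ℂ}
    (hFF : FF A w δ m D) (hFF' : FF A (w + ξ) δ m D)
    (hLD : ∀ i ≤ c, LD (A * P w δ m ^ D * V i) (V (i + 1)))
    (hg : Gen (A * P w δ m ^ D * V c) (D + 1) ξ) (hξ : ξ ∈ Lt) (hξV : ξ ∉ V (c + 1))
    (hnum : (finrank Qa A * ((D + 1) * (m + 1) ^ D)) ^ 2 < ∑ i ∈ range (c + 1), m.choose i)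
    (F : Cb m → Polynomial ℂ) (hFc : ∀ q j, (F q).coeff j ∈ A * Lt)
    (hFd : ∀ q, (F q).natDegree ≤ D)
    (hF0 : ∀ q : Cb m, (F q).eval (w + ∑ t ∈ q.1, δ t + ξ) = 0) :
    ∃ q : Cb m, ∃ G : Polynomial ℂ, (∀ j, G.coeff j ∈ A) ∧
      F q = (Polynomial.X - Polynomial.C (w + ∑ t ∈ q.1, δ t + ξ)) * G := by
  classical
  -- a basis of `A`
  obtain ⟨b⟩ : Nonempty (Basis (Fin (finrank Qa A)) Qa A) := ⟨finBasis Qa A⟩
  obtain ⟨a, ha⟩ : ∃ a : Fin (finrank Qa A) → ℂ, a = fun i => (b i : ℂ) := ⟨_, rfl⟩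
  have haA : ∀ α, a α ∈ A := by
    intro α
    rw [ha]
    exact (b α).2
  have hai : LinearIndependent Qa a := by
    rw [ha]
    exact b.linearIndependent.map' A.subtype (Submodule.ker_subtype A)
  -- the elements of `A * Lt`
  have hdec : ∀ x ∈ A * Lt, ∃ l : Fin (finrank Qa A) → ℂ, (∀ α, l α ∈ Lt) ∧ x = ∑ α, a α * l α := by
    intro x hx
    induction hx using Submodule.mul_induction_on' with
    | mem_mul_mem y hy z hz =>
      refine ⟨fun α => b.repr ⟨y, hy⟩ α • z, fun α => Lt.smul_mem _ hz, ?_⟩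
      have h1 := congrArg (fun v : A => (v : ℂ)) (b.sum_repr ⟨y, hy⟩)
      simp only [Submodule.coe_sum, Submodule.coe_smul] at h1
      have h2 : y * z = (∑ α, b.repr ⟨y, hy⟩ α • (b α : ℂ)) * z := by rw [h1]
      rw [h2, Finset.sum_mul]
      refine Finset.sum_congr rfl fun α _ => ?_
      rw [ha, smul_mul_assoc, mul_smul_comm]
    | add x _ y _ hx hy =>
      obtain ⟨l, hl, rfl⟩ := hx
      obtain ⟨l', hl', rfl⟩ := hy
      refine ⟨fun α => l α + l' α, fun α => Lt.add_mem (hl α) (hl' α), ?_⟩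
      rw [← Finset.sum_add_distrib]
      exact Finset.sum_congr rfl fun α _ => by ring
  choose l hlL hl using fun q j => hdec _ (hFc q j)
  -- the relations
  have hRl : Rl m D a w ξ δ l := by
    refine ⟨fun q j α => hlL q j α, fun q => ?_⟩
    rw [← hF0 q, Polynomial.eval_eq_sum_range' (Nat.lt_succ_of_le (hFd q))]
    refine Finset.sum_congr rfl fun j _ => ?_
    rw [hl q j, Finset.sum_mul]
  obtain ⟨q, hq⟩ := exists_q V hV1 hVm hVL hai haA hRl hFF hFF' (fun i hi => hLD i hi.le) hg hξ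
    (by rw [Fintype.card_fin]; exact hnum)
  obtain ⟨W, hW⟩ : ∃ W : ℂ, W = w + ∑ t ∈ q.1, δ t := ⟨_, rfl⟩
  have hWP : W ∈ P w δ m := by
    rw [hW]
    refine Submodule.add_mem _ (w_mem_P w δ m) (Submodule.sum_mem _ fun t ht => ?_)
    exact delta_mem_P w δ (Finset.mem_range.1 (Finset.mem_powerset.1 q.2 ht))
  have hx0 : (F q).eval (W + ξ) = 0 := by rw [hW]; exact hF0 q
  -- the parts of the `l q j α`
  have hpart : ∀ j α, ∃ t : ℂ, ∃ k : Qa, t ∈ V c ∧ (1 ≤ j → j ≤ D → l q j α = t + k • ξ) := by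
    intro j α
    by_cases hj : 1 ≤ j ∧ j ≤ D
    · obtain ⟨t, ht, y, hy, hty⟩ := Submodule.mem_sup.1 (hq j hj.1 hj.2 α)
      obtain ⟨k, rfl⟩ := Submodule.mem_span_singleton.1 hy
      exact ⟨t, k, ht, fun _ _ => hty.symm⟩
    · exact ⟨0, 0, (V c).zero_mem, fun h1 h2 => absurd ⟨h1, h2⟩ hj⟩
  choose t k htV htk using hpart
  obtain ⟨T, hT⟩ : ∃ T : ℕ → ℂ, T = fun j => ∑ α, a α * t j α := ⟨_, rfl⟩
  obtain ⟨e, he⟩ : ∃ e : ℕ → ℂ, e = fun j => ∑ α, k j α • a α := ⟨_, rfl⟩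
  have hTm : ∀ j, T j ∈ A * V c := by
    intro j
    rw [hT]
    exact Submodule.sum_mem _ fun α _ => Submodule.mul_mem_mul (haA α) (htV j α)
  have heA : ∀ j, e j ∈ A := by
    intro j
    rw [he]
    exact Submodule.sum_mem _ fun α _ => A.smul_mem _ (haA α)
  have hem : ∀ j, e j ∈ A * V c := fun j => le_mul_of_one_mem (hV1 c) (heA j)
  have hcoef : ∀ j, 1 ≤ j → j ≤ D → (F q).coeff j = T j + e j * ξ := by
    intro j hj1 hj2
    rw [hl q j, hT, he]
    simp only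
    rw [Finset.sum_mul, ← Finset.sum_add_distrib]
    refine Finset.sum_congr rfl fun α _ => ?_
    rw [htk j α hj1 hj2, mul_add, smul_mul_assoc, mul_smul_comm]
  -- the polynomial `H`
  obtain ⟨H, hH⟩ : ∃ H : Polynomial ℂ, H = ∑ j ∈ Finset.Icc 1 D,
      (Polynomial.C (T j) + Polynomial.C (e j) * Polynomial.X) *
        (Polynomial.C W + Polynomial.X) ^ j := ⟨_, rfl⟩
  have hHc : ∀ i, H.coeff i ∈ A * P w δ m ^ D * V c := by
    intro i
    rw [hH, mul_right_comm]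
    refine coeff_sum_mem _ (fun j hj i => ?_) i
    exact coeff_mul_mem (coeff_lin_mem (hTm j) (hem j))
      (coeff_pow_mem (one_mem_P w δ m) hWP (Finset.mem_Icc.1 hj).2) i
  have hHd : H.natDegree ≤ D + 1 := by
    rw [hH]
    refine Polynomial.natDegree_sum_le_of_forall_le _ _ fun j hj => ?_
    have hjD := (Finset.mem_Icc.1 hj).2
    refine Polynomial.natDegree_mul_le.trans ?_
    have h1 : (Polynomial.C (T j) + Polynomial.C (e j) * Polynomial.X).natDegree ≤ 1 := by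
      rw [add_comm]
      exact Polynomial.natDegree_linear_le
    have h2 : ((Polynomial.C W + Polynomial.X) ^ j).natDegree ≤ j := by
      refine Polynomial.natDegree_pow_le.trans ?_
      have h3 : (Polynomial.C W + Polynomial.X : Polynomial ℂ).natDegree ≤ 1 := by
        rw [add_comm]
        exact (Polynomial.natDegree_X_add_C W).le
      exact (Nat.mul_le_mul_left j h3).trans (le_of_eq (mul_one j))
    omega
  have hHe : H.eval ξ = - (F q).coeff 0 := by
    have h1 := hx0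
    rw [Polynomial.eval_eq_sum_range' (Nat.lt_succ_of_le (hFd q)), Finset.range_eq_Ico,
      Finset.sum_eq_sum_Ico_succ_bot (Nat.succ_pos D), pow_zero, mul_one] at h1
    have h2 : H.eval ξ = ∑ j ∈ Finset.Ico (0 + 1) (D + 1), (F q).coeff j * (W + ξ) ^ j := by
      rw [hH, Polynomial.eval_finsetSum]
      refine Finset.sum_congr rfl fun j hj => ?_
      obtain ⟨h3, h4⟩ := Finset.mem_Icc.1 hj
      rw [hcoef j h3 h4]
      simp only [Polynomial.eval_mul, Polynomial.eval_add, Polynomial.eval_C, Polynomial.eval_X,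
        Polynomial.eval_pow]
    rw [h2]
    linear_combination h1
  have hF0m : - (F q).coeff 0 ∈ A * Lt := Submodule.neg_mem _ (hFc q 0)
  have hAY : A ≤ A * P w δ m ^ D * V c :=
    (le_mul_of_one_mem (one_mem_pow (one_mem_P w δ m) D)).trans (le_mul_of_one_mem (hV1 c))
  have hH1 : H.natDegree ≤ 1 := by
    refine hg H hHc hHd ?_
    rw [hHe]
    exact (mul_le_mul_left hAY Lt : A * Lt ≤ _) hF0m
  have hHl : H = Polynomial.C (H.coeff 0) + Polynomial.C (H.coeff 1) * Polynomial.X := by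
    conv_lhs => rw [Polynomial.eq_X_add_C_of_natDegree_le_one hH1]
    rw [add_comm]
  have hp1 : H.coeff 1 ∈ A := by
    refine LD.coeff (hLD c le_rfl) (hV1 (c + 1)) hAY hξ hξV (hHc 0) (hHc 1) hF0m ?_
    rw [← hHe]
    conv_rhs => rw [hHl]
    simp only [Polynomial.eval_mul, Polynomial.eval_add, Polynomial.eval_C, Polynomial.eval_X]
  have hfin := final_identity (hFd q) hx0 T e hcoef (hH.symm.trans hHl)
  refine ⟨q, Polynomial.C (H.coeff 1) -
    ∑ j ∈ Finset.Icc 1 D, Polynomial.C (e j) * Polynomial.X ^ j, ?_, by rw [← hW]; exact hfin⟩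
  · intro i
    rw [Polynomial.coeff_sub]
    refine A.sub_mem ?_ ?_
    · rw [Polynomial.coeff_C]
      split_ifs
      · exact hp1
      · exact A.zero_mem
    · refine coeff_sum_mem _ (fun j _ i => ?_) i
      rw [Polynomial.coeff_C_mul, Polynomial.coeff_X_pow]
      split_ifs
      · rw [mul_one]
        exact heA j
      · rw [mul_zero]
        exact A.zero_mem

end MP60829e.ZL
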