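import Mathlib
import Pool.Agent.Lib.MP_60829e_nt.ZL.StepF

/-! # Theorem ZL, Step 2: all files -/
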