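import Mathlib
import Pool.Agent.Lib.MP_60829e_nt.ZL.GenA
import Pool.Agent.Lib.MP_60829e_nt.ZL.Free
import Pool.Agent.Lib.MP_60829e_nt.ZL.StepB
import Pool.Agent.Lib.MP_60829e_nt.ZL.Chain
import Pool.Agent.Lib.MP_60829e_nt.ZL.Cube

/-! # Theorem ZL: the grid theorem -/

open Module Finset

namespace MP60829e.ZL

open MP60829e.ST (Qa Lt)

/-- **The grid theorem.** PROOF. `c = 2 D + 1`, `m` from `exists_num2`, `w`, `δ` from `exists_cube`,
the chain for `Y = E * P w δ m ^ D`, `ξ` from `exists_gen` (`u = 0`) for `Y * V c`, `D + 1` and the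
space `V (c + 1) ⊔ V ⊔ P w δ m`; `FF.add`. If no point is good take bad `F q` for all `q` and apply
`step2`. The point `w + ∑ t ∈ q, δ t + ξ` is not in `V` since `ξ ∉ V ⊔ P w δ m`. -/
theorem grid (κ D ν : ℕ) : ∃ r T : ℕ, ∀ E V : Submodule Qa ℂ, FiniteDimensional Qa E →
    FiniteDimensional Qa V → finrank Qa E ≤ κ → finrank Qa V ≤ ν → ∀ u ∈ Lt, ∀ R : ℕ → Set ℂ,
    (∀ i < r, Row T (R i)) → ∃ s : ℕ → ℂ, (∀ i < r, s i ∈ R i) ∧
      Good E D (u + ∑ i ∈ range r, s i) ∧ u + ∑ i ∈ range r, s i ∉ V := by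
  classical
  obtain ⟨m, hm⟩ := exists_num2 ((κ * (D + 1)) ^ 2) (2 * D)
  obtain ⟨M1, T1, hcube⟩ := exists_cube κ D m
  obtain ⟨N, hchain⟩ := exists_chain (κ * (m + 2) ^ D) (2 * D + 1)
  obtain ⟨M2, T2, hgen⟩ := exists_gen (κ * (m + 2) ^ D * N) (D + 1) (N + ν + (m + 2))
  refine ⟨M1 + M2, max T1 T2, ?_⟩
  intro E V hEf hVf hE hV u hu R hR
  obtain ⟨w, δ, hFF, hw, hδ, hs⟩ := hcube E hEf hE u hu R fun i hi =>
    (hR i (by omega)).mono (le_max_left _ _)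
  have hYd : finrank Qa (E * P w δ m ^ D : Submodule Qa ℂ) ≤ κ * (m + 2) ^ D := by
    refine (finrank_mul_le _ _).trans (Nat.mul_le_mul hE ?_)
    exact (finrank_pow_le _ _).trans (Nat.pow_le_pow_left (finrank_P w δ m) D)
  obtain ⟨W, hW1, hWm, hWL, hWLD, hWf, hWd⟩ := hchain (E * P w δ m ^ D) inferInstance hYd
  have := hWf (2 * D + 1)
  have := hWf (2 * D + 1 + 1)
  have hYV : finrank Qa (E * P w δ m ^ D * W (2 * D + 1) : Submodule Qa ℂ) ≤
      κ * (m + 2) ^ D * N :=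
    (finrank_mul_le _ _).trans (Nat.mul_le_mul hYd (hWd _ (by omega)))
  have hVd : finrank Qa (W (2 * D + 1 + 1) ⊔ V ⊔ P w δ m : Submodule Qa ℂ) ≤
      N + ν + (m + 2) := by
    have h4 := Submodule.finrank_add_le_finrank_add_finrank (W (2 * D + 1 + 1) ⊔ V) (P w δ m)
    have h5 := Submodule.finrank_add_le_finrank_add_finrank (W (2 * D + 1 + 1)) V
    have h6 := finrank_P w δ m
    have h7 := hWd (2 * D + 1 + 1) (by omega)
    omega
  obtain ⟨s2, hs2R, hs2g, hs2V⟩ := hgen (E * P w δ m ^ D * W (2 * D + 1))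
    (W (2 * D + 1 + 1) ⊔ V ⊔ P w δ m) inferInstance inferInstance hYV hVd 0
    (fun i => R (M1 + i)) fun i hi => (hR (M1 + i) (by omega)).mono (le_max_right _ _)
  rw [zero_add] at hs2g hs2V
  obtain ⟨ξ, hξ⟩ : ∃ ξ : ℂ, ξ = ∑ i ∈ range M2, s2 i := ⟨_, rfl⟩
  rw [← hξ] at hs2g hs2V
  have hξL : ξ ∈ Lt := by
    rw [hξ]
    refine Submodule.sum_mem _ fun i hi => ?_
    have hi' := Finset.mem_range.1 hi
    exact (hR (M1 + i) (by omega)).2.1 _ (hs2R i hi')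
  have hξW : ξ ∉ W (2 * D + 1 + 1) := fun h => hs2V
    (Submodule.mem_sup_left (Submodule.mem_sup_left h))
  have hYW : ∀ i, E * P w δ m ^ D ≤ E * P w δ m ^ D * W i := fun i => le_mul_of_one_mem (hW1 i)
  have hFF' : FF E (w + ξ) δ m D := by
    refine hFF.add ((hWLD 0).mono (hYW 0) le_rfl) (hW1 1)
      (hs2g.mono (hYW _) (Nat.le_succ D)) hξL fun h => hξW ?_
    exact hWm (by omega : 1 ≤ 2 * D + 1 + 1) h
  -- a good point of the cube
  obtain ⟨q, hq⟩ : ∃ q : Cb m, Good E D (w + ∑ t ∈ q.1, δ t + ξ) := by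
    by_contra hcon
    push Not at hcon
    have hF : ∀ q : Cb m, ∃ F : Polynomial ℂ, (∀ j, F.coeff j ∈ E * Lt) ∧ F.natDegree ≤ D ∧
        F.eval (w + ∑ t ∈ q.1, δ t + ξ) = 0 ∧ ¬ ∃ G : Polynomial ℂ, (∀ j, G.coeff j ∈ E) ∧
          F = (Polynomial.X - Polynomial.C (w + ∑ t ∈ q.1, δ t + ξ)) * G := by
      intro q
      have h2 := hcon q
      unfold Good at h2
      push Not at h2
      obtain ⟨F, h3, h4, h5, h6⟩ := h2
      refine ⟨F, h3, h4, h5, ?_⟩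
      rintro ⟨G, hG, hG'⟩
      exact h6 G hG hG'
    choose F hFc hFd hF0 hFG using hF
    obtain ⟨q, G, hG, hG'⟩ := step2 (c := 2 * D + 1) W hW1 hWm hWL hFF hFF'
      (fun i _ => hWLD i) hs2g hξL hξW (by
        refine lt_of_le_of_lt ?_ hm
        calc (finrank Qa E * ((D + 1) * (m + 1) ^ D)) ^ 2
            ≤ (κ * ((D + 1) * (m + 1) ^ D)) ^ 2 :=
              Nat.pow_le_pow_left (Nat.mul_le_mul_right _ hE) 2
          _ = (κ * (D + 1)) ^ 2 * (m + 1) ^ (2 * D) := by ring) F hFc hFd hF0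
    exact hFG q ⟨G, hG, hG'⟩
  obtain ⟨s1, hs1R, hs1⟩ := hs q.1 q.2
  obtain ⟨s, hsd⟩ : ∃ s : ℕ → ℂ, s = fun i => if i < M1 then s1 i else s2 (i - M1) := ⟨_, rfl⟩
  have hsum : u + ∑ i ∈ range (M1 + M2), s i = w + ∑ t ∈ q.1, δ t + ξ := by
    rw [Finset.sum_range_add, ← add_assoc, hs1, hξ]
    congr 1
    · congr 1
      refine Finset.sum_congr rfl fun i hi => ?_
      rw [hsd]
      dsimp only
      rw [if_pos (Finset.mem_range.1 hi)]
    · refine Finset.sum_congr rfl fun i _ => ?_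
      rw [hsd]
      dsimp only
      rw [if_neg (by omega), Nat.add_sub_cancel_left]
  refine ⟨s, fun i hi => ?_, ?_, ?_⟩
  · rw [hsd]
    dsimp only
    split_ifs with h
    · exact hs1R i h
    · have h2 := hs2R (i - M1) (by omega)
      rwa [show M1 + (i - M1) = i by omega] at h2
  · rw [hsum]
    exact hq
  · rw [hsum]
    intro h
    apply hs2V
    rw [sup_assoc]
    refine Submodule.mem_sup_right ?_
    have h5 : ξ = (w + ∑ t ∈ q.1, δ t + ξ) + -(w + ∑ t ∈ q.1, δ t) := by ring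
    rw [h5]
    refine Submodule.add_mem_sup h (Submodule.neg_mem _ (Submodule.add_mem _ (w_mem_P w δ m) ?_))
    exact Submodule.sum_mem _ fun t ht =>
      delta_mem_P w δ (Finset.mem_range.1 (Finset.mem_powerset.1 q.2 ht))

end MP60829e.ZL
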