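import Mathlib
import Pool.Agent.Lib.MP_60829e_nt.ZL.Defs
import Pool.Agent.Lib.MP_60829e_nt.SK.Row
import Pool.Agent.Lib.MP_60829e_nt.SE.Count1

/-! # Theorem ZL: rows of logarithms of primes, from a grid statement to a count of integers -/

open Module Finset

namespace MP60829e.ZL

open MP60829e.ST (Qa Lt)
open MP60829e.SK (rowSet finrank_row)
open MP60829e.Rate (GridFree)

private theorem isAlgebraic_exp_log_nat (b : ℕ) :
    IsAlgebraic ℚ (Complex.exp ((Real.log b : ℝ) : ℂ)) := by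
  rw [← Complex.ofReal_exp]
  rcases Nat.eq_zero_or_pos b with h | h
  · subst h
    simpa using (isAlgebraic_one : IsAlgebraic ℚ (1 : ℂ))
  · rw [Real.exp_log (by exact_mod_cast h)]
    simpa using (isAlgebraic_natCast b : IsAlgebraic ℚ ((b : ℕ) : ℂ))

/-- Logarithms of natural numbers are in `Lt`. -/
theorem log_mem_Lt (b : ℕ) : ((Real.log b : ℝ) : ℂ) ∈ Lt :=
  Submodule.subset_span (Or.inr (isAlgebraic_exp_log_nat b))

/-- The differences of the logarithms of `T + 1` different primes are a row. -/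
theorem row_rowSet {T : ℕ} (q : Fin (T + 1) → ℕ) (hq : ∀ a, (q a).Prime)
    (hinj : Function.Injective q) : Row T (rowSet q) := by
  refine ⟨⟨0, by simp⟩, ?_, fun V hV hVT => ?_⟩
  · rintro _ ⟨a, rfl⟩
    exact Lt.sub_mem (log_mem_Lt _) (log_mem_Lt _)
  · by_contra hcon
    push Not at hcon
    have h1 : Submodule.span Qa (rowSet q) ≤ V := Submodule.span_le.mpr hcon
    have h2 := Submodule.finrank_mono h1
    have halg : Algebra.IsAlgebraic ℚ Qa := algebraicClosure.isAlgebraic ℚ ℂ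
    rw [finrank_row q hq hinj] at h2
    omega

private theorem log_box {r T : ℕ} (M : ℕ) (hM : 1 ≤ M) (q : Fin r → Fin (T + 1) → ℕ)
    (hq : ∀ i a, (q i a).Prime) (c : Fin r → Fin (T + 1)) :
    ((Real.log ((M * ∏ i, q i (c i) : ℕ) : ℝ) : ℝ) : ℂ) =
      (((Real.log M : ℝ) : ℂ) + ∑ i, ((Real.log (q i 0) : ℝ) : ℂ)) +
        ∑ i, (((Real.log (q i (c i)) : ℝ) : ℂ) - ((Real.log (q i 0) : ℝ) : ℂ)) := by
  have hpos : ∀ i (b : Fin (T + 1)), ((q i b : ℕ) : ℝ) ≠ 0 := fun i b => by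
    exact_mod_cast (hq i b).ne_zero
  have hM0 : (M : ℝ) ≠ 0 := by
    have : M ≠ 0 := by omega
    exact_mod_cast this
  have h1 : Real.log ((M * ∏ i, q i (c i) : ℕ) : ℝ) =
      Real.log M + ∑ i, Real.log (q i (c i)) := by
    push_cast
    rw [Real.log_mul hM0 (Finset.prod_ne_zero_iff.mpr fun i _ => hpos i _),
      Real.log_prod (fun i _ => hpos i _)]
  rw [h1, Complex.ofReal_add, Complex.ofReal_sum, Finset.sum_sub_distrib]
  ring

/-- If every grid of rows contains a number with the property `P`, then the integers `b` such that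
`log b` does not have the property contain no box of primes. -/
theorem gridFree_of_good (r T : ℕ) (P : ℂ → Prop)
    (h : ∀ (u : ℂ) (R : Fin r → Set ℂ), u ∈ Lt → (∀ i, Row T (R i)) →
      ∃ x : Fin r → ℂ, (∀ i, x i ∈ R i) ∧ P (u + ∑ i, x i)) :
    GridFree r (T + 1) {b : ℕ | ¬ P ((Real.log b : ℝ) : ℂ)} := by
  intro M hM q hq hinj
  obtain ⟨x, hx, hP⟩ := h (((Real.log M : ℝ) : ℂ) + ∑ i, ((Real.log (q i 0) : ℝ) : ℂ))
    (fun i => rowSet (q i)) (Lt.add_mem (log_mem_Lt _) (Lt.sum_mem fun i _ => log_mem_Lt _))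
    (fun i => row_rowSet (q i) (hq i) (hinj i))
  choose c hc using hx
  refine ⟨c, fun hcon => hcon ?_⟩
  rw [log_box M hM q hq c]
  have h2 : ∑ i, (((Real.log (q i (c i)) : ℝ) : ℂ) - ((Real.log (q i 0) : ℝ) : ℂ)) = ∑ i, x i :=
    Finset.sum_congr rfl fun i _ => hc i
  rw [h2]
  exact hP

/-- The count: `C` depends only on the number and the size of the rows. -/
theorem count_of_good (r T : ℕ) (hr : 1 ≤ r) (hT : 1 ≤ T) : ∃ C : ℕ, ∀ P : ℂ → Prop,
    (∀ (u : ℂ) (R : Fin r → Set ℂ), u ∈ Lt → (∀ i, Row T (R i)) →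
      ∃ x : Fin r → ℂ, (∀ i, x i ∈ R i) ∧ P (u + ∑ i, x i)) →
    ∀ B : ℕ, 16 ≤ B →
      ({b : ℕ | 1 ≤ b ∧ b ≤ B ∧ ¬ P ((Real.log b : ℝ) : ℂ)}.ncard : ℝ) ≤
        C * Real.log (Real.log B) ^ C / Real.log B * B := by
  obtain ⟨C, hC⟩ := MP60829e.SE.count_gridFree r (T + 1) hr (by omega)
  exact ⟨C, fun P hP B hB => hC _ (gridFree_of_good r T P hP) B hB⟩

end MP60829e.ZL
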