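import Mathlib
import Pool.Agent.Lib.MP_60829e_nt.ZL.Grid
import Pool.Agent.Lib.MP_60829e_nt.ZL.Fin
import Pool.Agent.Lib.MP_60829e_nt.ZL.RowN

/-! # Theorem ZL: one integer -/

open Module Finset Polynomial

namespace MP60829e.ZL

open MP60829e.ST (Qa Lt)
open MP60829e.Rate (GridFree)

private theorem co_mul {S S' : Submodule Qa ℂ} {p p' : ℂ[X]} (hp : ∀ j, p.coeff j ∈ S)
    (hp' : ∀ j, p'.coeff j ∈ S') (j : ℕ) : (p * p').coeff j ∈ S * S' := by
  rw [coeff_mul]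
  exact Submodule.sum_mem _ fun x _ => Submodule.mul_mem_mul (hp _) (hp' _)

private theorem co_pow {S : Submodule Qa ℂ} {p : ℂ[X]} (hp : ∀ j, p.coeff j ∈ S) (k : ℕ) :
    ∀ j, (p ^ k).coeff j ∈ S ^ k := by
  induction k with
  | zero =>
    intro j
    rw [pow_zero, pow_zero, coeff_one]
    split_ifs
    · exact Submodule.one_le.1 le_rfl
    · exact Submodule.zero_mem _
  | succ k ih =>
    intro j
    rw [pow_succ, pow_succ]
    exact co_mul ih hp j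

private theorem co_comp {S E : Submodule Qa ℂ} (h1 : (1 : ℂ) ∈ E) {p r : ℂ[X]} {D : ℕ}
    (hp : ∀ j, p.coeff j ∈ S) (hd : p.natDegree ≤ D) (hr : ∀ j, r.coeff j ∈ E) (j : ℕ) :
    (p.comp r).coeff j ∈ S * E ^ D := by
  rw [comp_eq_sum_left, Polynomial.sum, finsetSum_coeff]
  refine Submodule.sum_mem _ fun e he => ?_
  rw [coeff_C_mul]
  refine Submodule.mul_mem_mul (hp e) ?_
  exact pow_le_pow_of_one_mem h1 ((le_natDegree_of_mem_supp e he).trans hd) (co_pow hr e j)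

private theorem co_lin {E : Submodule Qa ℂ} (h1 : (1 : ℂ) ∈ E) (q : Qa) {h : ℂ} (hh : h ∈ E)
    (j : ℕ) : (C (q : ℂ) * X + C h).coeff j ∈ E := by
  rw [coeff_add, coeff_C_mul, coeff_X, coeff_C]
  refine E.add_mem ?_ ?_
  · split_ifs
    · exact E.smul_mem q h1
    · rw [mul_zero]
      exact E.zero_mem
  · split_ifs
    · exact hh
    · exact E.zero_mem

/-- PROOF. `F' = F.comp (C q * X + C h)` has coefficients in `E ^ (D + 1) * Lt` and the root `x`, so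
`F' = (X - C x) * G'` with `G'` over `E ^ (D + 1)`; `F = (X - C (q x + h)) * G`,
`G = C q⁻¹ * G'.comp (C q⁻¹ * (X - C h))`, coefficients in `E ^ (2 D + 1)` (degree of `G'` at most
`D`). Comparing coefficients, `G.coeff (j - 1) - (q x + h) * G.coeff j = F.coeff j = e + (element of A * Lt)`,
so `LD.coeff` with `Y = E ^ (2 D + 2)` gives `q * G.coeff j ∈ A`. -/
theorem good_all {E V : Submodule Qa ℂ} {D : ℕ} {x : ℂ} (hE : (1 : ℂ) ∈ E) (hx : x ∈ Lt)
    (hG : Good (E ^ (D + 1)) D x) (hLD : LD (E ^ (2 * D + 2)) V) (h1 : (1 : ℂ) ∈ V) (hxV : x ∉ V)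
    (q : Qa) (hq : q ≠ 0) (h : ℂ) (hh : h ∈ E) (A : Submodule Qa ℂ) (hA : A ≤ E) (F : ℂ[X])
    (hF : ∀ j, F.coeff j ∈ E ⊔ A * Lt) (hD : F.natDegree ≤ D) (h0 : F.eval (q * x + h) = 0) :
    ∃ G : ℂ[X], (∀ j, G.coeff j ∈ A) ∧ F = (X - C (q * x + h)) * G := by
  have hqC : (q : ℂ) ≠ 0 := by
    intro h2
    exact hq (Subtype.ext h2)
  have h1L : (1 : ℂ) ∈ Lt := Submodule.subset_span (Or.inl rfl)
  -- the polynomial in the logarithm
  obtain ⟨r, hr⟩ : ∃ r : ℂ[X], r = C (q : ℂ) * X + C h := ⟨_, rfl⟩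
  obtain ⟨s, hs⟩ : ∃ s : ℂ[X], s = C ((q⁻¹ : Qa) : ℂ) * X + C (-((q⁻¹ : Qa) : ℂ) * h) := ⟨_, rfl⟩
  have hinv : ((q⁻¹ : Qa) : ℂ) = (q : ℂ)⁻¹ := rfl
  have hrs : r.comp s = X := by
    rw [hr, hs, hinv]
    simp only [add_comp, mul_comp, C_comp, X_comp]
    rw [mul_add, ← mul_assoc, ← C_mul, mul_inv_cancel₀ hqC, C_1, one_mul, ← C_mul, add_assoc,
      ← C_add]
    have : (q : ℂ) * (-(q : ℂ)⁻¹ * h) + h = 0 := by
      field_simp
      ring
    rw [this, C_0, add_zero]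
  obtain ⟨F', hF'⟩ : ∃ F' : ℂ[X], F' = F.comp r := ⟨_, rfl⟩
  have hF'c : ∀ j, F'.coeff j ∈ E ^ (D + 1) * Lt := by
    intro j
    have h3 : ∀ j, F.coeff j ∈ E * Lt := fun j =>
      (sup_le (le_mul_of_one_mem h1L) (mul_le_mul' hA le_rfl) : E ⊔ A * Lt ≤ E * Lt) (hF j)
    have hrc : ∀ j, r.coeff j ∈ E := fun j => by
      rw [hr]
      exact co_lin hE q hh j
    have h4 := co_comp hE h3 hD hrc j
    rw [← hF'] at h4
    rwa [mul_right_comm, ← pow_succ'] at h4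
  have hrd : r.natDegree ≤ 1 := by
    rw [hr]
    exact natDegree_linear_le
  have hF'd : F'.natDegree ≤ D := by
    rw [hF']
    refine natDegree_comp_le.trans ?_
    calc F.natDegree * r.natDegree ≤ D * 1 := Nat.mul_le_mul hD hrd
      _ = D := mul_one D
  have hF'0 : F'.eval x = 0 := by
    rw [hF', eval_comp, hr]
    simpa using h0
  obtain ⟨G', hG'c, hG'⟩ := hG F' hF'c hF'd hF'0
  have hG'd : G'.natDegree ≤ D := by
    by_cases h5 : G' = 0
    · rw [h5, natDegree_zero]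
      exact Nat.zero_le _
    · rw [hG', natDegree_mul (X_sub_C_ne_zero _) h5, natDegree_X_sub_C] at hF'd
      omega
  obtain ⟨G, hGdef⟩ : ∃ G : ℂ[X], G = C ((q⁻¹ : Qa) : ℂ) * G'.comp s := ⟨_, rfl⟩
  have hsc : ∀ j, s.coeff j ∈ E := by
    intro j
    rw [hs]
    refine co_lin hE q⁻¹ ?_ j
    rw [neg_mul]
    exact E.neg_mem (E.smul_mem (q⁻¹) hh)
  have hGc : ∀ j, G.coeff j ∈ E ^ (2 * D + 1) := by
    intro j
    rw [hGdef, coeff_C_mul]
    have h6 := co_comp hE hG'c hG'd hsc j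
    rw [← pow_add, show D + 1 + D = 2 * D + 1 by ring] at h6
    exact (E ^ (2 * D + 1)).smul_mem (q⁻¹) h6
  have hFG : F = (X - C (q * x + h)) * G := by
    have h7 : F = F'.comp s := by
      rw [hF', comp_assoc, hrs, comp_X]
    rw [h7, hG', mul_comp, sub_comp, X_comp, C_comp, hGdef, hs, hinv, ← mul_assoc]
    congr 1
    rw [sub_mul, C_add, C_mul, add_mul, C_mul]
    have e1 : C (q : ℂ) * C x * C (q : ℂ)⁻¹ = C x := by
      rw [← C_mul, ← C_mul]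
      congr 1
      field_simp
    rw [e1, C_neg]
    ring
  refine ⟨G, ?_, hFG⟩
  have hle : E ≤ E ^ (2 * D + 2) := by
    have := pow_le_pow_of_one_mem hE (show 1 ≤ 2 * D + 2 by omega)
    rwa [pow_one] at this
  have hsmul : (q : ℂ) * x + h = q • x + h := rfl
  intro j
  refine two_space (h := h) hLD h1 (hA.trans hle) hq hx hxV G
    (fun j => pow_le_pow_of_one_mem hE (by omega) (hGc j)) (fun j => ?_) (fun j => ?_) j
  · have h8 := Submodule.mul_mem_mul hh (hGc j)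
    rw [← pow_succ'] at h8
    exact h8
  · rw [← hsmul, ← hFG]
    exact (sup_le_sup hle le_rfl : E ⊔ A * Lt ≤ E ^ (2 * D + 2) ⊔ A * Lt) (hF j)

/-- The bad integers. -/
def BadOne (E : Submodule Qa ℂ) (D : ℕ) : Set ℕ :=
  {b | ∃ q : Qa, q ≠ 0 ∧ ∃ h ∈ E, ∃ A ≤ E, ∃ F : ℂ[X], (∀ j, F.coeff j ∈ E ⊔ A * Lt) ∧
    F.natDegree ≤ D ∧ F.eval (q * ((Real.log b : ℝ) : ℂ) + h) = 0 ∧
    ¬ ∃ G : ℂ[X], (∀ j, G.coeff j ∈ A) ∧ F = (X - C (q * ((Real.log b : ℝ) : ℂ) + h)) * G}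

/-- PROOF. `(r, T)` from `grid`, for the dimension of `E ^ (D + 1)` and of the space `V` of `exists_LD`
for `E ^ (2 D + 2)`; `t = T + 1`. Rows `R i = {log (q i a) - log (q i 0)}` (`SK.finrank_row` with
`𝕜 = Qa`: a set whose span has dimension `t - 1 ≥ T`), `u = log M + ∑ i, log (q i 0)`. The point
`x = u + ∑ s i` of `grid` is the logarithm of `M * ∏ i, q i (c i)`, and `good_all` applies. -/
theorem gridFree_one (κ D : ℕ) : ∃ r t : ℕ, 1 ≤ r ∧ 2 ≤ t ∧ ∀ E : Submodule Qa ℂ,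
    FiniteDimensional Qa E → finrank Qa E ≤ κ → (1 : ℂ) ∈ E → GridFree r t (BadOne E D) := by
  classical
  obtain ⟨r, T, hrT⟩ := grid (κ ^ (D + 1)) D ((κ ^ (2 * D + 2)) ^ 3 + 1)
  refine ⟨r + 1, T + 1 + 1, by omega, by omega, fun E hfd hκ h1E => ?_⟩
  obtain ⟨V, -, h1V, hVfd, hVr, hLD⟩ := exists_LD (E ^ (2 * D + 2))
  have hVν : finrank Qa V ≤ (κ ^ (2 * D + 2)) ^ 3 + 1 := by
    refine hVr.trans (Nat.succ_le_succ (Nat.pow_le_pow_left ?_ 3))
    exact (finrank_pow_le E _).trans (Nat.pow_le_pow_left hκ _)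
  have hEκ : finrank Qa (E ^ (D + 1) : Submodule Qa ℂ) ≤ κ ^ (D + 1) :=
    (finrank_pow_le E _).trans (Nat.pow_le_pow_left hκ _)
  have hgf := gridFree_of_good (r + 1) (T + 1) (fun x => Good (E ^ (D + 1)) D x ∧ x ∉ V) (by
    intro u R hu hR
    obtain ⟨s, hs, hgood, hsV⟩ := hrT (E ^ (D + 1)) V inferInstance hVfd hEκ hVν u hu
      (fun i => if h : i < r + 1 then R ⟨i, h⟩ else {0}) (by
        intro i hi
        have hi' : i < r + 1 := by omega
        rw [dif_pos hi']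
        exact (hR ⟨i, hi'⟩).mono (by omega))
    refine ⟨fun i => if (i : ℕ) < r then s i else 0, ?_, ?_⟩
    · intro i
      dsimp only
      split_ifs with hi
      · have h3 := hs i hi
        rw [dif_pos i.2] at h3
        exact h3
      · exact (hR i).1
    · have h4 : ∑ i : Fin (r + 1), (if (i : ℕ) < r then s i else 0) =
          ∑ i ∈ range r, s i := by
        rw [Fin.sum_univ_eq_sum_range (fun i => if i < r then s i else 0) (r + 1),
          Finset.sum_range_succ, if_neg (lt_irrefl r), add_zero]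
        exact Finset.sum_congr rfl fun i hi => if_pos (Finset.mem_range.1 hi)
      rw [h4]
      exact ⟨hgood, hsV⟩)
  intro M hM p hp hinj
  obtain ⟨c, hc⟩ := hgf M hM p hp hinj
  refine ⟨c, fun hbad => hc ?_⟩
  rintro ⟨hgood, hlogV⟩
  obtain ⟨q, hq, h, hh, A, hA, F, hF, hFd, hF0, hcon⟩ := hbad
  exact hcon (good_all h1E (log_mem_Lt _) hgood hLD h1V hlogV q hq h hh A hA F hF hFd hF0)

/-- PROOF: `gridFree_one`, `SE.count_gridFree`. -/
theorem count_one (κ D : ℕ) : ∃ K : ℕ, ∀ E : Submodule Qa ℂ, FiniteDimensional Qa E →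
    finrank Qa E ≤ κ → (1 : ℂ) ∈ E → ∀ B : ℕ, 16 ≤ B →
      ({b : ℕ | 1 ≤ b ∧ b ≤ B ∧ b ∈ BadOne E D}.ncard : ℝ) ≤
        K * Real.log (Real.log B) ^ K / Real.log B * B := by
  obtain ⟨r, t, hr, ht, h⟩ := gridFree_one κ D
  obtain ⟨K, hK⟩ := MP60829e.SE.count_gridFree r t hr ht
  exact ⟨K, fun E hfd hκ h1 B hB => hK _ (h E hfd hκ h1) B hB⟩

end MP60829e.ZL
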