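import Pool.Agent.Lib.MP_60829e_nt.ZL.Defs

/-! # Theorem ZL: from one variable to several variables -/

open Module MvPolynomial

namespace MP60829e.ZL

open MP60829e.ST (Qa Lt)

/-- the span of `1` and the `x i` -/
noncomputable def Sx {n : ℕ} (x : Fin n → ℂ) : Submodule Qa ℂ :=
  Submodule.span Qa ({1} ∪ Set.range x)

/-- The two-space property: for every `A ≤ E`, every polynomial of degree at most `D` with
coefficients in `E + A * Lt` and root `y` is `X - y` times a polynomial over `A`. -/
def Good2 (E : Submodule Qa ℂ) (D : ℕ) (y : ℂ) : Prop :=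
  ∀ A ≤ E, ∀ F : Polynomial ℂ, (∀ j, F.coeff j ∈ E ⊔ A * Lt) → F.natDegree ≤ D → F.eval y = 0 →
    ∃ G : Polynomial ℂ, (∀ j, G.coeff j ∈ A) ∧ F = (Polynomial.X - Polynomial.C y) * G

/-- each coordinate has the two-space property relative to the following ones -/
def GoodT (E : Submodule Qa ℂ) (D : ℕ) : (n : ℕ) → (Fin n → ℂ) → Prop
  | 0, _ => True
  | n + 1, x => Good2 (E * Sx (Fin.tail x) ^ D) D (x 0) ∧ GoodT E D n (Fin.tail x)

theorem one_mem_Sx {n : ℕ} (x : Fin n → ℂ) : (1 : ℂ) ∈ Sx x := Submodule.subset_span (Or.inl rfl)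

theorem mem_Sx {n : ℕ} (x : Fin n → ℂ) (i : Fin n) : x i ∈ Sx x :=
  Submodule.subset_span (Or.inr ⟨i, rfl⟩)

theorem Sx_pow_mono {n : ℕ} (x : Fin n → ℂ) {m m' : ℕ} (h : m ≤ m') : Sx x ^ m ≤ Sx x ^ m' := by
  obtain ⟨k, rfl⟩ := Nat.exists_eq_add_of_le h
  clear h
  induction k with
  | zero => rw [add_zero]
  | succ k ih =>
    refine ih.trans ?_
    rw [← add_assoc, pow_succ (Sx x) (m + k)]
    intro a ha
    rw [← mul_one a]
    exact Submodule.mul_mem_mul ha (one_mem_Sx x)

theorem mon_mem {n : ℕ} (x : Fin n → ℂ) (a : Fin n → ℕ) (s : Finset (Fin n)) :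
    ∏ i ∈ s, x i ^ a i ∈ Sx x ^ (∑ i ∈ s, a i) := by
  classical
  induction s using Finset.induction_on with
  | empty =>
    rw [Finset.prod_empty, Finset.sum_empty, pow_zero]
    exact Submodule.one_le.1 le_rfl
  | insert i s hi ih =>
    rw [Finset.prod_insert hi, Finset.sum_insert hi, pow_add]
    exact Submodule.mul_mem_mul (Submodule.pow_mem_pow _ (mem_Sx x i) _) ih

/-- The value at `x` of a polynomial with coefficients in `S`. -/
theorem eval_mem {n D : ℕ} (x : Fin n → ℂ) (S : Submodule Qa ℂ) (F : MvPolynomial (Fin n) ℂ)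
    (hF : ∀ a, coeff a F ∈ S) (hD : F.totalDegree ≤ D) : eval x F ∈ S * Sx x ^ D := by
  classical
  rw [eval_eq]
  refine Submodule.sum_mem _ fun a ha => Submodule.mul_mem_mul (hF a) ?_
  have h1 : ∏ i ∈ a.support, x i ^ a i = ∏ i, x i ^ a i := by
    refine Finset.prod_subset (Finset.subset_univ _) fun i _ hi => ?_
    rw [Finsupp.notMem_support_iff.1 hi, pow_zero]
  rw [h1]
  refine Sx_pow_mono x ?_ (mon_mem x a Finset.univ)
  refine le_trans (le_of_eq ?_) ((le_totalDegree ha).trans hD)
  rw [Finsupp.sum_fintype _ _ fun _ => rfl]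

/-- the values at `x` of the polynomials of degree at most `D` with coefficients in `A` -/
def Val {n : ℕ} (A : Submodule Qa ℂ) (x : Fin n → ℂ) (D : ℕ) : Submodule Qa ℂ where
  carrier := {z | ∃ g : MvPolynomial (Fin n) ℂ, (∀ a, coeff a g ∈ A) ∧ g.totalDegree ≤ D ∧
    eval x g = z}
  zero_mem' := ⟨0, fun a => by rw [coeff_zero]; exact Submodule.zero_mem _,
    by rw [totalDegree_zero]; exact Nat.zero_le _, map_zero _⟩
  add_mem' := by
    rintro _ _ ⟨g, h1, h2, rfl⟩ ⟨g', h1', h2', rfl⟩
    exact ⟨g + g', fun a => by rw [coeff_add]; exact Submodule.add_mem _ (h1 a) (h1' a),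
      (totalDegree_add _ _).trans (max_le h2 h2'), map_add _ _ _⟩
  smul_mem' := by
    rintro c _ ⟨g, h1, h2, rfl⟩
    refine ⟨C (c : ℂ) * g, fun a => ?_, ?_, ?_⟩
    · rw [coeff_C_mul]
      exact Submodule.smul_mem _ c (h1 a)
    · refine (totalDegree_mul _ _).trans ?_
      rw [totalDegree_C, zero_add]
      exact h2
    · rw [map_mul, eval_C]
      rfl

theorem mul_le_Val {n : ℕ} (A : Submodule Qa ℂ) (x : Fin n → ℂ) (D : ℕ) :
    A * Sx x ^ D ≤ Val A x D := by
  classical
  induction D with
  | zero =>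
    rw [pow_zero, mul_one]
    intro a ha
    refine ⟨C a, fun b => ?_, ?_, eval_C _⟩
    · rw [coeff_C]
      split_ifs
      · exact ha
      · exact Submodule.zero_mem _
    · rw [totalDegree_C]
  | succ D ih =>
    rw [pow_succ, ← mul_assoc]
    refine (mul_le_mul' ih le_rfl).trans ?_
    rw [Submodule.mul_le]
    rintro z ⟨g, h1, h2, rfl⟩ s hs
    have h3 : Sx x ≤ (Val A x (D + 1)).comap (LinearMap.mulLeft Qa (eval x g)) := by
      unfold Sx
      rw [Submodule.span_le]
      rintro s (hs | ⟨i, rfl⟩)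
      · rw [Set.mem_singleton_iff] at hs
        subst hs
        show eval x g * 1 ∈ Val A x (D + 1)
        rw [mul_one]
        exact ⟨g, h1, h2.trans (Nat.le_succ D), rfl⟩
      · show eval x g * x i ∈ Val A x (D + 1)
        refine ⟨g * X i, fun a => ?_, ?_, ?_⟩
        · rw [coeff_mul_X']
          split_ifs
          · exact h1 _
          · exact Submodule.zero_mem _
        · refine (totalDegree_mul _ _).trans ?_
          rw [totalDegree_X]
          exact Nat.succ_le_succ h2
        · rw [map_mul, eval_X]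
    exact h3 hs

theorem one_mem_Lt' : (1 : ℂ) ∈ Lt := Submodule.subset_span (Or.inl rfl)

/-- **From one variable to several variables.** -/
theorem many {D : ℕ} (E1 E : Submodule Qa ℂ) (hE : E ≤ E1) : ∀ {n : ℕ} (y : Fin n → ℂ),
    (∀ i, ∀ a ∈ E, y i * a ∈ E1 ⊔ Submodule.span Qa {a} * Lt) → GoodT E1 D n y →
    ∀ A ≤ E, ∀ F : MvPolynomial (Fin n) ℂ, F.totalDegree ≤ D →
      (∀ a, coeff a F ∈ E1 ⊔ A * Lt) → eval y F = 0 →
      ∃ G : Fin n → MvPolynomial (Fin n) ℂ, (∀ i a, coeff a (G i) ∈ A) ∧
        (∀ i, ∀ a ∈ (G i).support, ∀ t, a t ≤ D) ∧ F = ∑ i, (X i - C (y i)) * G i := by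
  classical
  intro n
  induction n with
  | zero =>
    intro y _ _ A _ F _ _ h0
    refine ⟨fun i => i.elim0, fun i => i.elim0, fun i => i.elim0, ?_⟩
    rw [Finset.univ_eq_empty, Finset.sum_empty, eq_C_of_isEmpty F]
    rw [eq_C_of_isEmpty F, eval_C] at h0
    rw [h0, C_0]
  | succ n ih =>
    intro y hy hg A hA F hFd hFc h0
    obtain ⟨hg0, hgT⟩ := hg
    obtain ⟨x', hx'⟩ : ∃ x', x' = Fin.tail y := ⟨_, rfl⟩
    rw [← hx'] at hg0 hgT
    have hy0 : y = Fin.cons (y 0) x' := by rw [hx', Fin.cons_self_tail]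
    obtain ⟨f, hf⟩ : ∃ f, f = finSuccEquiv ℂ n F := ⟨_, rfl⟩
    have hfc : ∀ j a, coeff a (f.coeff j) ∈ E1 ⊔ A * Lt := by
      intro j a
      rw [hf, finSuccEquiv_coeff_coeff]
      exact hFc _
    have hfd : ∀ j, (f.coeff j).totalDegree ≤ D := by
      intro j
      by_cases h : f.coeff j = 0
      · rw [h, totalDegree_zero]
        exact Nat.zero_le _
      · have := totalDegree_coeff_finSuccEquiv_add_le F j (by rwa [← hf])
        rw [← hf] at this
        omega
    -- the polynomial in one variable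
    obtain ⟨F1, hF1⟩ : ∃ F1, F1 = f.map (eval x') := ⟨_, rfl⟩
    have hF1c : ∀ j, F1.coeff j ∈ E1 * Sx x' ^ D ⊔ A * Sx x' ^ D * Lt := by
      intro j
      rw [hF1, Polynomial.coeff_map]
      have h1 := eval_mem x' (E1 ⊔ A * Lt) (f.coeff j) (hfc j) (hfd j)
      rw [Submodule.sup_mul] at h1
      rwa [mul_right_comm] at h1
    have hF1d : F1.natDegree ≤ D := by
      rw [hF1]
      refine Polynomial.natDegree_map_le.trans ?_
      rw [hf, natDegree_finSuccEquiv]
      exact (degreeOf_le_totalDegree _ _).trans hFd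
    have hF10 : F1.eval (y 0) = 0 := by
      rw [hF1, hf, ← eval_eq_eval_mv_eval', ← hy0]
      exact h0
    obtain ⟨G1, hG1c, hG1⟩ := hg0 (A * Sx x' ^ D) (mul_le_mul' (hA.trans hE) le_rfl) F1 hF1c hF1d
      hF10
    have hG1d : ∀ j, D ≤ j → G1.coeff j = 0 := by
      intro j hj
      by_cases h : G1 = 0
      · rw [h, Polynomial.coeff_zero]
      · refine Polynomial.coeff_eq_zero_of_natDegree_lt ?_
        rw [hG1, Polynomial.natDegree_mul (Polynomial.X_sub_C_ne_zero _) h,
          Polynomial.natDegree_X_sub_C] at hF1d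
        omega
    -- the lift
    have hlift : ∀ j, ∃ g : MvPolynomial (Fin n) ℂ, (∀ a, coeff a g ∈ A) ∧ g.totalDegree ≤ D ∧
        eval x' g = G1.coeff j ∧ (G1.coeff j = 0 → g = 0) := by
      intro j
      by_cases h : G1.coeff j = 0
      · refine ⟨0, fun a => ?_, ?_, ?_, fun _ => rfl⟩
        · rw [coeff_zero]
          exact Submodule.zero_mem _
        · rw [totalDegree_zero]
          exact Nat.zero_le _
        · rw [h, map_zero]
      · obtain ⟨g, h1, h2, h3⟩ := mul_le_Val A x' D (hG1c j)
        exact ⟨g, h1, h2, h3, fun h4 => absurd h4 h⟩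
    choose g hgc hgd hge hgz using hlift
    obtain ⟨Gt, hGt⟩ : ∃ Gt : Polynomial (MvPolynomial (Fin n) ℂ),
        ∀ j, Gt.coeff j = g j := by
      refine ⟨∑ j ∈ G1.support, Polynomial.monomial j (g j), fun j => ?_⟩
      rw [Polynomial.finsetSum_coeff]
      by_cases hj : j ∈ G1.support
      · rw [Finset.sum_eq_single j]
        · rw [Polynomial.coeff_monomial, if_pos rfl]
        · intro b _ hb
          rw [Polynomial.coeff_monomial, if_neg hb]
        · intro h
          exact absurd hj h
      · rw [hgz j (Polynomial.notMem_support_iff.1 hj)]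
        refine Finset.sum_eq_zero fun b hb => ?_
        rw [Polynomial.coeff_monomial, if_neg]
        intro h
        exact hj (h ▸ hb)
    -- the rest
    obtain ⟨R, hR⟩ : ∃ R, R = f - Gt * (Polynomial.X - Polynomial.C (C (y 0))) := ⟨_, rfl⟩
    have hR0 : ∀ j, eval x' (R.coeff j) = 0 := by
      intro j
      have h1 : R.map (eval x') = 0 := by
        rw [hR, Polynomial.map_sub, Polynomial.map_mul, Polynomial.map_sub, Polynomial.map_X,
          Polynomial.map_C, eval_C, ← hF1, hG1, mul_comm, sub_eq_zero]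
        congr 1
        ext j
        rw [Polynomial.coeff_map, hGt, hge]
      have h2 : (R.map (eval x')).coeff j = 0 := by rw [h1, Polynomial.coeff_zero]
      rwa [Polynomial.coeff_map] at h2
    have hAE : A ≤ E1 ⊔ A * Lt := (hA.trans hE).trans le_sup_left
    have hyA : ∀ a ∈ A, y 0 * a ∈ E1 ⊔ A * Lt := by
      intro a ha
      have h1 := hy 0 a (hA ha)
      have h2 : Submodule.span Qa {a} ≤ A := by
        rw [Submodule.span_le, Set.singleton_subset_iff]
        exact ha
      have h3 : E1 ⊔ Submodule.span Qa {a} * Lt ≤ E1 ⊔ A * Lt :=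
        sup_le_sup le_rfl (mul_le_mul' h2 le_rfl)
      exact h3 h1
    have hRc : ∀ j a, coeff a (R.coeff j) ∈ E1 ⊔ A * Lt := by
      intro j a
      rw [hR, Polynomial.coeff_sub, coeff_sub]
      refine Submodule.sub_mem _ (hfc j a) ?_
      rcases j with _ | j
      · rw [Polynomial.mul_coeff_zero, Polynomial.coeff_sub, Polynomial.coeff_X_zero,
          Polynomial.coeff_C_zero, zero_sub, mul_neg, coeff_neg, hGt, mul_comm (g 0), coeff_C_mul]
        exact Submodule.neg_mem _ (hyA _ (hgc 0 a))
      · rw [Polynomial.coeff_mul_X_sub_C, hGt, hGt, coeff_sub, mul_comm (g (j + 1)), coeff_C_mul]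
        exact Submodule.sub_mem _ (hAE (hgc j a)) (hyA _ (hgc (j + 1) a))
    have hRd : ∀ j, (R.coeff j).totalDegree ≤ D := by
      intro j
      rw [hR, Polynomial.coeff_sub]
      refine (totalDegree_sub _ _).trans (max_le (hfd j) ?_)
      rcases j with _ | j
      · rw [Polynomial.mul_coeff_zero, Polynomial.coeff_sub, Polynomial.coeff_X_zero,
          Polynomial.coeff_C_zero, zero_sub, mul_neg, totalDegree_neg, hGt]
        refine (totalDegree_mul _ _).trans ?_
        rw [totalDegree_C, add_zero]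
        exact hgd 0
      · rw [Polynomial.coeff_mul_X_sub_C, hGt, hGt]
        refine (totalDegree_sub _ _).trans (max_le (hgd j) ?_)
        refine (totalDegree_mul _ _).trans ?_
        rw [totalDegree_C, add_zero]
        exact hgd (j + 1)
    have hRz : R.natDegree < D + 1 := by
      refine Nat.lt_succ_of_le (Polynomial.natDegree_le_iff_coeff_eq_zero.2 fun j hj => ?_)
      obtain ⟨j, rfl⟩ : ∃ k, j = k + 1 := ⟨j - 1, by omega⟩
      rw [hR, Polynomial.coeff_sub, Polynomial.coeff_mul_X_sub_C, hGt, hGt,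
        hgz j (hG1d j (by omega)), hgz (j + 1) (hG1d (j + 1) (by omega)), zero_mul, sub_zero,
        sub_zero]
      refine Polynomial.coeff_eq_zero_of_natDegree_lt (lt_of_le_of_lt ?_ hj)
      rw [hf, natDegree_finSuccEquiv]
      exact (degreeOf_le_totalDegree _ _).trans hFd
    have hrec : ∀ j, ∃ G : Fin n → MvPolynomial (Fin n) ℂ, (∀ i a, coeff a (G i) ∈ A) ∧
        (∀ i, ∀ a ∈ (G i).support, ∀ t, a t ≤ D) ∧
        R.coeff j = ∑ i, (X i - C (x' i)) * G i := by
      intro j
      refine ih x' (fun i a ha => ?_) hgT A hA (R.coeff j) (hRd j) (hRc j) (hR0 j)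
      have := hy i.succ a ha
      rwa [hx']
    choose H hHc hHd hH using hrec
    obtain ⟨Gi, hGi⟩ : ∃ Gi : Fin n → Polynomial (MvPolynomial (Fin n) ℂ),
        Gi = fun i => ∑ j ∈ Finset.range (D + 1), Polynomial.monomial j (H j i) := ⟨_, rfl⟩
    have hGic : ∀ i j a, coeff a ((Gi i).coeff j) ∈ A := by
      intro i j a
      rw [hGi]
      dsimp only
      rw [Polynomial.finsetSum_coeff, coeff_sum]
      refine Submodule.sum_mem _ fun b _ => ?_
      rw [Polynomial.coeff_monomial]
      split_ifs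
      · exact hHc b i a
      · rw [coeff_zero]
        exact Submodule.zero_mem _
    have hGid : ∀ i j a, coeff a ((Gi i).coeff j) ≠ 0 → j ≤ D ∧ ∀ t, a t ≤ D := by
      intro i j a hne
      rw [hGi] at hne
      dsimp only at hne
      rw [Polynomial.finsetSum_coeff] at hne
      by_cases hj : j ∈ Finset.range (D + 1)
      · rw [Finset.sum_eq_single j (fun b _ hb => by rw [Polynomial.coeff_monomial, if_neg hb])
          (fun h => absurd hj h), Polynomial.coeff_monomial, if_pos rfl] at hne
        exact ⟨Nat.le_of_lt_succ (Finset.mem_range.1 hj),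
          hHd j i a (MvPolynomial.mem_support_iff.2 hne)⟩
      · exfalso
        apply hne
        rw [Finset.sum_eq_zero, coeff_zero]
        intro b hb
        rw [Polynomial.coeff_monomial, if_neg]
        intro h
        exact hj (h ▸ hb)
    have hRsum : R = ∑ i, Polynomial.C (X i - C (x' i)) * Gi i := by
      conv_lhs => rw [R.as_sum_range' (D + 1) hRz]
      rw [hGi]
      simp only [Finset.mul_sum]
      rw [Finset.sum_comm]
      refine Finset.sum_congr rfl fun j _ => ?_
      rw [hH j, map_sum]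
      refine Finset.sum_congr rfl fun i _ => ?_
      rw [Polynomial.C_mul_monomial]
    refine ⟨Fin.cons ((finSuccEquiv ℂ n).symm Gt) fun i => (finSuccEquiv ℂ n).symm (Gi i),
      ?_, ?_, ?_⟩
    · have hkey : ∀ (p : Polynomial (MvPolynomial (Fin n) ℂ)), (∀ j a, coeff a (p.coeff j) ∈ A) →
          ∀ a, coeff a ((finSuccEquiv ℂ n).symm p) ∈ A := by
        intro p hp a
        have h1 := finSuccEquiv_coeff_coeff (Finsupp.tail a) ((finSuccEquiv ℂ n).symm p) (a 0)
        rw [Finsupp.cons_tail, AlgEquiv.apply_symm_apply] at h1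
        rw [← h1]
        exact hp _ _
      intro i
      refine Fin.cases ?_ (fun i => ?_) i
      · rw [Fin.cons_zero]
        refine hkey Gt fun j a => ?_
        rw [hGt]
        exact hgc j a
      · rw [Fin.cons_succ]
        exact hkey (Gi i) (hGic i)
    · have hkey : ∀ (p : Polynomial (MvPolynomial (Fin n) ℂ)),
          (∀ j a, coeff a (p.coeff j) ≠ 0 → j ≤ D ∧ ∀ t, a t ≤ D) →
          ∀ a ∈ ((finSuccEquiv ℂ n).symm p).support, ∀ t, a t ≤ D := by
        intro p hp a ha
        rw [MvPolynomial.mem_support_iff] at ha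
        have h1 := finSuccEquiv_coeff_coeff (Finsupp.tail a) ((finSuccEquiv ℂ n).symm p) (a 0)
        rw [Finsupp.cons_tail, AlgEquiv.apply_symm_apply] at h1
        rw [← h1] at ha
        have h2 := hp _ _ ha
        intro t
        refine Fin.cases ?_ (fun t => ?_) t
        · exact h2.1
        · have := h2.2 t
          rwa [Finsupp.tail_apply] at this
      intro i
      refine Fin.cases ?_ (fun i => ?_) i
      · rw [Fin.cons_zero]
        refine hkey Gt fun j a hne => ?_
        rw [hGt] at hne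
        refine ⟨?_, fun t => ?_⟩
        · by_contra hlt
          apply hne
          rw [hgz j (hG1d j (by omega)), coeff_zero]
        · refine (le_trans ?_ (le_totalDegree (MvPolynomial.mem_support_iff.2 hne))).trans (hgd j)
          rw [Finsupp.sum_fintype _ _ fun _ => rfl]
          exact Finset.single_le_sum (f := fun t => a t) (fun _ _ => Nat.zero_le _)
            (Finset.mem_univ t)
      · rw [Fin.cons_succ]
        exact hkey (Gi i) (hGid i)
    · apply (finSuccEquiv ℂ n).injective
      rw [map_sum, Fin.sum_univ_succ, map_mul, map_sub, finSuccEquiv_X_zero, Fin.cons_zero,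
        AlgEquiv.apply_symm_apply, ← hf]
      have hC : ∀ c : ℂ, finSuccEquiv ℂ n (C c) = Polynomial.C (C c) := fun c =>
        (finSuccEquiv ℂ n).commutes c
      rw [hC]
      have h1 : ∑ i : Fin n, finSuccEquiv ℂ n ((X i.succ - C (y i.succ)) *
          (Fin.cons ((finSuccEquiv ℂ n).symm Gt) (fun i => (finSuccEquiv ℂ n).symm (Gi i)) :
            Fin (n + 1) → MvPolynomial (Fin (n + 1)) ℂ) i.succ) =
          ∑ i, Polynomial.C (X i - C (x' i)) * Gi i := by
        refine Finset.sum_congr rfl fun i _ => ?_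
        rw [map_mul, map_sub, finSuccEquiv_X_succ, hC, Fin.cons_succ, AlgEquiv.apply_symm_apply,
          Polynomial.C_sub, hx']
        rfl
      rw [h1, ← hRsum, hR]
      ring

end MP60829e.ZL
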