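import Mathlib
import Pool.Agent.Lib.MP_60829e_nt.ZL.One
import Pool.Agent.Lib.MP_60829e_nt.ZL.Om
import Pool.Agent.Lib.MP_60829e_nt.ZL.Tup
import Pool.Agent.Lib.MP_60829e_nt.Rate.Tuple

/-! # Theorem ZL: tuples of integers -/

open Module Finset MvPolynomial

namespace MP60829e.ZL

open MP60829e.ST (Qa Lt)

/-- The points `y` with `y i ∈ q i * log (b i) + E`. -/
def Pts {n : ℕ} (E : Submodule Qa ℂ) (b : Fin n → ℕ) (y : Fin n → ℂ) : Prop :=
  ∀ i, ∃ q : Qa, q ≠ 0 ∧ y i - q * ((Real.log (b i) : ℝ) : ℂ) ∈ E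

/-- `F` is a combination of the `X i - y i` with coefficients in `A[X]`, of degree at most `D` in each
variable. -/
def Comb {n : ℕ} (A : Submodule Qa ℂ) (D : ℕ) (y : Fin n → ℂ) (F : MvPolynomial (Fin n) ℂ) : Prop :=
  ∃ G : Fin n → MvPolynomial (Fin n) ℂ, (∀ i m, (G i).coeff m ∈ A) ∧
    (∀ i, ∀ a ∈ (G i).support, ∀ t, a t ≤ D) ∧ F = ∑ i, (X i - C (y i)) * G i

/-- The bad tuples. -/
def BadN {n : ℕ} (E : Submodule Qa ℂ) (D B : ℕ) : Set (Fin n → ℕ) :=
  {b | (∀ i, 1 ≤ b i ∧ b i ≤ B) ∧ ∃ y : Fin n → ℂ, Pts E b y ∧ ∃ A ≤ E,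
    ∃ F : MvPolynomial (Fin n) ℂ, F.totalDegree ≤ D ∧ (∀ m, F.coeff m ∈ E ⊔ A * Lt) ∧
      eval y F = 0 ∧ ¬ Comb A D y F}

/-- The space for the first variable, when the others are fixed. -/
noncomputable def Eb {n : ℕ} (E1 E : Submodule Qa ℂ) (D : ℕ) (b : Fin n → ℕ) : Submodule Qa ℂ :=
  E1 * (E ⊔ Submodule.span Qa (Set.range fun i => ((Real.log (b i) : ℝ) : ℂ))) ^ D

theorem finrank_Eb {n : ℕ} (E1 E : Submodule Qa ℂ) [FiniteDimensional Qa E1]
    [FiniteDimensional Qa E] (D : ℕ)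
    (b : Fin n → ℕ) : FiniteDimensional Qa (Eb E1 E D b) ∧
      finrank Qa (Eb E1 E D b) ≤ finrank Qa E1 * (finrank Qa E + n) ^ D := by
  have h1 : FiniteDimensional Qa
      (Submodule.span Qa (Set.range fun i => ((Real.log (b i) : ℝ) : ℂ))) :=
    FiniteDimensional.span_of_finite Qa (Set.finite_range _)
  have h2 : finrank Qa (Submodule.span Qa (Set.range fun i => ((Real.log (b i) : ℝ) : ℂ))) ≤ n := by
    refine (finrank_range_le_card _).trans ?_
    rw [Fintype.card_fin]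
  obtain ⟨S, hS⟩ : ∃ S, S = E ⊔ Submodule.span Qa (Set.range fun i => ((Real.log (b i) : ℝ) : ℂ)) :=
    ⟨_, rfl⟩
  have h3 : FiniteDimensional Qa S := by
    rw [hS]
    infer_instance
  have h4 : finrank Qa S ≤ finrank Qa E + n := by
    rw [hS]
    exact (Submodule.finrank_add_le_finrank_add_finrank _ _).trans (by omega)
  have h5 : FiniteDimensional Qa ↥(S ^ D) :=
    Module.Finite.iff_fg.2 ((Module.Finite.iff_fg.1 h3).pow D)
  unfold Eb
  rw [← hS]
  refine ⟨Module.Finite.iff_fg.2 ((Module.Finite.iff_fg.1 inferInstance).mul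
    (Module.Finite.iff_fg.1 h5)), ?_⟩
  refine (finrank_mul_le _ _).trans (Nat.mul_le_mul_left _ ?_)
  exact (finrank_pow_le S D).trans (Nat.pow_le_pow_left h4 D)

/-- each coordinate is good relative to the following ones -/
def GoodB (E1 E : Submodule Qa ℂ) (D : ℕ) : (n : ℕ) → (Fin n → ℕ) → Prop
  | 0, _ => True
  | n + 1, b => b 0 ∉ BadOne (Eb E1 E D (Fin.tail b)) D ∧ GoodB E1 E D n (Fin.tail b)

theorem goodT_of_goodB {E1 E : Submodule Qa ℂ} {D : ℕ} (h1 : (1 : ℂ) ∈ E) (hE : E ≤ E1) :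
    ∀ {n : ℕ} (b : Fin n → ℕ) (y : Fin n → ℂ), Pts E b y → GoodB E1 E D n b →
      GoodT E1 D n y := by
  intro n
  induction n with
  | zero => intro b y _ _; trivial
  | succ n ih =>
    rintro b y hy ⟨hb0, hbt⟩
    refine ⟨?_, ih (Fin.tail b) (Fin.tail y) (fun i => hy i.succ) hbt⟩
    obtain ⟨S, hS⟩ : ∃ S, S = E ⊔ Submodule.span Qa
        (Set.range fun i => ((Real.log (Fin.tail b i) : ℝ) : ℂ)) := ⟨_, rfl⟩
    have hSx : Sx (Fin.tail y) ≤ S := by
      unfold Sx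
      rw [Submodule.span_le]
      rintro z (hz | ⟨i, rfl⟩)
      · rw [Set.mem_singleton_iff] at hz
        subst hz
        rw [hS]
        exact Submodule.mem_sup_left h1
      · obtain ⟨q, -, hq⟩ := hy i.succ
        have h2 : Fin.tail y i = (Fin.tail y i - q * ((Real.log (b i.succ) : ℝ) : ℂ)) +
            q * ((Real.log (b i.succ) : ℝ) : ℂ) := by ring
        show Fin.tail y i ∈ S
        rw [h2, hS]
        refine Submodule.add_mem _ (Submodule.mem_sup_left hq) (Submodule.mem_sup_right ?_)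
        exact Submodule.smul_mem _ q (Submodule.subset_span ⟨i, rfl⟩)
    have hle : E1 * Sx (Fin.tail y) ^ D ≤ Eb E1 E D (Fin.tail b) := by
      unfold Eb
      rw [← hS]
      exact mul_le_mul' le_rfl (pow_le_pow_left' hSx D)
    have h1S : (1 : ℂ) ∈ S ^ D := by
      have h3 : (1 : Submodule Qa ℂ) ≤ S := by
        rw [Submodule.one_le, hS]
        exact Submodule.mem_sup_left h1
      exact Submodule.one_le.1 (one_le_pow_of_one_le' h3 D)
    have hEEb : E ≤ Eb E1 E D (Fin.tail b) := by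
      unfold Eb
      rw [← hS]
      intro a ha
      rw [← mul_one a]
      exact Submodule.mul_mem_mul (hE ha) h1S
    intro A hA F hF hd h0
    obtain ⟨q, hq0, hq⟩ := hy 0
    obtain ⟨h, hh⟩ : ∃ h, h = y 0 - q * ((Real.log (b 0) : ℝ) : ℂ) := ⟨_, rfl⟩
    rw [← hh] at hq
    have hy0 : y 0 = q * ((Real.log (b 0) : ℝ) : ℂ) + h := by rw [hh]; ring
    by_contra hcon
    refine hb0 ⟨q, hq0, h, hEEb hq, A, hA.trans hle, F, fun j => ?_, hd, ?_, ?_⟩
    · exact (sup_le_sup hle le_rfl : _ ≤ Eb E1 E D (Fin.tail b) ⊔ A * Lt) (hF j)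
    · rw [← hy0]
      exact h0
    · rw [← hy0]
      exact hcon

/-- A good tuple is not bad. -/
theorem comb_of_goodB {E : Submodule Qa ℂ} {n D B : ℕ} (h1 : (1 : ℂ) ∈ E) (b : Fin n → ℕ)
    (hb : GoodB (E * E) E D n b) (hB : ∀ i, 1 ≤ b i) : b ∉ BadN E D B := by
  rintro ⟨-, y, hy, A, hA, F, hFd, hFc, h0, hF⟩
  have hEE : E ≤ E * E := by
    intro a ha
    rw [← mul_one a]
    exact Submodule.mul_mem_mul ha h1
  refine hF ?_
  refine many (E * E) E hEE y (fun i a ha => ?_) (goodT_of_goodB h1 hEE b y hy hb) A hA F hFd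
    (fun m => ?_) h0
  · obtain ⟨q, -, hq⟩ := hy i
    have h2 : y i * a = (y i - q * ((Real.log (b i) : ℝ) : ℂ)) * a +
        a * (q * ((Real.log (b i) : ℝ) : ℂ)) := by ring
    rw [h2]
    refine Submodule.add_mem _ (Submodule.mem_sup_left (Submodule.mul_mem_mul hq ha))
      (Submodule.mem_sup_right (Submodule.mul_mem_mul (Submodule.mem_span_singleton_self a) ?_))
    refine Submodule.smul_mem _ q (Submodule.subset_span (Or.inr ?_))
    show IsAlgebraic ℚ (Complex.exp ((Real.log (b i) : ℝ) : ℂ))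
    rw [← Complex.ofReal_exp, Real.exp_log (by exact_mod_cast hB i)]
    have := isAlgebraic_natCast (R := ℚ) (A := ℂ) (b i)
    exact_mod_cast this
  · exact (sup_le_sup hEE le_rfl : _ ≤ E * E ⊔ A * Lt) (hFc m)

/-- the tuples which are not good -/
def BadB (E1 E : Submodule Qa ℂ) (D B n : ℕ) : Set (Fin n → ℕ) :=
  {b | (∀ i, 1 ≤ b i ∧ b i ≤ B) ∧ ¬ GoodB E1 E D n b}

theorem badB_finite (E1 E : Submodule Qa ℂ) (D B n : ℕ) : (BadB E1 E D B n).Finite := by
  refine (Finset.finite_toSet (Fintype.piFinset (fun _ : Fin n => Icc 1 B))).subset ?_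
  intro b hb
  rw [mem_coe, Fintype.mem_piFinset]
  intro i
  rw [mem_Icc]
  exact hb.1 i

theorem card_step (E1 E : Submodule Qa ℂ) (D B n : ℕ) (c : ℝ) (hc0 : 0 ≤ c)
    (hc : ∀ b' : Fin n → ℕ,
      ({b : ℕ | 1 ≤ b ∧ b ≤ B ∧ b ∈ BadOne (Eb E1 E D b') D}.ncard : ℝ) ≤ c) :
    ((BadB E1 E D B (n + 1)).ncard : ℝ) ≤ B * (BadB E1 E D B n).ncard + B ^ n * c := by
  classical
  set cube : Finset (Fin (n + 1) → ℕ) := Fintype.piFinset (fun _ => Icc 1 B) with hcube
  set S1 : Finset (Fin (n + 1) → ℕ) := cube.filter (fun b => Fin.tail b ∈ BadB E1 E D B n)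
    with hS1
  set S2 : Finset (Fin (n + 1) → ℕ) :=
    cube.filter (fun b => b 0 ∈ BadOne (Eb E1 E D (Fin.tail b)) D) with hS2
  have hsub : BadB E1 E D B (n + 1) ⊆
      ((S1 ∪ S2 : Finset (Fin (n + 1) → ℕ)) : Set (Fin (n + 1) → ℕ)) := by
    intro b hb
    have hbc : b ∈ cube := by
      rw [hcube, Fintype.mem_piFinset]
      intro i
      rw [mem_Icc]
      exact hb.1 i
    rw [mem_coe, mem_union, hS1, hS2, mem_filter, mem_filter]
    by_contra hcon
    push Not at hcon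
    have h1 := hcon.1 hbc
    have h2 := hcon.2 hbc
    refine hb.2 ⟨h2, ?_⟩
    by_contra h3
    exact h1 ⟨fun i => hb.1 i.succ, h3⟩
  have hcard : ((BadB E1 E D B (n + 1)).ncard : ℝ) ≤ (S1.card : ℝ) + S2.card := by
    have h1 : (BadB E1 E D B (n + 1)).ncard ≤ (S1 ∪ S2).card := by
      rw [← Set.ncard_coe_finset]
      exact Set.ncard_le_ncard hsub (Finset.finite_toSet _)
    exact_mod_cast h1.trans (card_union_le _ _)
  have h1 : (S1.card : ℝ) ≤ B * (BadB E1 E D B n).ncard := by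
    have hfin := badB_finite E1 E D B n
    have h2 : S1.card ≤ (Icc 1 B ×ˢ hfin.toFinset).card := by
      refine Finset.card_le_card_of_injOn (fun b => (b 0, Fin.tail b)) ?_ ?_
      · intro b hb
        rw [mem_coe, hS1, mem_filter, hcube, Fintype.mem_piFinset] at hb
        rw [mem_coe, mem_product]
        exact ⟨hb.1 0, hfin.mem_toFinset.mpr hb.2⟩
      · intro b _ b' _ h
        have h3 : b 0 = b' 0 := (Prod.mk.inj h).1
        have h4 : Fin.tail b = Fin.tail b' := (Prod.mk.inj h).2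
        rw [← Fin.cons_self_tail b, ← Fin.cons_self_tail b', h3, h4]
    rw [card_product, Nat.card_Icc, Nat.add_sub_cancel, ← Set.ncard_eq_toFinset_card _ hfin] at h2
    exact_mod_cast h2
  have h2 : (S2.card : ℝ) ≤ B ^ n * c := by
    have htail : ∀ b : Fin (n + 1) → ℕ, b ∘ (0 : Fin (n + 1)).succAbove = Fin.tail b := by
      intro b
      funext j
      simp [Fin.tail]
    refine MP60829e.Rate.card_fiber n 0 B S2 ?_ c
      (fun b' => (Icc 1 B).filter (fun x => x ∈ BadOne (Eb E1 E D b') D)) ?_ ?_ hc0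
    · intro b hb j
      rw [hS2, mem_filter, hcube, Fintype.mem_piFinset] at hb
      exact mem_Icc.mp (hb.1 j)
    · intro b hb
      rw [hS2, mem_filter, hcube, Fintype.mem_piFinset] at hb
      rw [htail, mem_filter]
      exact ⟨hb.1 0, hb.2⟩
    · intro b hb
      rw [htail]
      have h3 := hc (Fin.tail b)
      have h4 : {x : ℕ | 1 ≤ x ∧ x ≤ B ∧ x ∈ BadOne (Eb E1 E D (Fin.tail b)) D} =
          (((Icc 1 B).filter (fun x => x ∈ BadOne (Eb E1 E D (Fin.tail b)) D)) : Set ℕ) := by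
        ext x
        rw [mem_coe, mem_filter, mem_Icc]
        exact ⟨fun h => ⟨⟨h.1, h.2.1⟩, h.2.2⟩, fun h => ⟨h.1.1, h.1.2, h.2⟩⟩
      rw [h4, Set.ncard_coe_finset] at h3
      exact h3
  linarith

theorem card_all (E1 E : Submodule Qa ℂ) (D B : ℕ) (c : ℝ) (hc0 : 0 ≤ c) (hcB : ℝ) (N : ℕ)
    (hceq : c = hcB * B)
    (hc : ∀ n < N, ∀ b' : Fin n → ℕ,
      ({b : ℕ | 1 ≤ b ∧ b ≤ B ∧ b ∈ BadOne (Eb E1 E D b') D}.ncard : ℝ) ≤ c) :
    ∀ n ≤ N, ((BadB E1 E D B n).ncard : ℝ) ≤ n * hcB * B ^ n := by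
  intro n
  induction n with
  | zero =>
    intro _
    have h1 : BadB E1 E D B 0 = ∅ := by
      rw [Set.eq_empty_iff_forall_notMem]
      rintro b ⟨_, h⟩
      exact h trivial
    rw [h1, Set.ncard_empty]
    simp
  | succ n ih =>
    intro hn
    have h1 := ih (by omega)
    have h2 := card_step E1 E D B n c hc0 (hc n (by omega))
    have hB0 : (0 : ℝ) ≤ B := Nat.cast_nonneg _
    have h3 := mul_le_mul_of_nonneg_left h1 hB0
    refine h2.trans ?_
    rw [hceq]
    push_cast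
    have e : (B : ℝ) * (n * hcB * B ^ n) + B ^ n * (hcB * B) = (n + 1) * hcB * B ^ (n + 1) := by
      ring
    rw [← e]
    linarith

/-- **Theorem ZL.** -/
theorem main (n D : ℕ) : ∀ κ : ℕ, ∃ K : ℕ, ∀ E : Submodule Qa ℂ, FiniteDimensional Qa E →
    finrank Qa E ≤ κ → (1 : ℂ) ∈ E → ∀ B : ℕ, 16 ≤ B →
      ((BadN (n := n) E D B).ncard : ℝ) ≤ K * Real.log (Real.log B) ^ K / Real.log B * B ^ n := by
  intro κ
  obtain ⟨K, hK⟩ := count_one (κ * κ * (κ + n) ^ D) D
  refine ⟨n * K + K, fun E hE hκ h1 B hB => ?_⟩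
  have hL := MP60829e.Rate.log_ge B hB
  have hl := MP60829e.Rate.loglog_ge B hB
  have he := Real.exp_one_gt_d9
  have hL0 : 0 < Real.log B := by linarith
  have hl0 : 0 ≤ Real.log (Real.log B) := by linarith
  have hE1 : FiniteDimensional Qa ↥(E * E) := Module.Finite.iff_fg.2
    ((Module.Finite.iff_fg.1 hE).mul (Module.Finite.iff_fg.1 hE))
  have h2 := card_all (E * E) E D B
    ((K * Real.log (Real.log B) ^ K / Real.log B) * B) (by positivity)
    (K * Real.log (Real.log B) ^ K / Real.log B) n rfl (fun m hm b' => by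
      obtain ⟨h3, h4⟩ := finrank_Eb (E * E) E D b'
      refine hK (Eb (E * E) E D b') h3 (h4.trans ?_) ?_ B hB
      · refine Nat.mul_le_mul ((finrank_mul_le _ _).trans (Nat.mul_le_mul hκ hκ))
          (Nat.pow_le_pow_left (by omega) D)
      · have h5 : (1 : Submodule Qa ℂ) ≤ Eb (E * E) E D b' := by
          unfold Eb
          have h6 : (1 : Submodule Qa ℂ) ≤ E := Submodule.one_le.2 h1
          exact one_le_mul (one_le_mul h6 h6) (one_le_pow_of_one_le' (h6.trans le_sup_left) D)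
        exact Submodule.one_le.1 h5) n le_rfl
  have h3 : (BadN (n := n) E D B).ncard ≤ (BadB (E * E) E D B n).ncard := by
    refine Set.ncard_le_ncard ?_ (badB_finite _ _ _ _ _)
    intro b hb
    refine ⟨hb.1, fun hg => ?_⟩
    exact comb_of_goodB h1 b hg (fun i => (hb.1 i).1) hb
  have h4 : ((BadN (n := n) E D B).ncard : ℝ) ≤ (BadB (E * E) E D B n).ncard := by
    exact_mod_cast h3
  refine (h4.trans h2).trans ?_
  refine mul_le_mul_of_nonneg_right ?_ (by positivity)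
  rw [← mul_div_assoc]
  refine div_le_div_of_nonneg_right ?_ hL0.le
  have h5 : (Real.log (Real.log B)) ^ K ≤ (Real.log (Real.log B)) ^ (n * K + K) :=
    pow_le_pow_right₀ hl (by omega)
  have h6 : (n : ℝ) * (K * Real.log (Real.log B) ^ K) ≤
      (n : ℝ) * (K * Real.log (Real.log B) ^ (n * K + K)) := by gcongr
  have h7 : (0 : ℝ) ≤ K * Real.log (Real.log B) ^ (n * K + K) := by positivity
  push_cast
  nlinarith [h6, h7]

end MP60829e.ZL
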