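import Mathlib
import Pool.Agent.Lib.MP_60829e_nt.ZL.Many

/-! # Theorem ZL: matrices of logarithms with one arbitrary row -/

open Module Finset MvPolynomial

namespace MP60829e.ZL

open MP60829e.ST (Qa Lt)

section LA

variable {k V : Type} [Field k] [CharZero k] [AddCommGroup V] [Module k V]

omit [CharZero k] in
/-- Extension of an independent family. -/
theorem exists_ext {s m : ℕ} (hsm : s ≤ m) (hm : m ≤ finrank k V) (u : Fin s → V)
    (hu : LinearIndependent k u) :
    ∃ w : Fin m → V, LinearIndependent k w ∧ ∀ i : Fin s, w (Fin.castLE hsm i) = u i := by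
  induction m, hsm using Nat.le_induction with
  | base => exact ⟨u, hu, fun i => rfl⟩
  | succ m hsm ih =>
    obtain ⟨w, hw, hwu⟩ := ih (by omega)
    obtain ⟨x, hx⟩ := exists_linearIndependent_snoc_of_lt_finrank hw (by omega)
    refine ⟨Fin.snoc w x, hx, fun i => ?_⟩
    rw [← hwu i]
    have h1 : Fin.castLE (Nat.le_succ_of_le hsm) i = Fin.castSucc (Fin.castLE hsm i) := rfl
    rw [h1, Fin.snoc_castSucc]

/-- An affine map of `r` vectors with values in the span of the vectors is a combination. -/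
theorem la {r : ℕ} (hr : r < finrank k V) (c : V) (L : Fin r → V →ₗ[k] V)
    (h : ∀ z : Fin r → V, LinearIndependent k z →
      c + ∑ i, L i (z i) ∈ Submodule.span k (Set.range z)) :
    c = 0 ∧ ∀ i, ∃ a : k, ∀ v, L i v = a • v := by
  classical
  have hsgn : ∀ (ε : Fin r → kˣ) (z : Fin r → V), LinearIndependent k z →
      c + ∑ i, (ε i : k) • L i (z i) ∈ Submodule.span k (Set.range z) := by
    intro ε z hz
    have h1 := h _ (hz.units_smul ε)
    have h2 : Submodule.span k (Set.range (ε • z)) ≤ Submodule.span k (Set.range z) := by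
      refine Submodule.span_le.2 ?_
      rintro _ ⟨i, rfl⟩
      exact Submodule.smul_mem _ ((ε i : kˣ) : k) (Submodule.subset_span ⟨i, rfl⟩)
    have h3 : ∀ i, L i ((ε • z) i) = (ε i : k) • L i (z i) := by
      intro i
      rw [← map_smul]
      rfl
    simp only [h3] at h1
    exact h2 h1
  have htwo : (2 : k) ≠ 0 := two_ne_zero
  have hc : ∀ z : Fin r → V, LinearIndependent k z → c ∈ Submodule.span k (Set.range z) := by
    intro z hz
    have h1 := Submodule.add_mem _ (hsgn 1 z hz) (hsgn (-1) z hz)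
    have h2 : c + ∑ i, (((1 : Fin r → kˣ) i : kˣ) : k) • L i (z i) +
        (c + ∑ i, (((-1 : Fin r → kˣ) i : kˣ) : k) • L i (z i)) = (2 : k) • c := by
      simp only [Pi.one_apply, Units.val_one, one_smul, Pi.neg_apply, Units.val_neg, neg_smul,
        Finset.sum_neg_distrib]
      rw [two_smul]
      abel
    rw [h2] at h1
    have h3 := Submodule.smul_mem _ (2 : k)⁻¹ h1
    rwa [smul_smul, inv_mul_cancel₀ htwo, one_smul] at h3
  have hL : ∀ (z : Fin r → V), LinearIndependent k z → ∀ i,
      L i (z i) ∈ Submodule.span k (Set.range z) := by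
    intro z hz i
    have h1 := Submodule.sub_mem _ (hsgn 1 z hz) (hsgn (Function.update 1 i (-1)) z hz)
    have h2 : c + ∑ j, (((1 : Fin r → kˣ) j : kˣ) : k) • L j (z j) -
        (c + ∑ j, (((Function.update (1 : Fin r → kˣ) i (-1)) j : kˣ) : k) • L j (z j)) =
        (2 : k) • L i (z i) := by
      rw [add_sub_add_left_eq_sub, ← Finset.sum_sub_distrib, Finset.sum_eq_single i]
      · rw [Function.update_self, Pi.one_apply, Units.val_one, Units.val_neg, Units.val_one,
          one_smul, neg_smul, one_smul, sub_neg_eq_add, two_smul]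
      · intro j _ hj
        rw [Function.update_of_ne hj, sub_self]
      · intro hi
        exact absurd (Finset.mem_univ i) hi
    rw [h2] at h1
    have h3 := Submodule.smul_mem _ (2 : k)⁻¹ h1
    rwa [smul_smul, inv_mul_cancel₀ htwo, one_smul] at h3
  constructor
  · by_contra hc0
    have h1 : LinearIndependent k (fun _ : Fin 1 => c) := by
      rw [linearIndependent_unique_iff]
      exact hc0
    obtain ⟨w, hw, hwc⟩ := exists_ext (show 1 ≤ r + 1 by omega) (by omega) _ h1
    have h2 : w = Fin.cons c (fun i => w i.succ) := by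
      rw [← hwc 0]
      exact (Fin.cons_self_tail w).symm
    rw [h2, linearIndependent_finCons] at hw
    exact hw.2 (hc _ hw.1)
  · intro i
    obtain ⟨s, rfl⟩ : ∃ s, r = s + 1 := ⟨r - 1, by have := i.isLt; omega⟩
    obtain ⟨a, ha⟩ := LinearMap.exists_eq_smul_id_of_forall_notLinearIndependent (f := L i) (by
      intro v hv
      have h1 : LinearIndependent k ![L i v, v] := by
        have h2 := hv.comp (Equiv.swap (0 : Fin 2) 1) (Equiv.injective _)
        have h3 : ![v, L i v] ∘ (Equiv.swap (0 : Fin 2) 1) = ![L i v, v] := by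
          funext j
          fin_cases j
          · simp
          · simp
        rwa [h3] at h2
      obtain ⟨w, hw, hwu⟩ := exists_ext (show 2 ≤ s + 1 + 1 by omega) (by omega) _ h1
      have h2 : w = Fin.cons (L i v) (fun j => w j.succ) := by
        have h3 := hwu 0
        simp only [Matrix.cons_val_zero] at h3
        rw [← h3]
        exact (Fin.cons_self_tail w).symm
      rw [h2, linearIndependent_finCons] at hw
      apply hw.2
      have h4 : w (Fin.succ 0) = v := by
        have h3 := hwu 1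
        exact h3
      have h5 := hL (fun j => w (Equiv.swap 0 i j).succ)
        (hw.1.comp (Equiv.swap 0 i) (Equiv.injective _)) i
      rw [Equiv.swap_apply_right, h4] at h5
      refine Submodule.span_mono ?_ h5
      rintro _ ⟨j, rfl⟩
      exact ⟨_, rfl⟩)
    exact ⟨a, fun v => by rw [ha]; rfl⟩

omit [CharZero k] in
/-- Independent rows have a nonzero minor. -/
theorem exists_cols {m n : ℕ} (M : Fin m → Fin n → k) (h : LinearIndependent k M) :
    ∃ J : Fin m → Fin n, (Matrix.of fun i j => M i (J j)).det ≠ 0 := by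
  classical
  have h1 : (Matrix.of M).rank = m := by
    have h2 : LinearIndependent k (Matrix.of M).row := h
    rw [h2.rank_matrix, Fintype.card_fin]
  rw [Matrix.rank_eq_finrank_span_cols] at h1
  obtain ⟨f, hf, -, hfi⟩ :=
    Submodule.exists_fun_fin_finrank_span_eq k (Set.range (Matrix.of M).col)
  obtain ⟨g, hg, hgi⟩ : ∃ g : Fin m → Fin m → k, (∀ i, g i ∈ Set.range (Matrix.of M).col) ∧
      LinearIndependent k g :=
    ⟨fun i => f (Fin.cast h1.symm i), fun i => hf _, hfi.comp _ (Fin.cast_injective _)⟩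
  choose J hJ using hg
  refine ⟨J, ?_⟩
  have h3 : (Matrix.of fun i j => M i (J j)).col = g := by
    funext j
    rw [← hJ j]
    rfl
  have h4 : IsUnit (Matrix.of fun i j => M i (J j)) := by
    rw [← Matrix.linearIndependent_cols_iff_isUnit, h3]
    exact hgi
  exact ((Matrix.isUnit_iff_isUnit_det _).1 h4).ne_zero

end LA

section Cof

variable {R S : Type} [CommRing R] [CommRing S] {r n : ℕ}

/-- The cofactors of the first row. -/
def cof (z : Fin r → Fin n → R) (J : Fin (r + 1) → Fin n) (b : Fin (r + 1)) : R :=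
  (-1) ^ (b : ℕ) * (Matrix.of fun a b' : Fin r => z a (J (b.succAbove b'))).det

theorem det_cons (z : Fin r → Fin n → R) (w : Fin n → R) (J : Fin (r + 1) → Fin n) :
    (Matrix.of fun a b => (Fin.cons w z : Fin (r + 1) → Fin n → R) a (J b)).det =
      ∑ b, w (J b) * cof z J b := by
  rw [Matrix.det_succ_row_zero]
  refine Finset.sum_congr rfl fun b _ => ?_
  unfold cof
  have h1 : (Matrix.of fun a b => (Fin.cons w z : Fin (r + 1) → Fin n → R) a (J b)).submatrix
      Fin.succ b.succAbove = Matrix.of fun a b' : Fin r => z a (J (b.succAbove b')) := by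
    funext a b'
    rfl
  rw [h1]
  have h2 : (Matrix.of fun a b => (Fin.cons w z : Fin (r + 1) → Fin n → R) a (J b)) 0 b =
      w (J b) := rfl
  rw [h2]
  ring

theorem map_cof (f : R →+* S) (z : Fin r → Fin n → R) (J : Fin (r + 1) → Fin n)
    (b : Fin (r + 1)) : f (cof z J b) = cof (fun i j => f (z i j)) J b := by
  unfold cof
  rw [map_mul, map_pow, map_neg, map_one, RingHom.map_det]
  rfl

end Cof

variable {r n : ℕ}

theorem tdm {σ : Type} (P : MvPolynomial σ Qa) :
    (map (algebraMap Qa ℂ) P).totalDegree ≤ P.totalDegree := by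
  unfold MvPolynomial.totalDegree
  exact Finset.sup_mono (support_map_subset _ _)

/-- The variable of the entry. -/
noncomputable def Xm (r n : ℕ) : Fin r → Fin n → MvPolynomial (Fin (r * n)) Qa :=
  fun i j => X (finProdFinEquiv (i, j))

theorem totalDegree_cof (J : Fin (r + 1) → Fin n) (b : Fin (r + 1)) :
    (cof (Xm r n) J b).totalDegree ≤ r := by
  classical
  unfold cof
  refine (totalDegree_mul _ _).trans ?_
  have h1 : ((-1 : MvPolynomial (Fin (r * n)) Qa) ^ (b : ℕ)).totalDegree = 0 := by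
    have h2 : (-1 : MvPolynomial (Fin (r * n)) Qa) ^ (b : ℕ) = C ((-1) ^ (b : ℕ)) := by
      rw [map_pow, map_neg, map_one]
    rw [h2, totalDegree_C]
  rw [h1, zero_add, Matrix.det_apply]
  refine totalDegree_finsetSum_le fun σ _ => ?_
  have h3 : (∏ i, (Matrix.of fun a b' : Fin r => Xm r n a (J (b.succAbove b'))) (σ i) i).totalDegree
      ≤ r := by
    refine (totalDegree_finsetProd _ _).trans ?_
    calc ∑ i : Fin r, ((Matrix.of fun a b' : Fin r =>
          Xm r n a (J (b.succAbove b'))) (σ i) i).totalDegree ≤ ∑ _i : Fin r, 1 := by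
          refine Finset.sum_le_sum fun i _ => ?_
          rw [Matrix.of_apply]
          unfold Xm
          rw [totalDegree_X]
      _ = r := by simp
  rcases Int.units_eq_one_or (Equiv.Perm.sign σ) with h2 | h2
  · rw [h2, one_smul]
    exact h3
  · rw [h2, Units.neg_smul, one_smul, totalDegree_neg]
    exact h3

/-- The determinant as a polynomial in the entries of the integer rows. -/
noncomputable def FJ (l : Fin n → ℂ) (J : Fin (r + 1) → Fin n) :
    MvPolynomial (Fin (r * n)) ℂ :=
  ∑ b, C (l (J b)) * map (algebraMap Qa ℂ) (cof (Xm r n) J b)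

theorem eval_FJ (l : Fin n → ℂ) (J : Fin (r + 1) → Fin n) (y : Fin (r * n) → ℂ) :
    eval y (FJ l J) = ∑ b, l (J b) * cof (fun i j => y (finProdFinEquiv (i, j))) J b := by
  unfold FJ
  rw [map_sum]
  refine Finset.sum_congr rfl fun b _ => ?_
  rw [map_mul, eval_C]
  congr 1
  have h1 := map_cof ((eval y).comp (map (algebraMap Qa ℂ))) (Xm r n) J b
  rw [RingHom.comp_apply] at h1
  rw [h1]
  congr 1
  funext i j
  unfold Xm
  rw [RingHom.comp_apply, map_X, eval_X]

theorem mem_one_iff {x : ℂ} : x ∈ (1 : Submodule Qa ℂ) ↔ ∃ a : Qa, (a : ℂ) = x := by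
  rw [Submodule.mem_one]
  rfl

/-- **One arbitrary row.** -/
theorem rows_of_good {B : ℕ} (hrn : r < n) (b : Fin (r * n) → ℕ)
    (hb : ∀ i, 1 ≤ b i ∧ b i ≤ B) (hgood : b ∉ BadN (1 : Submodule Qa ℂ) (r + 1) B)
    (l : Fin n → ℂ) (hl : ∀ j, l j ∈ Lt)
    (hdep : ¬ LinearIndependent ℂ (Fin.cons l (fun i j =>
      ((Real.log (b (finProdFinEquiv (i, j))) : ℝ) : ℂ)) : Fin (r + 1) → Fin n → ℂ)) :
    ∃ α : Fin r → Qa, ∀ j, l j = ∑ i, (α i : ℂ) *
      ((Real.log (b (finProdFinEquiv (i, j))) : ℝ) : ℂ) := by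
  classical
  obtain ⟨y, hy⟩ : ∃ y : Fin (r * n) → ℂ, y = fun p => ((Real.log (b p) : ℝ) : ℂ) := ⟨_, rfl⟩
  have hyp : ∀ p, ((Real.log (b p) : ℝ) : ℂ) = y p := fun p => by rw [hy]
  simp only [hyp] at hdep ⊢
  have hPts : Pts (1 : Submodule Qa ℂ) b y := by
    intro i
    refine ⟨1, one_ne_zero, ?_⟩
    rw [hyp]
    have : y i - ((1 : Qa) : ℂ) * y i = 0 := by
      rw [show ((1 : Qa) : ℂ) = 1 from rfl, one_mul, sub_self]
    rw [this]
    exact Submodule.zero_mem _
  have hcomb : ∀ A ≤ (1 : Submodule Qa ℂ), ∀ F : MvPolynomial (Fin (r * n)) ℂ,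
      F.totalDegree ≤ r + 1 → (∀ m, F.coeff m ∈ (1 : Submodule Qa ℂ) ⊔ A * Lt) → eval y F = 0 →
        Comb A (r + 1) y F := by
    intro A hA F hF hFc hF0
    by_contra hcon
    exact hgood ⟨hb, y, hPts, A, hA, F, hF, hFc, hF0, hcon⟩
  -- independence
  have hind : ∀ (c0 : Qa) (c : Fin (r * n) → Qa), (c0 : ℂ) + ∑ p, (c p : ℂ) * y p = 0 →
      c0 = 0 ∧ ∀ p, c p = 0 := by
    intro c0 c h0
    obtain ⟨P, hP⟩ : ∃ P : MvPolynomial (Fin (r * n)) Qa, P = C c0 + ∑ p, C (c p) * X p :=
      ⟨_, rfl⟩
    have h1 : Comb ⊥ (r + 1) y (map (algebraMap Qa ℂ) P) := by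
      refine hcomb ⊥ bot_le _ ?_ ?_ ?_
      · refine (tdm _).trans ?_
        rw [hP]
        refine (totalDegree_add _ _).trans (max_le ?_ ?_)
        · rw [totalDegree_C]
          exact Nat.zero_le _
        · refine totalDegree_finsetSum_le fun p _ => ?_
          refine (totalDegree_mul _ _).trans ?_
          rw [totalDegree_C, totalDegree_X]
          exact Nat.succ_le_succ (Nat.zero_le r)
      · intro m
        rw [coeff_map]
        exact Submodule.mem_sup_left (mem_one_iff.2 ⟨_, rfl⟩)
      · rw [eval_map, hP, eval₂_add, eval₂_C, eval₂_sum]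
        rw [← h0]
        congr 1
        refine Finset.sum_congr rfl fun p _ => ?_
        rw [eval₂_mul, eval₂_C, eval₂_X]
        rfl
    obtain ⟨G, hG, -, hG2⟩ := h1
    have h2 : ∀ i, G i = 0 := by
      intro i
      ext m
      rw [coeff_zero]
      exact (Submodule.mem_bot Qa).1 (hG i m)
    have h3 : P = 0 := by
      apply map_injective (algebraMap Qa ℂ) (algebraMap Qa ℂ).injective
      rw [hG2, map_zero]
      exact Finset.sum_eq_zero fun i _ => by rw [h2 i, mul_zero]
    constructor
    · have h4 : coeff 0 P = c0 := by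
        rw [hP, coeff_add, coeff_C, if_pos rfl, coeff_sum, Finset.sum_eq_zero, add_zero]
        intro p _
        rw [coeff_C_mul, coeff_X, if_neg, mul_zero]
        intro h5
        have h6 := DFunLike.congr_fun h5 p
        rw [Finsupp.single_eq_same] at h6
        exact one_ne_zero h6
      rw [← h4, h3, coeff_zero]
    · intro p
      have h4 : coeff (Finsupp.single p 1) P = c p := by
        rw [hP, coeff_add, coeff_C, if_neg, coeff_sum, Finset.sum_eq_single p, zero_add]
        · rw [coeff_C_mul, coeff_X, if_pos rfl, mul_one]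
        · intro q _ hq
          rw [coeff_C_mul, coeff_X, if_neg, mul_zero]
          intro h5
          exact hq (Finsupp.single_left_injective one_ne_zero h5)
        · intro h5
          exact absurd (Finset.mem_univ p) h5
        · intro h5
          have h6 := DFunLike.congr_fun h5 p
          rw [Finsupp.single_eq_same] at h6
          exact one_ne_zero h6.symm
      rw [← h4, h3, coeff_zero]
  -- the determinants vanish
  have hdet : ∀ J : Fin (r + 1) → Fin n,
      ∑ b, l (J b) * cof (fun i j => y (finProdFinEquiv (i, j))) J b = 0 := by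
    intro J
    rw [← det_cons]
    rw [Fintype.not_linearIndependent_iff] at hdep
    obtain ⟨g, hg, i0, hi0⟩ := hdep
    refine Matrix.exists_vecMul_eq_zero_iff.1 ⟨g, fun h1 => hi0 (congrFun h1 i0), ?_⟩
    funext b'
    have h2 := congrFun hg (J b')
    rw [Finset.sum_apply] at h2
    exact h2
  have hid : ∀ (J : Fin (r + 1) → Fin n) (z : Fin (r * n) → Qa), ∃ g : Fin (r * n) → Qa,
      ∑ b, l (J b) * ((cof (fun i j => z (finProdFinEquiv (i, j))) J b : Qa) : ℂ) =
        ∑ p, ((z p : ℂ) - y p) * (g p : ℂ) := by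
    intro J z
    obtain ⟨G, hG, -, hG2⟩ := hcomb 1 le_rfl (FJ l J) (by
      unfold FJ
      refine totalDegree_finsetSum_le fun b _ => ?_
      refine (totalDegree_mul _ _).trans ?_
      rw [totalDegree_C, zero_add]
      exact ((tdm _).trans (totalDegree_cof J b)).trans (Nat.le_succ r)) (by
      intro m
      refine Submodule.mem_sup_right ?_
      rw [one_mul]
      unfold FJ
      rw [coeff_sum]
      refine Submodule.sum_mem _ fun b _ => ?_
      rw [coeff_C_mul, coeff_map, mul_comm]
      exact Lt.smul_mem _ (hl (J b))) (by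
      rw [eval_FJ]
      exact hdet J)
    have h1 : ∀ p, ∃ g : Qa, (g : ℂ) = eval (fun q => (z q : ℂ)) (G p) := by
      intro p
      refine mem_one_iff.1 ?_
      rw [eval_eq']
      refine Submodule.sum_mem _ fun m _ => ?_
      obtain ⟨c, hc⟩ := mem_one_iff.1 (hG p m)
      refine mem_one_iff.2 ⟨c * ∏ q, z q ^ m q, ?_⟩
      rw [← hc]
      change algebraMap Qa ℂ (c * ∏ q, z q ^ m q) = _
      rw [map_mul, map_prod]
      congr 1
    choose g hg using h1
    refine ⟨g, ?_⟩
    have h2 := congrArg (eval fun q => (z q : ℂ)) hG2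
    rw [eval_FJ, map_sum] at h2
    have h3 : ∀ b', (cof (fun i j => (z (finProdFinEquiv (i, j)) : ℂ)) J b') =
        ((cof (fun i j => z (finProdFinEquiv (i, j))) J b' : Qa) : ℂ) := by
      intro b'
      exact (map_cof (algebraMap Qa ℂ) (fun i j => z (finProdFinEquiv (i, j))) J b').symm
    simp only [h3] at h2
    rw [h2]
    refine Finset.sum_congr rfl fun p _ => ?_
    rw [map_mul, map_sub, eval_X, eval_C, ← hg p]
  -- the entries of the row
  have hent : ∀ j, ∃ (c : Qa) (d : Fin (r * n) → Qa), l j = (c : ℂ) + ∑ p, (d p : ℂ) * y p := by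
    intro j
    obtain ⟨n', rfl⟩ : ∃ n', n = n' + 1 := ⟨n - 1, by omega⟩
    obtain ⟨ι, hι⟩ : ∃ ι : Fin r → Fin (n' + 1), ι = fun i =>
        j.succAbove (Fin.castLE (by omega) i) := ⟨_, rfl⟩
    have hιj : ∀ i, ι i ≠ j := fun i => by
      rw [hι]
      exact Fin.succAbove_ne j _
    have hιi : Function.Injective ι := by
      rw [hι]
      exact Fin.succAbove_right_injective.comp (Fin.castLE_injective _)
    obtain ⟨z, hz⟩ : ∃ z : Fin (r * (n' + 1)) → Qa, z = fun p =>
        if (finProdFinEquiv.symm p).2 = ι (finProdFinEquiv.symm p).1 then 1 else 0 := ⟨_, rfl⟩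
    have hz' : ∀ i j', z (finProdFinEquiv (i, j')) = if j' = ι i then 1 else 0 := by
      intro i j'
      rw [hz]
      simp only [Equiv.symm_apply_apply]
    obtain ⟨g, hg⟩ := hid (Fin.cons j ι) z
    rw [Fin.sum_univ_succ] at hg
    have h1 : cof (fun i j' => z (finProdFinEquiv (i, j'))) (Fin.cons j ι) 0 = 1 := by
      unfold cof
      rw [Fin.val_zero, pow_zero, one_mul]
      have h2 : (Matrix.of fun a b' : Fin r => z (finProdFinEquiv
          (a, (Fin.cons j ι : Fin (r + 1) → Fin (n' + 1)) ((0 : Fin (r + 1)).succAbove b')))) =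
          (1 : Matrix (Fin r) (Fin r) Qa) := by
        funext a b'
        rw [Matrix.of_apply, Fin.zero_succAbove, Fin.cons_succ, hz', Matrix.one_apply]
        by_cases h3 : a = b'
        · rw [h3, if_pos rfl, if_pos rfl]
        · rw [if_neg fun h4 => h3 (hιi h4).symm, if_neg h3]
      rw [h2, Matrix.det_one]
    have h2 : ∀ b' : Fin r, cof (fun i j' => z (finProdFinEquiv (i, j'))) (Fin.cons j ι)
        b'.succ = 0 := by
      intro b'
      unfold cof
      obtain ⟨s, rfl⟩ : ∃ s, r = s + 1 := ⟨r - 1, by have := b'.isLt; omega⟩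
      rw [Matrix.det_eq_zero_of_column_eq_zero (0 : Fin (s + 1)), mul_zero]
      intro a
      rw [Matrix.of_apply, Fin.succ_succAbove_zero, Fin.cons_zero]
      exact (hz' a j).trans (if_neg (hιj a).symm)
    rw [h1] at hg
    simp only [h2] at hg
    have h3 : ((0 : Qa) : ℂ) = 0 := rfl
    have h4 : ((1 : Qa) : ℂ) = 1 := rfl
    rw [h4, mul_one, Fin.cons_zero] at hg
    simp only [h3, mul_zero, Finset.sum_const_zero, add_zero] at hg
    refine ⟨∑ p, z p * g p, fun p => -g p, ?_⟩
    rw [hg]
    have h5 : ((∑ p, z p * g p : Qa) : ℂ) = ∑ p, (z p : ℂ) * (g p : ℂ) := by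
      change algebraMap Qa ℂ (∑ p, z p * g p) = _
      rw [map_sum]
      refine Finset.sum_congr rfl fun p _ => ?_
      rw [map_mul]
      rfl
    rw [h5, ← Finset.sum_add_distrib]
    refine Finset.sum_congr rfl fun p _ => ?_
    have h6 : ((-g p : Qa) : ℂ) = -(g p : ℂ) := rfl
    rw [h6]
    ring
  choose c d hcd using hent
  -- the identity
  have hzero : ∀ (J : Fin (r + 1) → Fin n) (z : Fin (r * n) → Qa),
      ∑ b, (c (J b) + ∑ p, d (J b) p * z p) *
        cof (fun i j => z (finProdFinEquiv (i, j))) J b = 0 := by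
    intro J z
    obtain ⟨g, hg⟩ := hid J z
    obtain ⟨κ, hκ⟩ : ∃ κ : Fin (r + 1) → Qa,
        κ = fun b => cof (fun i j => z (finProdFinEquiv (i, j))) J b := ⟨_, rfl⟩
    have hκ' : ∀ b, cof (fun i j => z (finProdFinEquiv (i, j))) J b = κ b := fun b => by rw [hκ]
    simp only [hκ'] at hg ⊢
    have h1 := hind (∑ b, c (J b) * κ b - ∑ p, z p * g p)
      (fun p => ∑ b, d (J b) p * κ b + g p) (by
        have e1 : ((∑ b, c (J b) * κ b - ∑ p, z p * g p : Qa) : ℂ) =
            ∑ b, (c (J b) : ℂ) * (κ b : ℂ) - ∑ p, (z p : ℂ) * (g p : ℂ) := by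
          change algebraMap Qa ℂ (∑ b, c (J b) * κ b - ∑ p, z p * g p) = _
          rw [map_sub, map_sum, map_sum]
          congr 1
        have e2 : ∀ p, ((∑ b, d (J b) p * κ b + g p : Qa) : ℂ) =
            ∑ b, (d (J b) p : ℂ) * (κ b : ℂ) + (g p : ℂ) := by
          intro p
          change algebraMap Qa ℂ (∑ b, d (J b) p * κ b + g p) = _
          rw [map_add, map_sum]
          congr 1
        have e3 : ∑ b, l (J b) * (κ b : ℂ) = ∑ b, (c (J b) : ℂ) * (κ b : ℂ) +
            ∑ p, (∑ b, (d (J b) p : ℂ) * (κ b : ℂ)) * y p := by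
          have h2 : ∀ b', l (J b') * (κ b' : ℂ) = (c (J b') : ℂ) * (κ b' : ℂ) +
              ∑ p, (d (J b') p : ℂ) * (κ b' : ℂ) * y p := by
            intro b'
            rw [hcd (J b'), add_mul, Finset.sum_mul]
            congr 1
            refine Finset.sum_congr rfl fun p _ => ?_
            ring
          simp only [h2]
          rw [Finset.sum_add_distrib]
          congr 1
          rw [Finset.sum_comm]
          refine Finset.sum_congr rfl fun p _ => ?_
          rw [Finset.sum_mul]
        rw [e3] at hg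
        rw [e1]
        simp only [e2, add_mul]
        rw [Finset.sum_add_distrib]
        have h3 : ∑ p, ((z p : ℂ) - y p) * (g p : ℂ) =
            ∑ p, (z p : ℂ) * (g p : ℂ) - ∑ p, (g p : ℂ) * y p := by
          rw [← Finset.sum_sub_distrib]
          refine Finset.sum_congr rfl fun p _ => ?_
          ring
        rw [h3] at hg
        linear_combination hg)
    obtain ⟨h2, h3⟩ := h1
    have h4 : ∑ b, (c (J b) + ∑ p, d (J b) p * z p) * κ b =
        ∑ b, c (J b) * κ b + ∑ p, z p * ∑ b, d (J b) p * κ b := by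
      have h5 : ∀ b', (c (J b') + ∑ p, d (J b') p * z p) * κ b' =
          c (J b') * κ b' + ∑ p, z p * (d (J b') p * κ b') := by
        intro b'
        rw [add_mul, Finset.sum_mul]
        congr 1
        refine Finset.sum_congr rfl fun p _ => ?_
        ring
      simp only [h5]
      rw [Finset.sum_add_distrib]
      congr 1
      rw [Finset.sum_comm]
      refine Finset.sum_congr rfl fun p _ => ?_
      rw [Finset.mul_sum]
    rw [h4]
    have h5 : ∀ p, ∑ b, d (J b) p * κ b = -g p := fun p => eq_neg_of_add_eq_zero_left (h3 p)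
    simp only [h5]
    rw [sub_eq_zero.1 h2, ← Finset.sum_add_distrib]
    refine Finset.sum_eq_zero fun p _ => ?_
    ring
  -- the linear algebra
  obtain ⟨L, hL⟩ : ∃ L : Fin r → (Fin n → Qa) →ₗ[Qa] (Fin n → Qa), ∀ i v j,
      L i v j = ∑ j', d j (finProdFinEquiv (i, j')) * v j' := by
    refine ⟨fun i => Matrix.toLin' (Matrix.of fun j j' => d j (finProdFinEquiv (i, j'))),
      fun i v j => ?_⟩
    rw [Matrix.toLin'_apply]
    rfl
  have hsum : ∀ (j : Fin n) (z : Fin (r * n) → Qa), ∑ p, d j p * z p =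
      ∑ i, ∑ j', d j (finProdFinEquiv (i, j')) * z (finProdFinEquiv (i, j')) := by
    intro j z
    rw [← Fintype.sum_prod_type', ← finProdFinEquiv.sum_comp fun p => d j p * z p]
  have hfr : finrank Qa (Fin n → Qa) = n := by
    rw [finrank_fintype_fun_eq_card, Fintype.card_fin]
  obtain ⟨hc0, hα⟩ := la (k := Qa) (V := Fin n → Qa) (by rw [hfr]; exact hrn) c L (by
    intro z hz
    by_contra hcon
    obtain ⟨J, hJ⟩ := exists_cols _ (linearIndependent_finCons.2 ⟨hz, hcon⟩)
    apply hJ
    rw [det_cons]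
    have h1 := hzero J (fun p => z (finProdFinEquiv.symm p).1 (finProdFinEquiv.symm p).2)
    simp only [Equiv.symm_apply_apply] at h1
    rw [← h1]
    refine Finset.sum_congr rfl fun b' _ => ?_
    congr 1
    rw [Pi.add_apply, Finset.sum_apply, hsum]
    simp only [Equiv.symm_apply_apply, hL])
  choose α hα using hα
  refine ⟨α, fun j => ?_⟩
  have hd : ∀ i j', d j (finProdFinEquiv (i, j')) = if j = j' then α i else 0 := by
    intro i j'
    have h1 := congrFun (hα i (Pi.single j' 1)) j
    rw [hL, Finset.sum_eq_single j'] at h1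
    · rw [Pi.single_eq_same, mul_one, Pi.smul_apply, smul_eq_mul, Pi.single_apply] at h1
      rw [h1]
      split_ifs
      · rw [mul_one]
      · rw [mul_zero]
    · intro j'' _ hj''
      rw [Pi.single_eq_of_ne hj'', mul_zero]
    · intro h2
      exact absurd (Finset.mem_univ j') h2
  rw [hcd j, hc0]
  have h0 : (((0 : Fin n → Qa) j : Qa) : ℂ) = 0 := rfl
  rw [h0, zero_add, ← finProdFinEquiv.sum_comp fun p => (d j p : ℂ) * y p,
    Fintype.sum_prod_type]
  refine Finset.sum_congr rfl fun i _ => ?_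
  rw [Finset.sum_eq_single j]
  · rw [hd, if_pos rfl]
  · intro j' _ hj'
    rw [hd, if_neg (Ne.symm hj')]
    have h3 : ((0 : Qa) : ℂ) = 0 := rfl
    rw [h3, zero_mul]
  · intro h2
    exact absurd (Finset.mem_univ j) h2

/-- The integer matrices for which some row of `Lt` is `ℂ`-dependent on the rows of logarithms
without being a `Qa`-combination of them. -/
def BadR (r n : ℕ) : Set (Fin r → Fin n → ℕ) :=
  {b | ∃ l : Fin n → ℂ, (∀ j, l j ∈ Lt) ∧
    ¬ LinearIndependent ℂ (Fin.cons l (fun i j => ((Real.log (b i j) : ℝ) : ℂ)) :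
      Fin (r + 1) → Fin n → ℂ) ∧
    ¬ ∃ α : Fin r → Qa, ∀ j, l j = ∑ i, (α i : ℂ) * ((Real.log (b i j) : ℝ) : ℂ)}

/-- **Matrices of logarithms with one arbitrary row.** -/
theorem rows {r n : ℕ} (hrn : r < n) : ∃ K : ℕ, ∀ B : ℕ, 16 ≤ B →
    ({b : Fin r → Fin n → ℕ | (∀ i j, 1 ≤ b i j ∧ b i j ≤ B) ∧ b ∈ BadR r n}.ncard : ℝ) ≤
      K * Real.log (Real.log B) ^ K / Real.log B * B ^ (r * n) := by
  obtain ⟨K, hK⟩ := main (r * n) (r + 1) 1
  refine ⟨K, fun B hB => ?_⟩
  have h1 : FiniteDimensional Qa ((1 : Submodule Qa ℂ) : Type) := by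
    rw [Submodule.one_eq_span]
    infer_instance
  have h2 : finrank Qa ((1 : Submodule Qa ℂ) : Type) ≤ 1 := by
    rw [Submodule.one_eq_span]
    exact (finrank_span_singleton (K := Qa) (one_ne_zero : (1 : ℂ) ≠ 0)).le
  refine le_trans ?_ (hK 1 h1 h2 (Submodule.one_le.1 le_rfl) B hB)
  obtain ⟨f, hf⟩ : ∃ f : (Fin r → Fin n → ℕ) → Fin (r * n) → ℕ, ∀ b p,
      f b p = b (finProdFinEquiv.symm p).1 (finProdFinEquiv.symm p).2 :=
    ⟨fun b p => b (finProdFinEquiv.symm p).1 (finProdFinEquiv.symm p).2, fun _ _ => rfl⟩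
  have hf' : ∀ b i j, f b (finProdFinEquiv (i, j)) = b i j := by
    intro b i j
    rw [hf, Equiv.symm_apply_apply]
  have hfi : Function.Injective f := by
    intro b b' h
    funext i j
    rw [← hf' b, ← hf' b', h]
  have hfin : (BadN (n := r * n) (1 : Submodule Qa ℂ) (r + 1) B).Finite := by
    refine (Set.finite_Icc (fun _ : Fin (r * n) => 1) (fun _ => B)).subset fun b hb => ?_
    exact ⟨fun i => (hb.1 i).1, fun i => (hb.1 i).2⟩
  have h3 : {b : Fin r → Fin n → ℕ | (∀ i j, 1 ≤ b i j ∧ b i j ≤ B) ∧ b ∈ BadR r n}.ncard ≤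
      (BadN (n := r * n) (1 : Submodule Qa ℂ) (r + 1) B).ncard := by
    refine Set.ncard_le_ncard_of_injOn f ?_ hfi.injOn hfin
    rintro b ⟨hb, l, hl, hdep, hno⟩
    by_contra hcon
    apply hno
    obtain ⟨α, hα⟩ := rows_of_good hrn (f b) (fun p => by rw [hf]; exact hb _ _) hcon l hl (by
      simp only [hf']
      exact hdep)
    refine ⟨α, fun j => ?_⟩
    rw [hα j]
    simp only [hf']
  exact_mod_cast h3

end MP60829e.ZL
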