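import Mathlib
import Pool.Agent.Lib.MP_60829e_nt.ZL.One
import Pool.Agent.Lib.MP_60829e_nt.ZL.LD
import Pool.Agent.Lib.MP_60829e_nt.ZB.Defs
import Pool.Agent.Lib.MP_60829e_nt.ZB.Four
import Pool.Agent.Lib.MP_60829e_nt.ZB.TupA

/-! # Theorem ZL contains the theorem on products of two logarithms -/

open Module

namespace MP60829e.ZL

open MP60829e.ST (Qa Lt)
open MP60829e.ZB (BadZ)

private theorem one_mem_Lt2 : (1 : ℂ) ∈ Lt := Submodule.subset_span (Or.inl rfl)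

private theorem log_mem {n : ℕ} (hn : 1 ≤ n) : ((Real.log n : ℝ) : ℂ) ∈ Lt := by
  refine Submodule.subset_span (Or.inr ?_)
  show IsAlgebraic ℚ (Complex.exp ((Real.log n : ℝ) : ℂ))
  rw [← Complex.ofReal_exp, Real.exp_log (by exact_mod_cast hn)]
  have := isAlgebraic_natCast (R := ℚ) (A := ℂ) n
  exact_mod_cast this

/-- `l * log n ∈ Th * Lt` with `l` not in `Th` contradicts the two-space property of `log n` for
`Qa + Th` in degree one. -/
theorem badZ_sub (Th : Submodule Qa ℂ) {n : ℕ} (hn : 1 ≤ n) (h : n ∈ BadZ Lt Th) :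
    n ∈ BadOne (Submodule.span Qa {(1 : ℂ)} ⊔ Th) 1 := by
  by_contra hcon
  obtain ⟨l, hl, hlT, hlx⟩ := h
  obtain ⟨E, hE⟩ : ∃ E, E = Submodule.span Qa {(1 : ℂ)} ⊔ Th := ⟨_, rfl⟩
  rw [← hE] at hcon
  obtain ⟨x, hx⟩ : ∃ x, x = ((Real.log n : ℝ) : ℂ) := ⟨_, rfl⟩
  rw [← hx] at hlx
  have hxL : x ∈ Lt := by rw [hx]; exact log_mem hn
  have h1E : (1 : ℂ) ∈ E := by
    rw [hE]
    exact Submodule.mem_sup_left (Submodule.mem_span_singleton_self 1)
  have hThE : Th ≤ E := by rw [hE]; exact le_sup_right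
  have hgood : ∀ A ≤ E, ∀ a b : ℂ, a ∈ E ⊔ A * Lt → b ∈ E ⊔ A * Lt → a * x = b → a ≠ 0 →
      a ∈ A := by
    intro A hA a b ha hb hab ha0
    obtain ⟨F, hF⟩ : ∃ F : Polynomial ℂ, F = Polynomial.C a * Polynomial.X - Polynomial.C b :=
      ⟨_, rfl⟩
    have hF1 : F = (Polynomial.X - Polynomial.C x) * Polynomial.C a := by
      rw [hF, ← hab, Polynomial.C_mul]
      ring
    have hex : ∃ G : Polynomial ℂ, (∀ j, G.coeff j ∈ A) ∧
        F = (Polynomial.X - Polynomial.C x) * G := by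
      by_contra hno
      refine hcon ⟨1, one_ne_zero, 0, Submodule.zero_mem _, A, hA, F, fun j => ?_, ?_, ?_, ?_⟩
      · rw [hF, Polynomial.coeff_sub, Polynomial.coeff_C_mul, Polynomial.coeff_X,
          Polynomial.coeff_C]
        refine Submodule.sub_mem _ ?_ ?_
        · split_ifs
          · rw [mul_one]; exact ha
          · rw [mul_zero]; exact Submodule.zero_mem _
        · split_ifs
          · exact hb
          · exact Submodule.zero_mem _
      · rw [hF]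
        refine (Polynomial.natDegree_sub_C).le.trans ?_
        exact (Polynomial.natDegree_C_mul_le a _).trans Polynomial.natDegree_X_le
      · have h0 : F.eval x = 0 := by
          rw [hF1, Polynomial.eval_mul, Polynomial.eval_sub, Polynomial.eval_X,
            Polynomial.eval_C, sub_self, zero_mul]
        have h2 : ((1 : Qa) : ℂ) * ((Real.log n : ℝ) : ℂ) + 0 = x := by
          rw [hx]
          push_cast
          ring
        rw [h2]
        exact h0
      · have h2 : ((1 : Qa) : ℂ) * ((Real.log n : ℝ) : ℂ) + 0 = x := by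
          rw [hx]
          push_cast
          ring
        rw [h2]
        exact hno
    obtain ⟨G, hG, hFG⟩ := hex
    have h3 : G = Polynomial.C a := by
      have h4 : (Polynomial.X - Polynomial.C x) * G = (Polynomial.X - Polynomial.C x) *
          Polynomial.C a := by rw [← hFG, ← hF1]
      exact mul_left_cancel₀ (Polynomial.X_sub_C_ne_zero x) h4
    have h4 := hG 0
    rw [h3, Polynomial.coeff_C_zero] at h4
    exact h4
  have hl0 : l ≠ 0 := by
    rintro rfl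
    exact hlT (Submodule.zero_mem _)
  -- `l` is in `E`
  have hlE : l ∈ E := by
    refine hgood E le_rfl l (l * x) (Submodule.mem_sup_right ?_) (Submodule.mem_sup_right ?_) rfl hl0
    · rw [← one_mul l]
      exact Submodule.mul_mem_mul h1E hl
    · exact (mul_le_mul' hThE le_rfl : Th * Lt ≤ E * Lt) hlx
  rw [hE, Submodule.mem_sup] at hlE
  obtain ⟨c, hc, θ, hθ, hcθ⟩ := hlE
  rw [Submodule.mem_span_singleton] at hc
  obtain ⟨c, rfl⟩ := hc
  have hc0 : c ≠ 0 := by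
    rintro rfl
    apply hlT
    rw [← hcθ, zero_smul, zero_add]
    exact hθ
  -- `x` is in `Th * Lt`
  have hxT : x ∈ Th * Lt := by
    have h1 : c • x ∈ Th * Lt := by
      have h2 : c • x = l * x - θ * x := by
        rw [← hcθ, Algebra.smul_def, Algebra.smul_def]
        ring
      rw [h2]
      exact Submodule.sub_mem _ hlx (Submodule.mul_mem_mul hθ hxL)
    have h3 := Submodule.smul_mem _ c⁻¹ h1
    rwa [smul_smul, inv_mul_cancel₀ hc0, one_smul] at h3
  have h1T : (1 : ℂ) ∈ Th := hgood Th hThE 1 x (Submodule.mem_sup_left h1E)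
    (Submodule.mem_sup_right hxT) (one_mul x) one_ne_zero
  apply hlT
  rw [← hcθ]
  exact Submodule.add_mem _ (Submodule.smul_mem _ c h1T) hθ

/-- One integer. -/
theorem oneZ (h : ℕ) : ∃ K : ℕ, ∀ Th : Submodule Qa ℂ, FiniteDimensional Qa Th →
    finrank Qa Th ≤ h → ∀ B : ℕ, 16 ≤ B →
      ({n : ℕ | 1 ≤ n ∧ n ≤ B ∧ n ∈ BadZ Lt Th}.ncard : ℝ) ≤
        K * Real.log (Real.log B) ^ K / Real.log B * B := by
  obtain ⟨K, hK⟩ := count_one (h + 1) 1
  refine ⟨K, fun Th hf hr B hB => ?_⟩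
  have h1 : finrank Qa ↥(Submodule.span Qa {(1 : ℂ)} ⊔ Th) ≤ h + 1 := by
    refine (Submodule.finrank_add_le_finrank_add_finrank _ _).trans ?_
    have := finrank_span_singleton (K := Qa) (one_ne_zero : (1 : ℂ) ≠ 0)
    omega
  refine le_trans ?_ (hK (Submodule.span Qa {(1 : ℂ)} ⊔ Th) inferInstance h1
    (Submodule.mem_sup_left (Submodule.mem_span_singleton_self 1)) B hB)
  have h2 : {n : ℕ | 1 ≤ n ∧ n ≤ B ∧ n ∈ BadZ Lt Th} ⊆
      {b : ℕ | 1 ≤ b ∧ b ≤ B ∧ b ∈ BadOne (Submodule.span Qa {(1 : ℂ)} ⊔ Th) 1} :=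
    fun n hn => ⟨hn.1, hn.2.1, badZ_sub Th hn.1 hn.2.2⟩
  exact_mod_cast Set.ncard_le_ncard h2
    ((Set.finite_Icc 1 B).subset fun n hn => Set.mem_Icc.2 ⟨hn.1, hn.2.1⟩)

/-- Four exponentials. -/
theorem four : ∃ K : ℕ, ∀ θ : ℂ, θ ≠ 0 → IsAlgebraic ℚ (Complex.exp θ) → ∀ B : ℕ, 16 ≤ B →
      ({n : ℕ | 1 ≤ n ∧ n ≤ B ∧ ∃ t : ℂ, IsAlgebraic ℚ (Complex.exp (t * θ)) ∧
        IsAlgebraic ℚ (Complex.exp (t * ((Real.log n : ℝ) : ℂ))) ∧
          ¬ ∃ q : ℚ, (q : ℂ) = t}.ncard : ℝ) ≤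
        K * Real.log (Real.log B) ^ K / Real.log B * B :=
  ZB.four_of_one (oneZ 1)

/-- Tuples. -/
theorem tupZ (h n : ℕ) : ∃ K : ℕ, ∀ Th : Submodule Qa ℂ, FiniteDimensional Qa Th →
    finrank Qa Th ≤ h → ∀ B : ℕ, 16 ≤ B →
      ({b : Fin n → ℕ | (∀ i, 1 ≤ b i ∧ b i ≤ B) ∧ ¬ ∀ i, ∀ l ∈ Lt,
        l * ((Real.log (b i) : ℝ) : ℂ) ∈ (Th ⊔ Submodule.span Qa
          ((fun j => ((Real.log (b j) : ℝ) : ℂ)) '' {j | j < i})) * Lt →
        l ∈ Th ⊔ Submodule.span Qa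
          ((fun j => ((Real.log (b j) : ℝ) : ℂ)) '' {j | j < i})}.ncard : ℝ) ≤
        K * Real.log (Real.log B) ^ K / Real.log B * B ^ n :=
  ZB.tup_of_one h n (oneZ (h + n))

end MP60829e.ZL
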