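import Mathlib
import Pool.Agent.Lib.MP_60829e_nt.ZL.Bridge
import Pool.Agent.Lib.MP_60829e_nt.HL

/-! # Theorem ZL: four exponentials for almost all integers, all second rows and all first
logarithms in a finite dimensional space at once -/

open Module

namespace MP60829e.ZL

open MP60829e.ST (Qa Lt)
open MP60829e.ZB (BadZ)

/-- `Th ≤ E`, `1 ∈ E`: `l * log n ∈ Th * Lt` with `l` in `Lt`, not in `Th`, contradicts the two-space
property of `log n` for `E` in degree one. -/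
theorem badZ_le {Th E : Submodule Qa ℂ} (h1E : (1 : ℂ) ∈ E) (hThE : Th ≤ E) {n : ℕ}
    (h : n ∈ BadZ Lt Th) : n ∈ BadOne E 1 := by
  by_contra hcon
  obtain ⟨l, hl, hlT, hlx⟩ := h
  obtain ⟨x, hx⟩ : ∃ x, x = ((Real.log n : ℝ) : ℂ) := ⟨_, rfl⟩
  rw [← hx] at hlx
  have hgood : ∀ A ≤ E, ∀ a b : ℂ, a ∈ E ⊔ A * Lt → b ∈ E ⊔ A * Lt → a * x = b → a ∈ A := by
    intro A hA a b ha hb hab
    obtain ⟨F, hF⟩ : ∃ F : Polynomial ℂ, F = Polynomial.C a * Polynomial.X - Polynomial.C b :=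
      ⟨_, rfl⟩
    have hF1 : F = (Polynomial.X - Polynomial.C x) * Polynomial.C a := by
      rw [hF, ← hab, Polynomial.C_mul]
      ring
    have hex : ∃ G : Polynomial ℂ, (∀ j, G.coeff j ∈ A) ∧
        F = (Polynomial.X - Polynomial.C x) * G := by
      by_contra hno
      have h2 : ((1 : Qa) : ℂ) * ((Real.log n : ℝ) : ℂ) + 0 = x := by
        rw [hx]
        push_cast
        ring
      refine hcon ⟨1, one_ne_zero, 0, Submodule.zero_mem _, A, hA, F, fun j => ?_, ?_, ?_, ?_⟩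
      · rw [hF, Polynomial.coeff_sub, Polynomial.coeff_C_mul, Polynomial.coeff_X,
          Polynomial.coeff_C]
        refine Submodule.sub_mem _ ?_ ?_
        · split_ifs
          · rw [mul_one]; exact ha
          · rw [mul_zero]; exact Submodule.zero_mem _
        · split_ifs
          · exact hb
          · exact Submodule.zero_mem _
      · rw [hF]
        refine (Polynomial.natDegree_sub_C).le.trans ?_
        exact (Polynomial.natDegree_C_mul_le a _).trans Polynomial.natDegree_X_le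
      · rw [h2, hF1, Polynomial.eval_mul, Polynomial.eval_sub, Polynomial.eval_X,
            Polynomial.eval_C, sub_self, zero_mul]
      · rw [h2]
        exact hno
    obtain ⟨G, hG, hFG⟩ := hex
    have h3 : G = Polynomial.C a := by
      have h4 : (Polynomial.X - Polynomial.C x) * G = (Polynomial.X - Polynomial.C x) *
          Polynomial.C a := by rw [← hFG, ← hF1]
      exact mul_left_cancel₀ (Polynomial.X_sub_C_ne_zero x) h4
    have h4 := hG 0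
    rw [h3, Polynomial.coeff_C_zero] at h4
    exact h4
  have hlE : l ∈ E := by
    refine hgood E le_rfl l (l * x) (Submodule.mem_sup_right ?_) (Submodule.mem_sup_right ?_) rfl
    · rw [← one_mul l]
      exact Submodule.mul_mem_mul h1E hl
    · exact (mul_le_mul' hThE le_rfl : Th * Lt ≤ E * Lt) hlx
  exact hlT (hgood Th hThE l (l * x) (Submodule.mem_sup_left hlE) (Submodule.mem_sup_right hlx) rfl)

/-- Uniformly in all subspaces of a space `E`: `l * log n ∈ Th * Lt`, `Th ≤ E`, `l ∈ Lt` only if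
`l ∈ Th`. -/
theorem oneE (h : ℕ) : ∃ K : ℕ, ∀ E : Submodule Qa ℂ, FiniteDimensional Qa E →
    finrank Qa E ≤ h → ∀ B : ℕ, 16 ≤ B →
      ({n : ℕ | 1 ≤ n ∧ n ≤ B ∧ ∃ Th ≤ E, n ∈ BadZ Lt Th}.ncard : ℝ) ≤
        K * Real.log (Real.log B) ^ K / Real.log B * B := by
  obtain ⟨K, hK⟩ := count_one (h + 1) 1
  refine ⟨K, fun E hf hr B hB => ?_⟩
  have h1 : finrank Qa ↥(Submodule.span Qa {(1 : ℂ)} ⊔ E) ≤ h + 1 := by
    refine (Submodule.finrank_add_le_finrank_add_finrank _ _).trans ?_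
    have := finrank_span_singleton (K := Qa) (one_ne_zero : (1 : ℂ) ≠ 0)
    omega
  have h1E : (1 : ℂ) ∈ Submodule.span Qa {(1 : ℂ)} ⊔ E :=
    Submodule.mem_sup_left (Submodule.mem_span_singleton_self 1)
  refine le_trans ?_ (hK (Submodule.span Qa {(1 : ℂ)} ⊔ E) inferInstance h1 h1E B hB)
  have h2 : {n : ℕ | 1 ≤ n ∧ n ≤ B ∧ ∃ Th ≤ E, n ∈ BadZ Lt Th} ⊆
      {b : ℕ | 1 ≤ b ∧ b ≤ B ∧ b ∈ BadOne (Submodule.span Qa {(1 : ℂ)} ⊔ E) 1} := by
    rintro n ⟨hn1, hn2, Th, hTh, hn⟩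
    exact ⟨hn1, hn2, badZ_le h1E (hTh.trans le_sup_right) hn⟩
  exact_mod_cast Set.ncard_le_ncard h2
    ((Set.finite_Icc 1 B).subset fun n hn => Set.mem_Icc.2 ⟨hn.1, hn.2.1⟩)

/-- **Strong four exponentials, first row `(θ, log n)`, all `θ ∈ E` at once.** -/
theorem fourE (h : ℕ) : ∃ K : ℕ, ∀ E : Submodule Qa ℂ, FiniteDimensional Qa E →
    finrank Qa E ≤ h → ∀ B : ℕ, 16 ≤ B →
      ({n : ℕ | 1 ≤ n ∧ n ≤ B ∧ ∃ θ ∈ E, θ ≠ 0 ∧ ∃ t : ℂ, t * θ ∈ Lt ∧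
        t * ((Real.log n : ℝ) : ℂ) ∈ Lt ∧ ¬ IsAlgebraic ℚ t}.ncard : ℝ) ≤
        K * Real.log (Real.log B) ^ K / Real.log B * B := by
  obtain ⟨K, hK⟩ := oneE h
  refine ⟨K, fun E hf hr B hB => le_trans ?_ (hK E hf hr B hB)⟩
  have h2 : {n : ℕ | 1 ≤ n ∧ n ≤ B ∧ ∃ θ ∈ E, θ ≠ 0 ∧ ∃ t : ℂ, t * θ ∈ Lt ∧
        t * ((Real.log n : ℝ) : ℂ) ∈ Lt ∧ ¬ IsAlgebraic ℚ t} ⊆
      {n : ℕ | 1 ≤ n ∧ n ≤ B ∧ ∃ Th ≤ E, n ∈ BadZ Lt Th} := by
    rintro n ⟨hn1, hn2, θ, hθ, hθ0, t, ht1, ht2, ht3⟩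
    refine ⟨hn1, hn2, Submodule.span Qa {θ}, (Submodule.span_singleton_le_iff_mem _ _).2 hθ,
      t * θ, ht1, ?_, ?_⟩
    · intro hmem
      obtain ⟨c, hc⟩ := Submodule.mem_span_singleton.1 hmem
      have hc' : (c : ℂ) * θ = t * θ := hc
      have hct : (c : ℂ) = t := mul_right_cancel₀ hθ0 hc'
      apply ht3
      rw [← hct]
      exact mem_algebraicClosure_iff.mp c.2
    · have h3 : t * θ * ((Real.log n : ℝ) : ℂ) = θ * (t * ((Real.log n : ℝ) : ℂ)) := by ring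
      rw [h3]
      exact Submodule.mul_mem_mul (Submodule.mem_span_singleton_self θ) ht2
  exact_mod_cast Set.ncard_le_ncard h2
    ((Set.finite_Icc 1 B).subset fun n hn => Set.mem_Icc.2 ⟨hn.1, hn.2.1⟩)

/-- **Four exponentials, first row `(θ, log n)`, all logarithms `θ ≠ 0` of algebraic numbers in `E`
at once.** -/
theorem fourAlg (h : ℕ) : ∃ K : ℕ, ∀ E : Submodule Qa ℂ, FiniteDimensional Qa E →
    finrank Qa E ≤ h → ∀ B : ℕ, 16 ≤ B →
      ({n : ℕ | 1 ≤ n ∧ n ≤ B ∧ ∃ θ ∈ E, θ ≠ 0 ∧ IsAlgebraic ℚ (Complex.exp θ) ∧ ∃ t : ℂ,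
        IsAlgebraic ℚ (Complex.exp (t * θ)) ∧
        IsAlgebraic ℚ (Complex.exp (t * ((Real.log n : ℝ) : ℂ))) ∧
          ¬ ∃ q : ℚ, (q : ℂ) = t}.ncard : ℝ) ≤
        K * Real.log (Real.log B) ^ K / Real.log B * B := by
  obtain ⟨K, hK⟩ := oneE h
  refine ⟨K, fun E hf hr B hB => le_trans ?_ (hK E hf hr B hB)⟩
  have h2 : {n : ℕ | 1 ≤ n ∧ n ≤ B ∧ ∃ θ ∈ E, θ ≠ 0 ∧ IsAlgebraic ℚ (Complex.exp θ) ∧ ∃ t : ℂ,
        IsAlgebraic ℚ (Complex.exp (t * θ)) ∧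
        IsAlgebraic ℚ (Complex.exp (t * ((Real.log n : ℝ) : ℂ))) ∧
          ¬ ∃ q : ℚ, (q : ℂ) = t} ⊆
      {n : ℕ | 1 ≤ n ∧ n ≤ B ∧ ∃ Th ≤ E, n ∈ BadZ Lt Th} := by
    rintro n ⟨hn1, hn2, θ, hθ, hθ0, hal, t, ht1, ht2, ht3⟩
    exact ⟨hn1, hn2, Submodule.span Qa {θ}, (Submodule.span_singleton_le_iff_mem _ _).2 hθ,
      ZB.four_sub hθ0 hal n ht1 ht2 ht3⟩
  exact_mod_cast Set.ncard_le_ncard h2
    ((Set.finite_Icc 1 B).subset fun n hn => Set.mem_Icc.2 ⟨hn.1, hn.2.1⟩)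

/-- For almost all `n` the numbers `n ^ z`, `exp z` algebraic, `z ≠ 0`, are all transcendental. -/
theorem transLog : ∃ K : ℕ, ∀ B : ℕ, 16 ≤ B →
      ({n : ℕ | 1 ≤ n ∧ n ≤ B ∧ ∃ z : ℂ, z ≠ 0 ∧ IsAlgebraic ℚ (Complex.exp z) ∧
        IsAlgebraic ℚ (Complex.exp (z * ((Real.log n : ℝ) : ℂ)))}.ncard : ℝ) ≤
        K * Real.log (Real.log B) ^ K / Real.log B * B := by
  obtain ⟨K, hK⟩ := fourE 1
  refine ⟨K, fun B hB => le_trans ?_ (hK (Submodule.span Qa {(1 : ℂ)}) inferInstance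
    (finrank_span_singleton one_ne_zero).le B hB)⟩
  have h2 : {n : ℕ | 1 ≤ n ∧ n ≤ B ∧ ∃ z : ℂ, z ≠ 0 ∧ IsAlgebraic ℚ (Complex.exp z) ∧
        IsAlgebraic ℚ (Complex.exp (z * ((Real.log n : ℝ) : ℂ)))} ⊆
      {n : ℕ | 1 ≤ n ∧ n ≤ B ∧ ∃ θ ∈ Submodule.span Qa {(1 : ℂ)}, θ ≠ 0 ∧ ∃ t : ℂ, t * θ ∈ Lt ∧
        t * ((Real.log n : ℝ) : ℂ) ∈ Lt ∧ ¬ IsAlgebraic ℚ t} := by
    rintro n ⟨hn1, hn2, z, hz0, hz1, hz2⟩
    refine ⟨hn1, hn2, 1, Submodule.mem_span_singleton_self 1, one_ne_zero, z, ?_, ?_, ?_⟩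
    · rw [mul_one]
      exact Submodule.subset_span (Or.inr hz1)
    · exact Submodule.subset_span (Or.inr hz2)
    · exact fun h => MP60829e.hermite_lindemann hz0 h hz1
  exact_mod_cast Set.ncard_le_ncard h2
    ((Set.finite_Icc 1 B).subset fun n hn => Set.mem_Icc.2 ⟨hn.1, hn.2.1⟩)

/-- For almost all `n`, for all `m ≥ 2` with prime factors at most `y` and all `t` at once. -/
theorem fourSmooth (y : ℕ) : ∃ K : ℕ, ∀ B : ℕ, 16 ≤ B →
      ({n : ℕ | 1 ≤ n ∧ n ≤ B ∧ ∃ m : ℕ, 2 ≤ m ∧ (∀ p ∈ m.primeFactors, p ≤ y) ∧ ∃ t : ℂ,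
        IsAlgebraic ℚ (Complex.exp (t * ((Real.log m : ℝ) : ℂ))) ∧
        IsAlgebraic ℚ (Complex.exp (t * ((Real.log n : ℝ) : ℂ))) ∧
          ¬ ∃ q : ℚ, (q : ℂ) = t}.ncard : ℝ) ≤
        K * Real.log (Real.log B) ^ K / Real.log B * B := by
  classical
  obtain ⟨s, hs⟩ : ∃ s : Finset ℂ, s = (Finset.range (y + 1)).image
    fun p : ℕ => ((Real.log p : ℝ) : ℂ) := ⟨_, rfl⟩
  obtain ⟨K, hK⟩ := fourAlg s.card
  have hfd : FiniteDimensional Qa (Submodule.span Qa (s : Set ℂ)) :=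
    FiniteDimensional.span_of_finite Qa s.finite_toSet
  refine ⟨K, fun B hB => le_trans ?_ (hK (Submodule.span Qa (s : Set ℂ)) hfd
    (finrank_span_finset_le_card s) B hB)⟩
  have h2 : {n : ℕ | 1 ≤ n ∧ n ≤ B ∧ ∃ m : ℕ, 2 ≤ m ∧ (∀ p ∈ m.primeFactors, p ≤ y) ∧ ∃ t : ℂ,
        IsAlgebraic ℚ (Complex.exp (t * ((Real.log m : ℝ) : ℂ))) ∧
        IsAlgebraic ℚ (Complex.exp (t * ((Real.log n : ℝ) : ℂ))) ∧
          ¬ ∃ q : ℚ, (q : ℂ) = t} ⊆
      {n : ℕ | 1 ≤ n ∧ n ≤ B ∧ ∃ θ ∈ Submodule.span Qa (s : Set ℂ), θ ≠ 0 ∧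
        IsAlgebraic ℚ (Complex.exp θ) ∧ ∃ t : ℂ,
        IsAlgebraic ℚ (Complex.exp (t * θ)) ∧
        IsAlgebraic ℚ (Complex.exp (t * ((Real.log n : ℝ) : ℂ))) ∧
          ¬ ∃ q : ℚ, (q : ℂ) = t} := by
    rintro n ⟨hn1, hn2, m, hm, hp, t, ht1, ht2, ht3⟩
    have hm0 : (m : ℝ) ≠ 0 := by
      have : 0 < m := by omega
      exact_mod_cast this.ne'
    refine ⟨hn1, hn2, ((Real.log m : ℝ) : ℂ), ?_, ?_, ?_, t, ht1, ht2, ht3⟩
    · have h3 : ((Real.log m : ℝ) : ℂ) = ∑ p ∈ m.primeFactors,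
          (m.factorization p : Qa) • ((Real.log p : ℝ) : ℂ) := by
        have h4 : Real.log m = ∑ p ∈ m.primeFactors, (m.factorization p : ℝ) * Real.log p := by
          have h5 := Nat.prod_factorization_pow_eq_self (by omega : m ≠ 0)
          conv_lhs => rw [← h5]
          rw [Finsupp.prod, Nat.support_factorization]
          push_cast
          rw [Real.log_prod]
          · refine Finset.sum_congr rfl fun p _ => ?_
            rw [Real.log_pow]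
          · intro p hp
            have := (Nat.prime_of_mem_primeFactors hp).pos
            positivity
        rw [h4]
        push_cast
        refine Finset.sum_congr rfl fun p _ => ?_
        rw [Algebra.smul_def, map_natCast]
      rw [h3]
      refine Submodule.sum_mem _ fun p hpm => Submodule.smul_mem _ _ (Submodule.subset_span ?_)
      rw [hs, Finset.coe_image]
      refine ⟨p, ?_, rfl⟩
      rw [Finset.mem_coe, Finset.mem_range]
      exact Nat.lt_succ_of_le (hp p hpm)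
    · have h3 : 0 < Real.log m := Real.log_pos (by exact_mod_cast (by omega : 1 < m))
      exact_mod_cast h3.ne'
    · rw [← Complex.ofReal_exp, Real.exp_log (by positivity)]
      have := isAlgebraic_natCast (R := ℚ) (A := ℂ) m
      exact_mod_cast this
  exact_mod_cast Set.ncard_le_ncard h2
    ((Set.finite_Icc 1 B).subset fun n hn => Set.mem_Icc.2 ⟨hn.1, hn.2.1⟩)

end MP60829e.ZL
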