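import Mathlib
import Pool.Agent.Lib.MP_60829e_nt.ZL.Many

/-! # Theorem ZL: corollaries for `n` integers -/

open Module Finset MvPolynomial

namespace MP60829e.ZL

open MP60829e.ST (Qa Lt)

/-- What it means that a tuple is not bad. -/
theorem comb_of_notMem {n : ℕ} {E : Submodule Qa ℂ} {D B : ℕ} {b : Fin n → ℕ}
    (hb : ∀ i, 1 ≤ b i ∧ b i ≤ B) (h : b ∉ BadN E D B) {y : Fin n → ℂ} (hy : Pts E b y)
    {A : Submodule Qa ℂ} (hA : A ≤ E) {F : MvPolynomial (Fin n) ℂ} (hd : F.totalDegree ≤ D)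
    (hF : ∀ m, F.coeff m ∈ E ⊔ A * Lt) (h0 : eval y F = 0) : Comb A D y F := by
  by_contra hcon
  exact h ⟨hb, y, hy, A, hA, F, hd, hF, h0, hcon⟩

/-- The coefficients of a combination of the `X i - y i` over `A`. -/
theorem Comb.coeff_mem {n : ℕ} {A : Submodule Qa ℂ} {D : ℕ} {y : Fin n → ℂ}
    {F : MvPolynomial (Fin n) ℂ} (h : Comb A D y F) (m : Fin n →₀ ℕ) :
    F.coeff m ∈ A * Submodule.span Qa (insert (1 : ℂ) (Set.range y)) := by
  classical
  obtain ⟨G, hG, -, rfl⟩ := h
  obtain ⟨S, hS⟩ : ∃ S, S = Submodule.span Qa (insert (1 : ℂ) (Set.range y)) := ⟨_, rfl⟩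
  rw [← hS]
  have h1 : (1 : ℂ) ∈ S := by
    rw [hS]
    exact Submodule.subset_span (Set.mem_insert _ _)
  have hy : ∀ i, y i ∈ S := by
    intro i
    rw [hS]
    exact Submodule.subset_span (Set.mem_insert_of_mem _ ⟨i, rfl⟩)
  rw [coeff_sum]
  refine Submodule.sum_mem _ fun i _ => ?_
  rw [sub_mul, coeff_sub, coeff_C_mul]
  refine Submodule.sub_mem _ ?_ ?_
  · rw [coeff_X_mul']
    split_ifs
    · have := Submodule.mul_mem_mul (hG i (m - Finsupp.single i 1)) h1
      rwa [mul_one] at this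
    · exact Submodule.zero_mem _
  · rw [mul_comm (y i)]
    exact Submodule.mul_mem_mul (hG i m) (hy i)

theorem Comb.eq_zero {n : ℕ} {D : ℕ} {y : Fin n → ℂ} {F : MvPolynomial (Fin n) ℂ}
    (h : Comb (⊥ : Submodule Qa ℂ) D y F) : F = 0 := by
  ext m
  have h1 := h.coeff_mem m
  rw [Submodule.bot_mul, Submodule.mem_bot] at h1
  rw [h1, coeff_zero]

/-- (a) A good tuple satisfies no relation over `E`. -/
theorem free_of_notMem {n : ℕ} {E : Submodule Qa ℂ} {D B : ℕ} {b : Fin n → ℕ}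
    (hb : ∀ i, 1 ≤ b i ∧ b i ≤ B) (h : b ∉ BadN E D B) {y : Fin n → ℂ} (hy : Pts E b y)
    {F : MvPolynomial (Fin n) ℂ} (hd : F.totalDegree ≤ D) (hF : ∀ m, F.coeff m ∈ E)
    (h0 : eval y F = 0) : F = 0 :=
  (comb_of_notMem hb h hy bot_le hd (fun m => Submodule.mem_sup_left (hF m)) h0).eq_zero

/-- The point `log b`. -/
noncomputable def lg {n : ℕ} (b : Fin n → ℕ) : Fin n → ℂ := fun i => ((Real.log (b i) : ℝ) : ℂ)

/-- The `Qa`-span of `1`. -/
noncomputable def Q1 : Submodule Qa ℂ := Submodule.span Qa {(1 : ℂ)}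

theorem one_mem_Q1 : (1 : ℂ) ∈ Q1 := Submodule.mem_span_singleton_self 1

theorem Q1_mul (V : Submodule Qa ℂ) : Q1 * V = V := by
  unfold Q1
  rw [← Submodule.one_eq_span, one_mul]

theorem finrank_Q1 : finrank Qa Q1 ≤ 1 := by
  unfold Q1
  refine (finrank_span_le_card _).trans ?_
  simp

instance Q1_fd : FiniteDimensional Qa Q1 := by
  unfold Q1
  infer_instance

theorem pts_lg {n : ℕ} (b : Fin n → ℕ) : Pts Q1 b (lg b) := by
  intro i
  refine ⟨1, one_ne_zero, ?_⟩
  have h1 : lg b i - ((1 : Qa) : ℂ) * ((Real.log (b i) : ℝ) : ℂ) = 0 := by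
    unfold lg
    push_cast
    ring
  rw [h1]
  exact Submodule.zero_mem _

/-- (c1) A relation of degree at most `D` between the `log (b i)` with coefficients in `Lt` is
trivial. -/
theorem rel_of_notMem {n : ℕ} {D B : ℕ} {b : Fin n → ℕ} (hb : ∀ i, 1 ≤ b i ∧ b i ≤ B)
    (h : b ∉ BadN Q1 D B) {F : MvPolynomial (Fin n) ℂ} (hd : F.totalDegree ≤ D)
    (hF : ∀ m, F.coeff m ∈ Lt) (h0 : eval (lg b) F = 0) :
    Comb Q1 D (lg b) F ∧ ∀ m, F.coeff m ∈ Submodule.span Qa (insert (1 : ℂ) (Set.range (lg b))) := by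
  have h1 := comb_of_notMem hb h (pts_lg b) (le_refl Q1) hd (fun m => by
    rw [Q1_mul]
    exact Submodule.mem_sup_right (hF m)) h0
  refine ⟨h1, fun m => ?_⟩
  have h2 := h1.coeff_mem m
  rwa [Q1_mul] at h2

/-- The value of a monomial. -/
noncomputable def mon {n : ℕ} (x : Fin n → ℂ) (m : Fin n →₀ ℕ) : ℂ := ∏ i, x i ^ m i

/-- The exponents of degree at most `D`. -/
def Exps (n D : ℕ) : Set (Fin n →₀ ℕ) := {m | ∑ i, m i ≤ D}

theorem sum_eq_degree {n : ℕ} (m : Fin n →₀ ℕ) : (m.sum fun _ e => e) = ∑ i, m i := by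
  rw [Finsupp.sum_fintype]
  intro i
  rfl

/-- (c2) For every family `v` in `Lt` which is linearly independent modulo the span of `1` and the
`log (b i)`: the monomials of degree at most `D` in the `log (b i)` and the products of the `v c` with
them are together linearly independent. -/
theorem indep_of_notMem {n : ℕ} {D B : ℕ} {b : Fin n → ℕ} (hb : ∀ i, 1 ≤ b i ∧ b i ≤ B)
    (h : b ∉ BadN Q1 D B) {ι : Type*} (v : ι → ℂ) (hv : ∀ c, v c ∈ Lt)
    (hi : LinearIndependent Qa fun c =>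
      (Submodule.span Qa (insert (1 : ℂ) (Set.range (lg b)))).mkQ (v c)) :
    LinearIndependent Qa (Sum.elim (fun m : Exps n D => mon (lg b) m)
      (fun p : ι × Exps n D => v p.1 * mon (lg b) p.2)) := by
  classical
  obtain ⟨S, hS⟩ : ∃ S, S = Submodule.span Qa (insert (1 : ℂ) (Set.range (lg b))) := ⟨_, rfl⟩
  rw [← hS] at hi
  rw [linearIndependent_iff]
  intro l hl
  -- the coefficients
  obtain ⟨μ, hμ⟩ : ∃ μ : Exps n D →₀ Qa, μ = l.comapDomain Sum.inl Sum.inl_injective.injOn :=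
    ⟨_, rfl⟩
  obtain ⟨lam, hlam⟩ : ∃ lam : ι × Exps n D →₀ Qa,
      lam = l.comapDomain Sum.inr Sum.inr_injective.injOn := ⟨_, rfl⟩
  have hμv : ∀ m, μ m = l (Sum.inl m) := fun m => by rw [hμ, Finsupp.comapDomain_apply]
  have hlv : ∀ p, lam p = l (Sum.inr p) := fun p => by rw [hlam, Finsupp.comapDomain_apply]
  -- the polynomial
  obtain ⟨F, hF⟩ : ∃ F : MvPolynomial (Fin n) ℂ,
      F = (μ.sum fun m a => monomial (m : Fin n →₀ ℕ) ((a : Qa) : ℂ)) +
        lam.sum fun p a => monomial (p.2 : Fin n →₀ ℕ) (((a : Qa) : ℂ) * v p.1) := ⟨_, rfl⟩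
  have hmon : ∀ (m : Fin n →₀ ℕ) (a : ℂ), eval (lg b) (monomial m a) = a * mon (lg b) m := by
    intro m a
    rw [eval_monomial, Finsupp.prod_fintype _ _ (fun i => by rw [pow_zero])]
    rfl
  have hsplit : (Finsupp.linearCombination Qa (Sum.elim (fun m : Exps n D => mon (lg b) m)
      (fun p : ι × Exps n D => v p.1 * mon (lg b) p.2))) l =
      (μ.sum fun m a => a • mon (lg b) m) +
        lam.sum fun p a => a • (v p.1 * mon (lg b) p.2) := by
    have h1 : l = μ.embDomain ⟨Sum.inl, Sum.inl_injective⟩ +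
        lam.embDomain ⟨Sum.inr, Sum.inr_injective⟩ := by
      ext x
      rw [Finsupp.add_apply]
      rcases x with m | p
      · have e1 : (μ.embDomain ⟨(Sum.inl : _ → Exps n D ⊕ (ι × Exps n D)), Sum.inl_injective⟩)
            (Sum.inl m) = μ m := Finsupp.embDomain_apply_self ⟨Sum.inl, Sum.inl_injective⟩ μ m
        have e2 : (lam.embDomain ⟨(Sum.inr : _ → Exps n D ⊕ (ι × Exps n D)), Sum.inr_injective⟩)
            (Sum.inl m) = 0 := Finsupp.embDomain_of_notMem_range _ _ _ (by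
              rintro ⟨p, hp⟩
              exact absurd hp (by simp))
        rw [e1, e2, hμv, add_zero]
      · have e1 : (μ.embDomain ⟨(Sum.inl : _ → Exps n D ⊕ (ι × Exps n D)), Sum.inl_injective⟩)
            (Sum.inr p) = 0 := Finsupp.embDomain_of_notMem_range _ _ _ (by
              rintro ⟨m, hm⟩
              exact absurd hm (by simp))
        have e2 : (lam.embDomain ⟨(Sum.inr : _ → Exps n D ⊕ (ι × Exps n D)), Sum.inr_injective⟩)
            (Sum.inr p) = lam p := Finsupp.embDomain_apply_self ⟨Sum.inr, Sum.inr_injective⟩ lam p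
        rw [e1, e2, hlv, zero_add]
    rw [h1, map_add, Finsupp.linearCombination_embDomain, Finsupp.linearCombination_embDomain]
    rfl
  have h0 : eval (lg b) F = 0 := by
    rw [← hl, hsplit, hF, map_add]
    simp only [Finsupp.sum, map_sum, hmon]
    congr 1
    refine Finset.sum_congr rfl fun p _ => ?_
    rw [Algebra.smul_def, ← mul_assoc]
    rfl
  -- the coefficients of `F`
  have hcF : ∀ m : Exps n D, F.coeff (m : Fin n →₀ ℕ) =
      ((μ m : Qa) : ℂ) + ∑ p ∈ lam.support.filter (fun p => p.2 = m), ((lam p : Qa) : ℂ) * v p.1 := by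
    intro m
    rw [hF, coeff_add]
    congr 1
    · rw [Finsupp.sum, coeff_sum]
      simp only [coeff_monomial]
      rw [Finset.sum_eq_single m]
      · rw [if_pos rfl]
      · intro m' _ hm'
        rw [if_neg]
        intro h
        exact hm' (Subtype.ext h)
      · intro hm
        rw [Finsupp.notMem_support_iff.1 hm, if_pos rfl]
        push_cast
        rfl
    · rw [Finsupp.sum, coeff_sum, Finset.sum_filter]
      refine Finset.sum_congr rfl fun p _ => ?_
      rw [coeff_monomial]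
      by_cases hp : p.2 = m
      · rw [if_pos hp, if_pos (congrArg Subtype.val hp)]
      · rw [if_neg hp, if_neg]
        intro h
        exact hp (Subtype.ext h)
  have hcoef : ∀ m : Fin n →₀ ℕ, m ∉ Exps n D → F.coeff m = 0 := by
    intro m hm
    rw [hF, coeff_add, Finsupp.sum, Finsupp.sum, coeff_sum, coeff_sum]
    simp only [coeff_monomial]
    rw [Finset.sum_eq_zero, Finset.sum_eq_zero, add_zero]
    · intro p _
      rw [if_neg]
      intro h
      exact hm (h ▸ p.2.2)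
    · intro m' _
      rw [if_neg]
      intro h
      exact hm (h ▸ m'.2)
  have hd : F.totalDegree ≤ D := by
    rw [totalDegree]
    refine Finset.sup_le fun m hm => ?_
    rw [sum_eq_degree]
    by_contra hcon
    exact (mem_support_iff.1 hm) (hcoef m hcon)
  have h1Lt : (1 : ℂ) ∈ Lt := Submodule.subset_span (Or.inl rfl)
  have hQaLt : ∀ a : Qa, (a : ℂ) ∈ Lt := by
    intro a
    have := Submodule.smul_mem Lt a h1Lt
    rwa [Algebra.smul_def, mul_one] at this
  have hFLt : ∀ m, F.coeff m ∈ Lt := by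
    intro m
    by_cases hm : m ∈ Exps n D
    · have h2 := hcF ⟨m, hm⟩
      rw [show ((⟨m, hm⟩ : Exps n D) : Fin n →₀ ℕ) = m from rfl] at h2
      rw [h2]
      refine Submodule.add_mem _ (hQaLt _) (Submodule.sum_mem _ fun p _ => ?_)
      exact Submodule.smul_mem Lt (lam p) (hv p.1)
    · rw [hcoef m hm]
      exact Submodule.zero_mem _
  obtain ⟨-, h2⟩ := rel_of_notMem hb h hd hFLt h0
  rw [← hS] at h2
  have hQaS : ∀ a : Qa, (a : ℂ) ∈ S := by
    intro a
    have h3 : (1 : ℂ) ∈ S := by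
      rw [hS]
      exact Submodule.subset_span (Set.mem_insert _ _)
    have := Submodule.smul_mem S a h3
    rwa [Algebra.smul_def, mul_one] at this
  -- the coefficients of the products vanish
  have hlam0 : ∀ c, ∀ m : Exps n D, lam (c, m) = 0 := by
    intro c m
    have h3 : ∑ p ∈ lam.support.filter (fun p => p.2 = m), ((lam p : Qa) : ℂ) * v p.1 ∈ S := by
      have h4 := Submodule.sub_mem S (h2 m) (hQaS (μ m))
      rw [hcF m, add_sub_cancel_left] at h4
      exact h4
    obtain ⟨t, ht⟩ : ∃ t : ι →₀ Qa, ∀ c, t c = lam (c, m) :=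
      ⟨lam.comapDomain (fun c => (c, m)) (fun a _ b _ hab => (Prod.mk.inj hab).1), fun c => rfl⟩
    have h5 : Finsupp.linearCombination Qa (fun c => S.mkQ (v c)) t = 0 := by
      have h6 : Finsupp.linearCombination Qa (fun c => S.mkQ (v c)) t =
          S.mkQ (∑ p ∈ lam.support.filter (fun p => p.2 = m), ((lam p : Qa) : ℂ) * v p.1) := by
        rw [map_sum, Finsupp.linearCombination_apply, Finsupp.sum]
        refine Finset.sum_bij' (fun c _ => (c, m)) (fun p _ => p.1) ?_ ?_ ?_ ?_ ?_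
        · intro a ha
          rw [Finset.mem_filter, Finsupp.mem_support_iff, ← ht]
          exact ⟨Finsupp.mem_support_iff.1 ha, rfl⟩
        · intro p hp
          obtain ⟨hp1, hp2⟩ := Finset.mem_filter.1 hp
          rw [Finsupp.mem_support_iff, ht]
          rw [show (p.1, m) = p from Prod.ext rfl hp2.symm]
          exact Finsupp.mem_support_iff.1 hp1
        · intro a _
          rfl
        · intro p hp
          exact Prod.ext rfl (Finset.mem_filter.1 hp).2.symm
        · intro a _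
          rw [ht, ← map_smul]
          rfl
      rw [h6]
      exact (Submodule.Quotient.mk_eq_zero S).2 h3
    have h7 := (linearIndependent_iff.1 hi) t h5
    rw [← ht, h7, Finsupp.zero_apply]
  have hlam00 : lam = 0 := by
    ext p
    have := hlam0 p.1 p.2
    rw [this]
    rfl
  -- now the monomials alone
  have hF0 : F = 0 := by
    refine free_of_notMem hb h (pts_lg b) hd (fun m => ?_) h0
    by_cases hm : m ∈ Exps n D
    · have h8 := hcF ⟨m, hm⟩
      rw [show ((⟨m, hm⟩ : Exps n D) : Fin n →₀ ℕ) = m from rfl, hlam00] at h8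
      rw [h8]
      simp only [Finsupp.support_zero, Finset.filter_empty, Finset.sum_empty, add_zero]
      have := Submodule.smul_mem Q1 (μ ⟨m, hm⟩) one_mem_Q1
      rwa [Algebra.smul_def, mul_one] at this
    · rw [hcoef m hm]
      exact Submodule.zero_mem _
  have hμ0 : ∀ m, μ m = 0 := by
    intro m
    have h8 := hcF m
    rw [hF0, coeff_zero, hlam00] at h8
    simp only [Finsupp.support_zero, Finset.filter_empty, Finset.sum_empty, add_zero] at h8
    exact (Subtype.ext h8.symm : μ m = 0)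
  ext x
  rw [Finsupp.zero_apply]
  rcases x with m | p
  · rw [← hμv, hμ0]
  · rw [← hlv, hlam00, Finsupp.zero_apply]

theorem badN_finite {n : ℕ} (E : Submodule Qa ℂ) (D B : ℕ) : (BadN (n := n) E D B).Finite := by
  refine (Finset.finite_toSet (Fintype.piFinset (fun _ : Fin n => Icc 1 B))).subset ?_
  intro b hb
  rw [mem_coe, Fintype.mem_piFinset]
  intro i
  rw [mem_Icc]
  exact hb.1 i

/-- (a) No relation of degree at most `D` over a finite-dimensional space. -/
theorem cor_free (n D : ℕ) : ∀ κ : ℕ, ∃ K : ℕ, ∀ E : Submodule Qa ℂ, FiniteDimensional Qa E →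
    finrank Qa E ≤ κ → (1 : ℂ) ∈ E → ∀ B : ℕ, 16 ≤ B →
      (({b : Fin n → ℕ | (∀ i, 1 ≤ b i ∧ b i ≤ B) ∧ ∃ y : Fin n → ℂ, Pts E b y ∧
        ∃ F : MvPolynomial (Fin n) ℂ, F ≠ 0 ∧ F.totalDegree ≤ D ∧ (∀ m, F.coeff m ∈ E) ∧
          eval y F = 0}.ncard : ℕ) : ℝ) ≤ K * Real.log (Real.log B) ^ K / Real.log B * B ^ n := by
  intro κ
  obtain ⟨K, hK⟩ := main n D κ
  refine ⟨K, fun E hE hκ h1 B hB => le_trans ?_ (hK E hE hκ h1 B hB)⟩
  refine Nat.cast_le.2 (Set.ncard_le_ncard ?_ (badN_finite E D B))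
  rintro b ⟨hb, y, hy, F, hF0, hd, hF, h0⟩
  by_contra hcon
  exact hF0 (free_of_notMem hb hcon hy hd hF h0)

/-- (c1) Relations of degree at most `D` with coefficients in `Lt`. -/
theorem cor_rel (n D : ℕ) : ∃ K : ℕ, ∀ B : ℕ, 16 ≤ B →
      (({b : Fin n → ℕ | (∀ i, 1 ≤ b i ∧ b i ≤ B) ∧
        ∃ F : MvPolynomial (Fin n) ℂ, F.totalDegree ≤ D ∧ (∀ m, F.coeff m ∈ Lt) ∧
          eval (lg b) F = 0 ∧ ¬ (Comb Q1 D (lg b) F ∧
            ∀ m, F.coeff m ∈ Submodule.span Qa (insert (1 : ℂ) (Set.range (lg b))))}.ncard : ℕ) : ℝ)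
        ≤ K * Real.log (Real.log B) ^ K / Real.log B * B ^ n := by
  obtain ⟨K, hK⟩ := main n D 1
  refine ⟨K, fun B hB => le_trans ?_ (hK Q1 inferInstance finrank_Q1 one_mem_Q1 B hB)⟩
  refine Nat.cast_le.2 (Set.ncard_le_ncard ?_ (badN_finite Q1 D B))
  rintro b ⟨hb, F, hd, hF, h0, hno⟩
  by_contra hcon
  exact hno (rel_of_notMem hb hcon hd hF h0)

/-- (c2) Products of the monomials in the `log (b i)` with arbitrary elements of `Lt`. -/
theorem cor_indep (n D : ℕ) : ∃ K : ℕ, ∀ B : ℕ, 16 ≤ B →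
      (({b : Fin n → ℕ | (∀ i, 1 ≤ b i ∧ b i ≤ B) ∧
        ∃ (ι : Type) (v : ι → ℂ), (∀ c, v c ∈ Lt) ∧ LinearIndependent Qa (fun c =>
          (Submodule.span Qa (insert (1 : ℂ) (Set.range (lg b)))).mkQ (v c)) ∧
          ¬ LinearIndependent Qa (Sum.elim (fun m : Exps n D => mon (lg b) m)
            (fun p : ι × Exps n D => v p.1 * mon (lg b) p.2))}.ncard : ℕ) : ℝ)
        ≤ K * Real.log (Real.log B) ^ K / Real.log B * B ^ n := by
  obtain ⟨K, hK⟩ := main n D 1
  refine ⟨K, fun B hB => le_trans ?_ (hK Q1 inferInstance finrank_Q1 one_mem_Q1 B hB)⟩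
  refine Nat.cast_le.2 (Set.ncard_le_ncard ?_ (badN_finite Q1 D B))
  rintro b ⟨hb, ι, v, hv, hi, hno⟩
  by_contra hcon
  exact hno (indep_of_notMem hb hcon v hv hi)

end MP60829e.ZL
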