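import Mathlib
import Pool.Agent.Lib.MP_60829e_nt.ZL.Four

/-! # Theorem ZL: four exponentials, all numbers `θ` of a finite dimensional space at once -/

open Module

namespace MP60829e.ZL

open MP60829e.ST (Qa Lt)
open MP60829e.ZB (BadZ)

/-- **Strong four exponentials** for almost all `n`: all `θ ∈ E`, `θ ≠ 0`, and all `t` at once. -/
theorem four_E_strong (κ : ℕ) : ∃ K : ℕ, ∀ E : Submodule Qa ℂ, FiniteDimensional Qa E →
    finrank Qa E ≤ κ → ∀ B : ℕ, 16 ≤ B →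
      ({n : ℕ | 1 ≤ n ∧ n ≤ B ∧ ∃ θ ∈ E, θ ≠ 0 ∧ ∃ t : ℂ, t * θ ∈ Lt ∧
        t * ((Real.log n : ℝ) : ℂ) ∈ Lt ∧ ¬ IsAlgebraic ℚ t}.ncard : ℝ) ≤
        K * Real.log (Real.log B) ^ K / Real.log B * B := fourE κ

/-- **Four exponentials** for almost all `n`: all `θ ∈ E`, `θ ≠ 0` (`exp θ` algebraic or not), and all
`t` at once. -/
theorem four_E (κ : ℕ) : ∃ K : ℕ, ∀ E : Submodule Qa ℂ, FiniteDimensional Qa E →
    finrank Qa E ≤ κ → ∀ B : ℕ, 16 ≤ B →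
      ({n : ℕ | 1 ≤ n ∧ n ≤ B ∧ ∃ θ ∈ E, θ ≠ 0 ∧ ∃ t : ℂ, IsAlgebraic ℚ (Complex.exp (t * θ)) ∧
        IsAlgebraic ℚ (Complex.exp (t * ((Real.log n : ℝ) : ℂ))) ∧
          ¬ ∃ q : ℚ, (q : ℂ) = t}.ncard : ℝ) ≤
        K * Real.log (Real.log B) ^ K / Real.log B * B := by
  obtain ⟨K, hK⟩ := oneE κ
  refine ⟨K, fun E hf hr B hB => le_trans ?_ (hK E hf hr B hB)⟩
  have h2 : {n : ℕ | 1 ≤ n ∧ n ≤ B ∧ ∃ θ ∈ E, θ ≠ 0 ∧ ∃ t : ℂ,
        IsAlgebraic ℚ (Complex.exp (t * θ)) ∧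
        IsAlgebraic ℚ (Complex.exp (t * ((Real.log n : ℝ) : ℂ))) ∧
          ¬ ∃ q : ℚ, (q : ℂ) = t} ⊆
      {n : ℕ | 1 ≤ n ∧ n ≤ B ∧ ∃ Th ≤ E, n ∈ BadZ Lt Th} := by
    rintro n ⟨hn1, hn2, θ, hθ, hθ0, t, ht1, ht2, ht3⟩
    refine ⟨hn1, hn2, ?_⟩
    rcases Nat.eq_or_lt_of_le hn1 with h1 | h1
    · refine ⟨⊥, bot_le, 1, Submodule.subset_span (Or.inl rfl), ?_, ?_⟩
      · rw [Submodule.mem_bot]
        exact one_ne_zero
      · rw [← h1]
        simp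
    · have hlog : ((Real.log n : ℝ) : ℂ) ≠ 0 := by
        have h3 : 0 < Real.log n := Real.log_pos (by exact_mod_cast h1)
        exact_mod_cast h3.ne'
      have halg : IsAlgebraic ℚ (Complex.exp ((Real.log n : ℝ) : ℂ)) := by
        rw [← Complex.ofReal_exp, Real.exp_log (by exact_mod_cast (by omega : 0 < n))]
        have := isAlgebraic_natCast (R := ℚ) (A := ℂ) n
        exact_mod_cast this
      have htr : ¬ IsAlgebraic ℚ t := fun h => ht3 (ZB.rat_of_alg hlog halg ht2 h)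
      refine ⟨Submodule.span Qa {θ}, (Submodule.span_singleton_le_iff_mem _ _).2 hθ,
        t * θ, Submodule.subset_span (Or.inr ht1), ?_, ?_⟩
      · intro hmem
        obtain ⟨c, hc⟩ := Submodule.mem_span_singleton.1 hmem
        have hc' : (c : ℂ) * θ = t * θ := hc
        have hct : (c : ℂ) = t := mul_right_cancel₀ hθ0 hc'
        apply htr
        rw [← hct]
        exact mem_algebraicClosure_iff.mp c.2
      · have h3 : t * θ * ((Real.log n : ℝ) : ℂ) = θ * (t * ((Real.log n : ℝ) : ℂ)) := by ring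
        rw [h3]
        exact Submodule.mul_mem_mul (Submodule.mem_span_singleton_self θ)
          (Submodule.subset_span (Or.inr ht2))
  exact_mod_cast Set.ncard_le_ncard h2
    ((Set.finite_Icc 1 B).subset fun n hn => Set.mem_Icc.2 ⟨hn.1, hn.2.1⟩)

end MP60829e.ZL
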