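import Mathlib
import Pool.Agent.Lib.MP_60829e_nt.ZL.Four

/-! # Theorem ZL: four exponentials for almost all integers, all complex `θ ≠ 0` in a finite
dimensional space at once -/

open Module

namespace MP60829e.ZL

open MP60829e.ST (Qa Lt)

/-- `n = 1` is exceptional in `fourE` (for `E ≠ 0`). -/
private theorem one_bad {θ : ℂ} (hθ : θ ≠ 0) : ∃ t : ℂ, t * θ ∈ Lt ∧
    t * ((Real.log (1 : ℕ) : ℝ) : ℂ) ∈ Lt ∧ ¬ IsAlgebraic ℚ t := by
  have h0 : ((Real.log (1 : ℕ) : ℝ) : ℂ) = 0 := by simp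
  rw [h0]
  have h1 : (1 : ℂ) ∈ Lt := Submodule.subset_span (Or.inl rfl)
  have he2 : Complex.exp (Real.log 2 : ℝ) = 2 := by
    rw [← Complex.ofReal_exp, Real.exp_log (by norm_num)]
    norm_num
  have hal2 : IsAlgebraic ℚ (Complex.exp (Real.log 2 : ℝ)) := by
    rw [he2]
    exact_mod_cast isAlgebraic_natCast (R := ℚ) (A := ℂ) 2
  have h2 : ((Real.log 2 : ℝ) : ℂ) ∈ Lt := Submodule.subset_span (Or.inr hal2)
  have h3 : ((Real.log 2 : ℝ) : ℂ) ≠ 0 := by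
    have := Real.log_pos (by norm_num : (1 : ℝ) < 2)
    exact_mod_cast this.ne'
  by_cases hal : IsAlgebraic ℚ θ
  · refine ⟨(Real.log 2 : ℝ) / θ, ?_, ?_, ?_⟩
    · rw [div_mul_cancel₀ _ hθ]
      exact h2
    · rw [mul_zero]
      exact Submodule.zero_mem _
    · intro h4
      have h5 : IsAlgebraic ℚ (((Real.log 2 : ℝ) : ℂ) / θ * θ) := h4.mul hal
      rw [div_mul_cancel₀ _ hθ] at h5
      exact MP60829e.hermite_lindemann h3 h5 hal2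
  · refine ⟨1 / θ, ?_, ?_, ?_⟩
    · rw [div_mul_cancel₀ _ hθ]
      exact h1
    · rw [mul_zero]
      exact Submodule.zero_mem _
    · intro h4
      apply hal
      have h5 := h4.inv
      rwa [one_div, inv_inv] at h5

/-- **Four exponentials, first row `(θ, log n)`, all nonzero `θ ∈ E` at once.** -/
theorem fourG (h : ℕ) : ∃ K : ℕ, ∀ E : Submodule Qa ℂ, FiniteDimensional Qa E →
    finrank Qa E ≤ h → ∀ B : ℕ, 16 ≤ B →
      ({n : ℕ | 1 ≤ n ∧ n ≤ B ∧ ∃ θ ∈ E, θ ≠ 0 ∧ ∃ t : ℂ,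
        IsAlgebraic ℚ (Complex.exp (t * θ)) ∧
        IsAlgebraic ℚ (Complex.exp (t * ((Real.log n : ℝ) : ℂ))) ∧
          ¬ ∃ q : ℚ, (q : ℂ) = t}.ncard : ℝ) ≤
        K * Real.log (Real.log B) ^ K / Real.log B * B := by
  obtain ⟨K, hK⟩ := fourE h
  refine ⟨K, fun E hf hr B hB => le_trans ?_ (hK E hf hr B hB)⟩
  have h2 : {n : ℕ | 1 ≤ n ∧ n ≤ B ∧ ∃ θ ∈ E, θ ≠ 0 ∧ ∃ t : ℂ,
        IsAlgebraic ℚ (Complex.exp (t * θ)) ∧
        IsAlgebraic ℚ (Complex.exp (t * ((Real.log n : ℝ) : ℂ))) ∧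
          ¬ ∃ q : ℚ, (q : ℂ) = t} ⊆
      {n : ℕ | 1 ≤ n ∧ n ≤ B ∧ ∃ θ ∈ E, θ ≠ 0 ∧ ∃ t : ℂ, t * θ ∈ Lt ∧
        t * ((Real.log n : ℝ) : ℂ) ∈ Lt ∧ ¬ IsAlgebraic ℚ t} := by
    rintro n ⟨hn1, hn2, θ, hθ, hθ0, t, ht1, ht2, ht3⟩
    refine ⟨hn1, hn2, θ, hθ, hθ0, ?_⟩
    rcases Nat.lt_or_ge n 2 with hn | hn
    · obtain rfl : n = 1 := by omega
      exact one_bad hθ0
    · refine ⟨t, Submodule.subset_span (Or.inr ht1), Submodule.subset_span (Or.inr ht2),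
        fun h4 => ht3 ?_⟩
      have h5 : 0 < Real.log n := Real.log_pos (by exact_mod_cast (by omega : 1 < n))
      refine ZB.rat_of_alg (θ := ((Real.log n : ℝ) : ℂ)) (by exact_mod_cast h5.ne') ?_ ht2 h4
      rw [← Complex.ofReal_exp, Real.exp_log (by exact_mod_cast (by omega : 0 < n))]
      have := isAlgebraic_natCast (R := ℚ) (A := ℂ) n
      exact_mod_cast this
  exact_mod_cast Set.ncard_le_ncard h2
    ((Set.finite_Icc 1 B).subset fun n hn => Set.mem_Icc.2 ⟨hn.1, hn.2.1⟩)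

end MP60829e.ZL
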