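import Pool.Agent.Lib.MP_60829e_nt.ZL.Many
import Pool.Agent.Lib.MP_60829e_nt.ZL.Four

/-! # Theorem ZL: the clauses of the Results file FourExponentials (helper76) -/

open Module MvPolynomial

namespace MP60829e.ZL

open MP60829e.ST (Qa Lt)

theorem exponentials (h : ℕ) : ∃ K : ℕ, ∀ E : Submodule Qa ℂ, FiniteDimensional Qa E →
    finrank Qa E ≤ h → ∀ B : ℕ, 16 ≤ B →
      ({b : ℕ | 1 ≤ b ∧ b ≤ B ∧ ∃ θ ∈ E, θ ≠ 0 ∧ ∃ t : ℂ,
        (IsAlgebraic ℚ (Complex.exp (t * θ)) ∧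
            IsAlgebraic ℚ (Complex.exp (t * (Real.log b : ℝ))) ∧ ¬ ∃ q : ℚ, (q : ℂ) = t) ∨
          (t * θ ∈ Lt ∧ t * (Real.log b : ℝ) ∈ Lt ∧ ¬ IsAlgebraic ℚ t)}.ncard : ℝ) ≤
        K * Real.log (Real.log B) ^ K / Real.log B * B := by
  obtain ⟨K, hK⟩ := fourE h
  refine ⟨K, fun E hf hr B hB => le_trans ?_ (hK E hf hr B hB)⟩
  have h2 : {b : ℕ | 1 ≤ b ∧ b ≤ B ∧ ∃ θ ∈ E, θ ≠ 0 ∧ ∃ t : ℂ,
        (IsAlgebraic ℚ (Complex.exp (t * θ)) ∧
            IsAlgebraic ℚ (Complex.exp (t * (Real.log b : ℝ))) ∧ ¬ ∃ q : ℚ, (q : ℂ) = t) ∨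
          (t * θ ∈ Lt ∧ t * (Real.log b : ℝ) ∈ Lt ∧ ¬ IsAlgebraic ℚ t)} ⊆
      {n : ℕ | 1 ≤ n ∧ n ≤ B ∧ ∃ θ ∈ E, θ ≠ 0 ∧ ∃ t : ℂ, t * θ ∈ Lt ∧
        t * ((Real.log n : ℝ) : ℂ) ∈ Lt ∧ ¬ IsAlgebraic ℚ t} := by
    rintro b ⟨h1, hbB, θ, hθ, h0, t, ⟨ha, hb, hq⟩ | ⟨ha, hb, hc⟩⟩
    · rcases eq_or_lt_of_le h1 with h1' | h1'
      · -- `b = 1`: any transcendental `t` with `t * θ` in `Lt`
        subst h1'
        refine ⟨le_rfl, hbB, θ, hθ, h0, ?_⟩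
        by_contra hno
        push Not at hno
        have hL : ∀ l ∈ Lt, IsAlgebraic ℚ (l / θ) := by
          intro l hl
          refine hno (l / θ) ?_ ?_
          · rwa [div_mul_cancel₀ _ h0]
          · simp
        have hlog : ((Real.log (2 : ℕ) : ℝ) : ℂ) ∈ Lt := by
          refine Submodule.subset_span (Or.inr ?_)
          show IsAlgebraic ℚ (Complex.exp ((Real.log (2 : ℕ) : ℝ) : ℂ))
          rw [← Complex.ofReal_exp, Real.exp_log (by norm_num)]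
          have := isAlgebraic_natCast (R := ℚ) (A := ℂ) 2
          exact_mod_cast this
        have h3 := hL 1 (Submodule.subset_span (Or.inl rfl))
        have h4 := hL _ hlog
        have h5 : IsAlgebraic ℚ ((Real.log (2 : ℕ) : ℝ) : ℂ) := by
          have h6 := h4.mul h3.inv
          have h7 : ((Real.log (2 : ℕ) : ℝ) : ℂ) / θ * (1 / θ)⁻¹ =
              ((Real.log (2 : ℕ) : ℝ) : ℂ) := by
            field_simp
          rwa [h7] at h6
        refine MP60829e.hermite_lindemann ?_ h5 ?_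
        · have h8 : 0 < Real.log (2 : ℕ) := Real.log_pos (by norm_num)
          exact_mod_cast h8.ne'
        · rw [← Complex.ofReal_exp, Real.exp_log (by norm_num)]
          have := isAlgebraic_natCast (R := ℚ) (A := ℂ) 2
          exact_mod_cast this
      · refine ⟨h1, hbB, θ, hθ, h0, t, Submodule.subset_span (Or.inr ha),
          Submodule.subset_span (Or.inr hb), fun ht => hq ?_⟩
        refine MP60829e.ZB.rat_of_alg (θ := ((Real.log b : ℝ) : ℂ)) ?_ ?_ hb ht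
        · have h8 : 0 < Real.log b := Real.log_pos (by exact_mod_cast h1')
          exact_mod_cast h8.ne'
        · have h9 : (0 : ℝ) < b := by exact_mod_cast (by omega : 0 < b)
          rw [← Complex.ofReal_exp, Real.exp_log h9]
          have := isAlgebraic_natCast (R := ℚ) (A := ℂ) b
          exact_mod_cast this
    · exact ⟨h1, hbB, θ, hθ, h0, t, ha, hb, hc⟩
  exact_mod_cast Set.ncard_le_ncard h2
    ((Set.finite_Icc 1 B).subset fun n hn => Set.mem_Icc.2 ⟨hn.1, hn.2.1⟩)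

theorem general (n D κ : ℕ) : ∃ K : ℕ, ∀ E : Submodule Qa ℂ, FiniteDimensional Qa E →
    finrank Qa E ≤ κ → ∀ B : ℕ, 16 ≤ B →
      ({b : Fin n → ℕ | (∀ i, 1 ≤ b i ∧ b i ≤ B) ∧
        ∃ (y : Fin n → ℂ) (A : Submodule Qa ℂ) (F : MvPolynomial (Fin n) ℂ),
          (∀ i, ∃ q : Qa, q ≠ 0 ∧ y i - q * (Real.log (b i) : ℝ) ∈ E) ∧ A ≤ E ∧
          F.totalDegree ≤ D ∧ (∀ m, F.coeff m ∈ E ⊔ A * Lt) ∧ eval y F = 0 ∧
          ¬ ∃ G : Fin n → MvPolynomial (Fin n) ℂ, (∀ i m, (G i).coeff m ∈ A) ∧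
            (∀ i, ∀ a ∈ (G i).support, ∀ j, a j ≤ D) ∧
            F = ∑ i, (X i - C (y i)) * G i}.ncard : ℝ) ≤
        K * Real.log (Real.log B) ^ K / Real.log B * B ^ n := by
  obtain ⟨K, hK⟩ := main n D (κ + 1)
  refine ⟨K, fun E hE hκ B hB => ?_⟩
  have h1 : FiniteDimensional Qa ↥(E ⊔ Submodule.span Qa {(1 : ℂ)}) := inferInstance
  have h2 : finrank Qa ↥(E ⊔ Submodule.span Qa {(1 : ℂ)}) ≤ κ + 1 := by
    refine (Submodule.finrank_add_le_finrank_add_finrank _ _).trans ?_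
    have h3 := finrank_span_singleton (K := Qa) (one_ne_zero : (1 : ℂ) ≠ 0)
    omega
  refine le_trans ?_ (hK _ h1 h2
    (Submodule.mem_sup_right (Submodule.mem_span_singleton_self 1)) B hB)
  have hfin : (BadN (n := n) (E ⊔ Submodule.span Qa {(1 : ℂ)}) D B).Finite := by
    refine (Finset.finite_toSet (Fintype.piFinset (fun _ : Fin n => Finset.Icc 1 B))).subset ?_
    intro b hb
    rw [Finset.mem_coe, Fintype.mem_piFinset]
    intro i
    rw [Finset.mem_Icc]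
    exact hb.1 i
  have h5 := Set.ncard_le_ncard (s := {b : Fin n → ℕ | (∀ i, 1 ≤ b i ∧ b i ≤ B) ∧
        ∃ (y : Fin n → ℂ) (A : Submodule Qa ℂ) (F : MvPolynomial (Fin n) ℂ),
          (∀ i, ∃ q : Qa, q ≠ 0 ∧ y i - q * (Real.log (b i) : ℝ) ∈ E) ∧ A ≤ E ∧
          F.totalDegree ≤ D ∧ (∀ m, F.coeff m ∈ E ⊔ A * Lt) ∧ eval y F = 0 ∧
          ¬ ∃ G : Fin n → MvPolynomial (Fin n) ℂ, (∀ i m, (G i).coeff m ∈ A) ∧
            (∀ i, ∀ a ∈ (G i).support, ∀ j, a j ≤ D) ∧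
            F = ∑ i, (X i - C (y i)) * G i}) (by
      rintro b ⟨hb, y, A, F, hy, hA, hF, hc, h0, hG⟩
      refine ⟨hb, y, fun i => ?_, A, hA.trans le_sup_left, F, hF, fun m =>
        (sup_le_sup le_sup_left le_rfl : E ⊔ A * Lt ≤ (E ⊔ Submodule.span Qa {(1 : ℂ)}) ⊔ A * Lt)
          (hc m), h0, hG⟩
      obtain ⟨q, hq, hq'⟩ := hy i
      exact ⟨q, hq, Submodule.mem_sup_left hq'⟩) hfin
  exact_mod_cast h5

end MP60829e.ZL
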